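import Pool.Agent.Rot6.Defs

/-!
# Transport of a singular normalisation along a diffeomorphism

PROOF. This is the proof of `apply_lift` (`Rot5/Apply.lean`) with `m = 1`, keeping the explicit
form of the
result. `lift_all` (`hld` everywhere) gives `F` with `F G1' = G2' F`,
`LocalDiffeoAt f (sph n z) ↔ Reg F z`,
so `Reg F z` for all `z`. `of_phi` (`Rot5/Phi.lean`) for `T` and `G2` gives `T2` with
`q1 (T y) = T2 (q1 y)`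
for `Om y`. As in the proof of `transfer` (`Rot5/Transfer.lean`), `theta` (for the radius `R₀`
there) gives
diffeomorphisms `X, Γ` (`Reg` everywhere, because `F` is) and `T1 = X⁻¹ * (T2 * (F * Γ⁻¹))` has the
properties of `transfer` (`m = 1`); copy that proof, or state a version of `transfer` which also
exports
`X` with `∀ z, Reg X z` and `∀ z, T1 (Γ z) = X⁻¹ (T2 (F z))`. `to_phi` gives `Φ` with
`q1 (Φ x) = T1 (q1 x)`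
for `Om x`. Put `Λ x = b1 (F (Γ⁻¹ (q1 x)))`, `D y = b1 (X⁻¹ (q1 y))`: for `Om x`,
`q1 (Φ x) = T1 (q1 x) = X⁻¹
(T2 (F (Γ⁻¹ (q1 x)))) = X⁻¹ (T2 (q1 (Λ x))) = X⁻¹ (q1 (T (Λ x)))`, so `Φ x = D (T (Λ
x))` (`b1_q1`). `Reg Λ
x` for `Om x` and `Reg D y` for `Om y` (`reg_q1`, `reg_b1`, `Reg.comp`, `Reg.symm`). `x₀` with `Λ
x₀ = b`:
`x₀ = b1 (Γ (F⁻¹ (q1 b)))`. `Λ (G1 ^ k x) = G2 ^ k (Λ x)` as in `apply_lift`. `Reg Φ x`: if
`¬ Om x` from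
`to_phi`; if `Om x` and `x` is not in the orbit of `x₀` then `Λ x` is not in the orbit of `b` (`Λ`
is
injective on `Om`), so `Reg T (Λ x)` and `Reg Φ x` by `Reg.comp` (`Φ = D ∘ T ∘ Λ` near `x`;
`Om (T (Λ x))`).
-/

set_option autoImplicit false

open scoped ContDiff Topology Manifold
open Set Filter Metric

namespace Pool.Agent.Rot6

open Pool.Agent.HopfCov hiding pr
open Pool.Agent.HopfCov.Smooth
open Pool.Agent.HopfFin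
open Pool.Agent.Rot4
open Pool.Agent.Rot5

private theorem pow_comm_ApplyGerm {A B C : E4 ≃ₜ E4} (h : ∀ z, C (A z) = B (C z)) (k : ℕ)
    (z : E4) : C ((A ^ k : E4 ≃ₜ E4) z) = (B ^ k : E4 ≃ₜ E4) (C z) := by
  induction k with
  | zero => rfl
  | succ k ih => rw [pow_succ', pow_succ', mul_apply', mul_apply', h, ih]

private theorem pow_shf_ApplyGerm {A C : E4 ≃ₜ E4} {c : ℝ} (h : ∀ z, C (A z) = shf c (C z))
    (k : ℕ) (z : E4) : C ((A ^ k : E4 ≃ₜ E4) z) = shf (k * c) (C z) := by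
  induction k with
  | zero =>
    rw [pow_zero, Nat.cast_zero, zero_mul, shf_zero]
    rfl
  | succ k ih =>
    rw [pow_succ', mul_apply', h, ih, shf_shf]
    congr 1
    push_cast
    ring

private theorem inv_shf_ApplyGerm {X : E4 ≃ₜ E4} {c : ℝ} (h : ∀ z, X (shf c z) = shf c (X z))
    (z : E4) : (X⁻¹ : E4 ≃ₜ E4) (shf c z) = shf c ((X⁻¹ : E4 ≃ₜ E4) z) := by
  apply X.injective
  rw [apply_inv_self', h, apply_inv_self']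

private theorem conj_ApplyGerm {Φ A B : E4 ≃ₜ E4} (h : ∀ z, Φ (A z) = B (Φ z)) (k : ℤ) (z : E4) :
    Φ ((A ^ k : E4 ≃ₜ E4) z) = (B ^ k : E4 ≃ₜ E4) (Φ z) := by
  have h1 : SemiconjBy Φ A B := Homeomorph.ext h
  exact congrArg (fun e : E4 ≃ₜ E4 => e z) (h1.zpow_right k)

/-- `transfer` for `m = 1` with the explicit form of `T1` -/
private theorem transfer_ApplyGerm {n : ℕ} (hn : 0 < n) {F G1 G2 T2 : E4 ≃ₜ E4}
    (hper : ∀ z, F (shf n z) = shf n (F z))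
    (hfar : ∃ R : ℝ, ∀ z, R ≤ wsq z → (∀ t : ℝ, F (shf t z) = shf t (F z)) ∧ Reg F z)
    (hbig : ∀ R : ℝ, ∃ R' : ℝ, ∀ z, R' ≤ wsq z → R ≤ wsq (F z)) (hF : ∀ z, Reg F z)
    (h1 : ∃ R : ℝ, ∀ z, R ≤ wsq z → G1 z = shf 1 z)
    (h1n : ∀ z, (G1 ^ n : E4 ≃ₜ E4) z = shf n z) (hc : ∀ z, F (G1 z) = G2 (F z))
    (hT : ∀ z, T2 (G2 z) = shf 1 (T2 z)) (hT' : ∃ R : ℝ, ∀ z, R ≤ wsq z → T2 z = z) :
    ∃ T1 Γ X : E4 ≃ₜ E4, (∀ z, T1 (G1 z) = shf 1 (T1 z)) ∧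
      (∃ R : ℝ, ∀ z, R ≤ wsq z → T1 z = z) ∧ (∀ z, T1 (shf (n : ℝ) z) = shf (n : ℝ) (T1 z)) ∧
      (∀ z, Γ (G1 z) = G1 (Γ z)) ∧ (∀ z, Reg X z) ∧ (∀ z, Reg Γ z) ∧
      ∀ z, T1 (Γ z) = (X⁻¹ : E4 ≃ₜ E4) (T2 (F z)) := by
  obtain ⟨R₀, hR₀⟩ := h1
  obtain ⟨X, Γ, hX1, hXr, hΓr, hΓ0, hΓs, hΓw, R1, hR1⟩ := theta hn hper hfar R₀
  have hpres : ∀ z, wsq z < R₀ → wsq (G1 z) < R₀ := by
    intro z hz
    by_contra hcon
    rw [not_lt] at hcon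
    have hu : G1 (shf (-1) (G1 z)) = G1 z := by
      rw [hR₀ _ (by rwa [wsq_shf]), shf_shf, add_neg_cancel, shf_zero]
    have hu2 := G1.injective hu
    rw [← hu2, wsq_shf] at hz
    exact absurd hcon (not_le.2 hz)
  have hΓG : ∀ z, Γ (G1 z) = G1 (Γ z) := by
    intro z
    rcases lt_or_ge (wsq z) R₀ with hz | hz
    · rw [hΓ0 z hz.le, hΓ0 _ (hpres z hz).le]
    · rw [hR₀ z hz, hΓs, hR₀ (Γ z) (by rwa [hΓw])]
  obtain ⟨T1, hT1⟩ : ∃ T1 : E4 ≃ₜ E4, T1 = X⁻¹ * (T2 * (F * Γ⁻¹)) := ⟨_, rfl⟩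
  have hT1x : ∀ z, T1 (Γ z) = (X⁻¹ : E4 ≃ₜ E4) (T2 (F z)) := by
    intro z
    rw [hT1, mul_apply', mul_apply', mul_apply', inv_apply_self']
  have hsurj : ∀ w, ∃ z, Γ z = w := fun w => ⟨(Γ⁻¹ : E4 ≃ₜ E4) w, apply_inv_self' Γ w⟩
  have hG : ∀ w, T1 (G1 w) = shf 1 (T1 w) := by
    intro w
    obtain ⟨u, rfl⟩ := hsurj w
    rw [← hΓG, hT1x, hT1x, hc, hT, inv_shf_ApplyGerm hX1]
  refine ⟨T1, Γ, X, hG, ?_, ?_, hΓG, fun z => hXr z (hF _), hΓr, hT1x⟩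
  · obtain ⟨RT, hRT⟩ := hT'
    obtain ⟨R', hR'⟩ := hbig RT
    refine ⟨max R' R1, fun w hw => ?_⟩
    obtain ⟨u, rfl⟩ := hsurj w
    rw [hΓw] at hw
    rw [hT1x, hRT _ (hR' u ((le_max_left _ _).trans hw)),
      hR1 u ((le_max_right _ _).trans hw), inv_apply_self']
  · intro z
    have e3 := pow_shf_ApplyGerm (A := G1) (C := T1) (c := 1) hG n z
    rw [h1n, mul_one] at e3
    exact e3

theorem apply_germ {n : ℕ} (hn : 0 < n) {f g1 g2 : Sph4 ≃ₜ Sph4}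
    {f1 G1 H1 G1' f2 G2 H2 G2' T : E4 ≃ₜ E4} {b : E4} (hR1 : Rep n g1 f1 G1 H1 G1')
    (hR2 : Rep n g2 f2 G2 H2 G2') (hc : CommNear f) (hS : ∀ x, OnS2 (f x) ↔ OnS2 x)
    (hld : ∀ x, LocalDiffeoAt f x) (hcj : ∀ x, f (g1 x) = g2 (f x)) (hT : Nn n 0 T)
    (hTc : T * G2 = tau * T) (hb : Om b)
    (hL : ∀ x, x ≠ 0 → (∀ k : ℤ, x ≠ (G2 ^ k : E4 ≃ₜ E4) b) → Reg T x) :
    ∃ (Φ : E4 ≃ₜ E4) (Λ D : E4 → E4) (x₀ : E4), Nn n 0 Φ ∧ Φ * G1 = tau * Φ ∧ Om x₀ ∧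
      Λ x₀ = b ∧ Reg Λ x₀ ∧ Reg D (T b) ∧
      (∀ x, x ≠ 0 → (∀ k : ℤ, x ≠ (G1 ^ k : E4 ≃ₜ E4) x₀) → Reg Φ x) ∧
      ∀ x, Om x → Φ x = D (T (Λ x)) := by
  obtain ⟨F, -, hper, hfar, hbig, hconj, hreg⟩ :=
    lift_all hn hc hS (fun x _ => hld x) hcj hR1.lift hR1.far hR2.lift hR2.far
  have hF : ∀ z, Reg F z := fun z => (hreg z).1 (hld _)
  obtain ⟨T2, hT2, hT2', hT2q, hT2r⟩ := of_phi (m := 1) hR2.pair.nnG hR2.crd
    (by rwa [one_mul]) (by rw [pow_one, pow_one, hTc])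
  obtain ⟨T1, Γ, X, h1, h2, h3, h4, hX, hΓ, h5⟩ :=
    transfer_ApplyGerm hn hper hfar hbig hF hR1.far hR1.per hconj
      (fun z => by
        have h := hT2 z
        rwa [pow_one, Nat.cast_one] at h) hT2'
  obtain ⟨Φ, hΦ, hΦc, hΦq, hΦr, hΦoff⟩ := to_phi (m := 1) hn one_pos hR1.pair.nnG hR1.crd
    (T := T1) (fun z => by rw [pow_one, Nat.cast_one, h1]) h2 (fun z => by rw [one_mul, h3])
  rw [one_mul] at hΦ
  rw [pow_one, pow_one] at hΦc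
  have hΓs : ∀ z, Γ.symm (G1' z) = G1' (Γ.symm z) := by
    intro z
    rw [Homeomorph.symm_apply_eq, h4, Homeomorph.apply_symm_apply]
  have hΓ0 : ∀ (k : ℤ) (x : E4), Om x → Γ.symm (q1 ((G1 ^ k : E4 ≃ₜ E4) x)) =
      (G1' ^ k : E4 ≃ₜ E4) (Γ.symm (q1 x)) := by
    intro k x hx
    rw [← (crd_zpow hR1.pair.nnG hR1.crd k hx).2]
    exact conj_ApplyGerm hΓs k (q1 x)
  have hΛG : ∀ (k : ℤ) (x : E4), Om x → b1 (F (Γ.symm (q1 ((G1 ^ k : E4 ≃ₜ E4) x)))) =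
      (G2 ^ k : E4 ≃ₜ E4) (b1 (F (Γ.symm (q1 x)))) := by
    intro k x hx
    rw [hΓ0 k x hx, conj_ApplyGerm hconj k]
    have h6 := crd_zpow hR2.pair.nnG hR2.crd k (Om_b1 (F (Γ.symm (q1 x))))
    rw [q1_b1] at h6
    rw [h6.2, b1_q1 h6.1]
  have hΛi : ∀ x y, Om x → Om y → b1 (F (Γ.symm (q1 x))) = b1 (F (Γ.symm (q1 y))) → x = y := by
    intro x y hx hy hxy
    have h6 : q1 (b1 (F (Γ.symm (q1 x)))) = q1 (b1 (F (Γ.symm (q1 y)))) := congrArg q1 hxy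
    rw [q1_b1, q1_b1] at h6
    have h7 := congrArg b1 (Γ.symm.injective (F.injective h6))
    rwa [b1_q1 hx, b1_q1 hy] at h7
  have hΓsr : ∀ z, Reg Γ.symm z := by
    intro z
    have h6 := Pool.Agent.HopfFin.Reg.symm (hΓ (Γ.symm z))
    rwa [Homeomorph.apply_symm_apply] at h6
  have hXs : ∀ z, Reg (X⁻¹ : E4 ≃ₜ E4) z := by
    intro z
    have h6 := Pool.Agent.HopfFin.Reg.symm (hX ((X⁻¹ : E4 ≃ₜ E4) z))
    rwa [apply_inv_self'] at h6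
  have hΛ0 : b1 (F (Γ.symm (q1 (b1 (Γ (F.symm (q1 b))))))) = b := by
    rw [q1_b1, Homeomorph.symm_apply_apply, Homeomorph.apply_symm_apply, b1_q1 hb]
  have hreg1 : ∀ x, Om x → Reg (fun x => F (Γ.symm (q1 x))) x := fun x hx =>
    Reg.comp (hF _) (Reg.comp (hΓsr _) (reg_q1 hx))
  have hT1 : ∀ w, T1 w = (X⁻¹ : E4 ≃ₜ E4) (T2 (F (Γ.symm w))) := by
    intro w
    have h6 := h5 (Γ.symm w)
    rwa [Homeomorph.apply_symm_apply] at h6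
  refine ⟨Φ, fun x => b1 (F (Γ.symm (q1 x))), fun y => b1 ((X⁻¹ : E4 ≃ₜ E4) (q1 y)),
    b1 (Γ (F.symm (q1 b))), hΦ, hΦc, Om_b1 _, hΛ0, ?_, ?_, ?_, ?_⟩
  · exact Reg.comp (reg_b1 _) (hreg1 _ (Om_b1 _))
  · exact Reg.comp (reg_b1 _) (Reg.comp (hXs _) (reg_q1 (hT.om.2 hb)))
  · intro x hx0 hxk
    by_cases hx : Om x
    · apply hΦr x hx
      have h6 : Reg T (b1 (F (Γ.symm (q1 x)))) := by
        refine hL _ (fun h => ?_) fun k hk => ?_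
        · have h7 := Om_b1 (F (Γ.symm (q1 x)))
          rw [h] at h7
          exact not_Om_iff.2 ⟨0, le_rfl, (zero_smul ℝ e0).symm⟩ h7
        · rw [← hΛ0, ← hΛG k _ (Om_b1 _)] at hk
          exact hxk k (hΛi _ _ hx (crd_zpow hR1.pair.nnG hR1.crd k (Om_b1 _)).1 hk)
      have h7 : Reg T2 (F (Γ.symm (q1 x))) := by
        have h8 := hT2r _ (Om_b1 (F (Γ.symm (q1 x)))) h6
        rwa [q1_b1] at h8
      have h8 : (T1 : E4 → E4) = fun w => (X⁻¹ : E4 ≃ₜ E4) (T2 (F (Γ.symm w))) := funext hT1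
      rw [h8]
      exact Reg.comp (hXs _) (Reg.comp h7 (Reg.comp (hF _) (hΓsr _)))
    · exact hΦoff x hx0 hx
  · intro x hx
    have h6 : q1 (Φ x) = (X⁻¹ : E4 ≃ₜ E4) (q1 (T (b1 (F (Γ.symm (q1 x)))))) := by
      rw [hΦq x hx, hT1, hT2q _ (Om_b1 _), q1_b1]
    show Φ x = b1 ((X⁻¹ : E4 ≃ₜ E4) (q1 (T (b1 (F (Γ.symm (q1 x)))))))
    rw [← h6, b1_q1 (hΦ.om.2 hx)]

end Pool.Agent.Rot6
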