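import Pool.Agent.Rot6.Defs

/-!
# Diffeomorphic orbit spaces have the same class up to mirror images

PROOF. `CjV`: `Ψ, g, g'` with `Ψ g Ψ⁻¹ = g'` or `g'⁻¹`. `specSign Ψ` gives the sign of `Ψ`. If it
is positive, `pair_oriented specLiftSwap specSwapContr` gives `Ext (G' * G⁻¹)` (the same term as in
`diffeo_conj_iff`, `HopfRem/Class2.lean`, with `hs = hG`, `hs' = hG'`), so `Mir.of_eqv`. If it is
negative, compose with the reflection `l` (restriction of `linH refl0`) as in the second case of the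
proof of `diffeo_conj_iff`: `Ext (r G' r⁻¹ G⁻¹)`, `r = linH refl0`, and conjugation with `r⁻¹` gives
`Ext (G' (r⁻¹ G r)⁻¹)`, i.e. `Mir` with `s = -1`, `k = r⁻¹`.
-/

set_option autoImplicit false

open scoped ContDiff Topology Manifold
open Set Filter Metric

namespace Pool.Agent.Rot6

open Pool.Agent.HopfCov hiding pr
open Pool.Agent.HopfCov.Smooth
open Pool.Agent.HopfFin

theorem mir_of_CjV {G G' : E4 ≃ₜ E4} (hG : PD 1 G) (hG' : PD 1 G') (hc : Contr G)
    (hc' : Contr G') (h : CjV G G') : Mir G G' := by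
  obtain ⟨Ψ, g, g', f1, hg, hg', f3⟩ := h
  have hr : PD (-1) (linH refl0) := PD_refl
  rcases specSign Ψ f1 with f4 | f4
  · exact Mir.of_eqv (pair_oriented specLiftSwap specSwapContr hg hg' hG hG' hc hc' f1 f4 f3)
  · obtain ⟨l, l1, l2⟩ := exists_restr_PDs hr
    have e1 : Extends (linH refl0 * G' * (linH refl0)⁻¹) (l * g' * l⁻¹) :=
      (l1.mul hg').mul l1.inv
    have e2 : PD 1 (linH refl0 * G' * (linH refl0)⁻¹) :=
      PD_conj (s := -1) (by norm_num) hr hG'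
    have e3 : Contr (linH refl0 * G' * (linH refl0)⁻¹) := hc'.conj hr.zero
    have e4 : IsLocalDiffeomorph (𝓡 4) (𝓡 4) ∞ (l * Ψ : V4 ≃ₜ V4) := fun x =>
      (f1 x).comp (K := 𝓡 4) (hg := l2 (Ψ x))
    have e5 : ∀ x : E4, x ≠ 0 → LD 1 (ext0 (l * Ψ : V4 ≃ₜ V4)) x := by
      have := LD_ext0_mul (LD_ext0_of_extends l1 hr) f4
      rwa [show (-1 : ℝ) * -1 = 1 by norm_num] at this
    have e6 : l * Ψ * g * (l * Ψ)⁻¹ = l * g' * l⁻¹ ∨
        l * Ψ * g * (l * Ψ)⁻¹ = (l * g' * l⁻¹)⁻¹ := by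
      rcases f3 with f3 | f3
      · left
        rw [← f3]
        group
      · right
        have e7 : (l * g' * l⁻¹)⁻¹ = l * g'⁻¹ * l⁻¹ := by group
        rw [e7, ← f3]
        group
    have e8 : Ext (linH refl0 * G' * (linH refl0)⁻¹ * G⁻¹) :=
      pair_oriented specLiftSwap specSwapContr hg e1 hG e2 hc e3 e4 e5 e6
    have e9 := Ext.conj hGerm hSwap hdim4 (s := -1) (by norm_num) e8 hr.inv
    refine ⟨-1, (linH refl0)⁻¹, by norm_num, hr.inv, ?_⟩
    have e10 : G' * ((linH refl0)⁻¹ * G * (linH refl0)⁻¹⁻¹)⁻¹ =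
        (linH refl0)⁻¹ * (linH refl0 * G' * (linH refl0)⁻¹ * G⁻¹) * (linH refl0)⁻¹⁻¹ := by
      group
    rw [e10]
    exact e9

theorem mir_of_Cj {G G' : E4 ≃ₜ E4} (h : Cj G G') : Mir G G' := by
  obtain ⟨Φ, hΦ, hc⟩ := h
  obtain ⟨s, hs, hP⟩ := hΦ.exists_sign
  have e : G' = Φ * G * Φ⁻¹ := by rw [hc, mul_assoc, mul_inv_cancel, mul_one]
  rw [e]
  exact Mir.of_conj hs hP

/-- the class is trivial up to mirror images if and only if it is trivial -/
theorem Mir.ext_iff {a b : E4 ≃ₜ E4} (h : Mir a b) : Ext a ↔ Ext b := by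
  have key : ∀ {a b : E4 ≃ₜ E4}, Mir a b → Ext a → Ext b := by
    intro a b h ha
    obtain ⟨s, k, hs, hk, hE⟩ := h
    have h1 := Ext.conj hGerm hSwap hdim4 hs ha hk
    have h2 := Ext.mul hE h1
    have e : b * (k * a * k⁻¹)⁻¹ * (k * a * k⁻¹) = b := by group
    rwa [e] at h2
  exact ⟨key h, key h.symm⟩

/-- powers -/
theorem Mir.pow {a b : E4 ≃ₜ E4} (ha : PD 1 a) (hb : PD 1 b) (h : Mir a b) (n : ℕ) :
    Mir (a ^ n) (b ^ n) := by
  obtain ⟨s, k, hs, hk, hE⟩ := h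
  refine ⟨s, k, hs, hk, ?_⟩
  have h1 : PD 1 (k * a * k⁻¹) := PD_conj hs hk ha
  have key : ∀ m : ℕ, Eqv ((k * a * k⁻¹) ^ m) (b ^ m) := by
    intro m
    induction m with
    | zero =>
      rw [pow_zero, pow_zero]
      exact Eqv.refl 1
    | succ m ih =>
      rw [pow_succ, pow_succ]
      exact Eqv.mul (hb.pow m) ih hE
  have e : k * a ^ n * k⁻¹ = (k * a * k⁻¹) ^ n := by rw [conj_pow]
  rw [e]
  exact key n

end Pool.Agent.Rot6
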