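import Pool.Agent.Rot6.Defs

/-!
# The sign of the Jacobian determinant

PROOF of `off1_of_near`. The set `C = {0} ∪ {G ^ k b | k : ℤ}` is countable, so its complement is path
connected (`Set.Countable.isPathConnected_compl_of_one_lt_rank`, rank `4`) and dense
(`Set.Countable.dense_compl ℝ`). `V = {x | Reg T x}` is open (`Reg` is an eventuality:
`eventually_eventually_nhds`) and contains `Cᶜ`, so `Cᶜ ⊆ V ⊆ closure Cᶜ` and `V` is preconnected
(`IsPreconnected.subset_closure`). By `sign_const` (`RG T x` on `V`: `Eventually.self_of_nhds`) there is `s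
= 1 ∨ s = -1` with `LD s T x` on `V`. The points `t e0`, `t > 0`, are in the interior of `Cone δ`
(`Cone_mem_nhds`), so `T` is the identity near `t e0` and `LD 1 T (t e0)` (`LD.congr`, `LD_id`); choose `t
> 0` with `t e0 ∉ C` (`C` is countable, there are uncountably many `t`), so `t e0 ∈ V`; with `LD s T (t
e0)` this gives `s = 1`. (In fact all `t e0` are in `V`.)
`reg_sign`: `{x | Reg f x}` contains `x₀`, so `RG f` on a ball around `x₀`, `sign_const` there.
-/

set_option autoImplicit false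

open scoped ContDiff Topology Manifold
open Set Filter Metric

namespace Pool.Agent.Rot6

open Pool.Agent.HopfCov hiding pr
open Pool.Agent.HopfCov.Smooth
open Pool.Agent.HopfFin
open Pool.Agent.Rot4

private theorem rank_fin_fun_Sign : Module.rank ℝ E4 = 4 := by
  rw [← Module.finrank_eq_rank]
  simp

theorem off1_of_near {G T : E4 ≃ₜ E4} {b : E4} (hN : ∃ δ : ℝ, 0 < δ ∧ ∀ x ∈ Cone δ, T x = x)
    (hr : ∀ x, x ≠ 0 → (∀ k : ℤ, x ≠ (G ^ k : E4 ≃ₜ E4) b) → Reg T x) : Off1 G T b := by
  obtain ⟨δ, hδ, hT⟩ := hN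
  set C : Set E4 := insert 0 (Set.range fun k : ℤ => (G ^ k : E4 ≃ₜ E4) b) with hC
  have hCc : C.Countable := (Set.countable_range _).insert 0
  have hrank : 1 < Module.rank ℝ E4 := by
    rw [rank_fin_fun_Sign]
    norm_num
  have hV : IsOpen {x | Reg T x} := by
    rw [isOpen_iff_eventually]
    intro x hx
    exact eventually_eventually_nhds.2 hx
  have hCV : Cᶜ ⊆ {x | Reg T x} := by
    intro x hx
    refine hr x (fun h0 => hx ?_) (fun k hk => hx ?_)
    · rw [h0]
      exact Set.mem_insert _ _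
    · exact Set.mem_insert_of_mem _ ⟨k, hk.symm⟩
  have hpc : IsPreconnected {x | Reg T x} := by
    have h1 := (hCc.isPathConnected_compl_of_one_lt_rank hrank).isConnected.isPreconnected
    refine h1.subset_closure hCV ?_
    rw [(hCc.dense_compl ℝ).closure_eq]
    exact Set.subset_univ _
  obtain ⟨s, hs, hLD⟩ := sign_const (f := T) hV hpc fun x hx =>
    Filter.Eventually.self_of_nhds hx
  have hid : (fun y : E4 => y) =ᶠ[𝓝 ((1 : ℝ) • e0)] T := by
    filter_upwards [Cone_mem_nhds hδ one_pos] with y hy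
    exact (hT y hy).symm
  have h1 : LD 1 T ((1 : ℝ) • e0) := (LD_id _).congr hid
  have h2 : (1 : ℝ) • e0 ∈ {x | Reg T x} := by
    have h3 : ∀ᶠ y in 𝓝 ((1 : ℝ) • e0), LD 1 T y := by
      filter_upwards [hid.eventually_nhds] with y hy
      exact (LD_id y).congr hy
    filter_upwards [h3] with y hy
    refine ⟨hy.1, fun h0 => ?_⟩
    have h4 := hy.2
    rw [h0, mul_zero] at h4
    exact lt_irrefl _ h4
  have h3 := hLD _ h2
  have hs1 : s = 1 := by
    rcases hs with h | h
    · exact h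
    · exfalso
      have h4 := h1.2
      have h5 := h3.2
      rw [h] at h5
      linarith
  intro x hx hx'
  have h4 := hLD x (hr x hx hx')
  rwa [hs1] at h4

theorem Nn.id_near {n : ℕ} {T : E4 ≃ₜ E4} (h : Nn n 0 T) :
    ∃ δ : ℝ, 0 < δ ∧ ∀ x ∈ Cone δ, T x = x := by
  obtain ⟨δ, hδ, h1⟩ := h.near
  refine ⟨δ, hδ, fun x hx => ?_⟩
  have h2 := h1 x hx
  rw [pow_zero] at h2
  exact h2

/-- a homeomorphism near the ray which is regular off the origin preserves the orientation -/
theorem ld_of_near {T : E4 ≃ₜ E4} (hN : ∃ δ : ℝ, 0 < δ ∧ ∀ x ∈ Cone δ, T x = x)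
    (hr : ∀ x, x ≠ 0 → Reg T x) : ∀ x, x ≠ 0 → LD 1 T x := by
  intro x hx
  refine off1_of_near (G := 1) (T := T) (b := 0) hN (fun y hy _ => hr y hy) x hx fun k => ?_
  rw [one_zpow]
  exact hx

theorem reg_sign {f : E4 → E4} {x₀ : E4} (h : Reg f x₀) :
    ∃ s : ℝ, s * s = 1 ∧ ∀ᶠ x in 𝓝 x₀, LD s f x := by
  obtain ⟨ε, hε, hb⟩ := Metric.eventually_nhds_iff_ball.1 h
  obtain ⟨s, hs, hLD⟩ := sign_const (f := f) (isOpen_ball (x := x₀) (ε := ε))
    (convex_ball x₀ ε).isPreconnected fun x hx => hb x hx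
  refine ⟨s, ?_, ?_⟩
  · rcases hs with h | h <;> rw [h] <;> norm_num
  · filter_upwards [ball_mem_nhds x₀ hε] with x hx
    exact hLD x hx

end Pool.Agent.Rot6
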