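import Pool.Agent.Rot6.Spread
import Pool.Agent.Rot6.Sign

/-!
# Two generators with the same singularity are conjugate relative to the ray

PROOF. Let `c = T b = T' b'` (`c ≠ 0`, `Om c` because `T` is the identity near the ray: `Nn.om`) and `E =
η'⁻¹ * η`, `PD 1 E`, `Ext E` (`Ext (η' * η⁻¹)` and conjugation: `η'⁻¹ η = (η'⁻¹ (η' η⁻¹)⁻¹ η')`.. use
`Ext.conj` or the class group). Let `ρ > 0` be such that for `‖x‖ < ρ`: `η x = T (b + x) - c`, `η' x = T'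
(b' + x) - c`, `‖x‖ < ‖b‖`, `‖x‖ < ‖b'‖`; choose `R > 0`, `R < ρ`, with `E '' closedBall 0 R ⊆ ball 0 ρ`
and `η '' closedBall 0 R ⊆ ball 0 (‖c‖ / 8)` and, with `δ > 0` such that `c ∉ Cone δ` (`Om c`; `Cone δ` is
closed), `c + η '' closedBall 0 R` disjoint from `Cone δ`. Let `r = R / 2`. `ext_outside`
(`HopfFin/Schoen.lean`) gives `Q` with `LD 1 Q x` for all `x` and `Q x = E x` for `r ≤ ‖x‖`. So `Q ''
closedBall 0 r' = E '' closedBall 0 r'` for all `r' ≥ r` (bijections which agree outside), and `Q ''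
closedBall 0 R ⊆ ball 0 ρ`.
`j = tr c * (η' * Q * η⁻¹) * tr (-c)`; it is the identity off `C = {y | η⁻¹ (y - c) ∈ closedBall 0 r}` (if
`x = η⁻¹ (y - c)`, `r < ‖x‖`, then `η' (Q x) = η' (E x) = η x`). `C` is closed, `C ⊆ closedBall c (‖c‖ / 8)`.
`spread` gives `J`; put `k = T'⁻¹ * J * T`.
* `k * G = G' * k`: `T G = tau T`, `J tau = tau J`, `T'⁻¹ tau = G' T'⁻¹`.
* `Nn n 0 k`: `k 0 = 0`; all three factors commute with `tau ^ n` (`hT.comm`, `hT'.comm`); near the ray `T`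
and `T'` are the identity on a cone and `J y = y` for `y` in `Cone δ`, `y ≠ 0` (no `tau ^ k y` is in `C`;
cones are invariant under positive scaling).
* near `b`: for `‖x‖ < R`: `T (b + x) = c + η x`, `J (c + η x) = j (c + η x) = c + η' (Q x)` (`‖η x‖ < ‖c‖ /
4`), `= T' (b' + Q x)` (`‖Q x‖ < ρ`), so `k (b + x) = b' + Q x`; `LD 1 k y` for `y ∈ ball b R`.
* `Sm k`: let `x ≠ 0`. If some `G ^ m x ∈ ball b R` then `k = G' ^ (-m) * k * G ^ m` and the composition is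
`LD 1` (`PD.zpow`; `k (G ^ m x) ≠ 0`). Otherwise `x` is not in the orbit of `b` (`Off1`: `LD 1 T x`), `T x ≠
0`, and no `tau ^ m (T x) = T (G ^ m x)` is in `C` (a point of `C` is `c + η u`, `‖u‖ ≤ r < R`, `= T (b +
u)`, `b + u ∈ ball b R`), so `J` is the identity near `T x`, and `T'` is `LD 1` at `x' = T'⁻¹ (T x)`: `x' ≠
0`, and `x' = G' ^ m b'` would give `T x = tau ^ m c = T (G ^ m b)`; so `T'⁻¹` is `LD 1` at `T x`
(`LD.inv`), and `LD 1 k x`. Near `x`, `k = T'⁻¹ * T`.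
-/

set_option autoImplicit false

open scoped ContDiff Topology Manifold
open Set Filter Metric

namespace Pool.Agent.Rot6

open Pool.Agent.HopfCov hiding pr
open Pool.Agent.HopfCov.Smooth
open Pool.Agent.HopfFin
open Pool.Agent.Rot4

/-- the modification near the singular point: `Q` is a diffeomorphism which agrees with `η'⁻¹ η` off a
small ball -/
theorem modify_local {η η' : E4 ≃ₜ E4} (hη : PD 1 η) (hη' : PD 1 η') (hE : Eqv η η') {r : ℝ}
    (hr : 0 < r) : ∃ Q : E4 ≃ₜ E4, (∀ x, LD 1 Q x) ∧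
      (∀ x, r ≤ ‖x‖ → Q x = (η'⁻¹ * η : E4 ≃ₜ E4) x) ∧
      ∀ R, r ≤ R → Q '' closedBall 0 R = (η'⁻¹ * η : E4 ≃ₜ E4) '' closedBall 0 R := by
  have hP : PD 1 (η'⁻¹ * η : E4 ≃ₜ E4) := by
    have h1 := hη'.inv.mul hη
    rwa [one_mul] at h1
  have hX : Ext (η'⁻¹ * η : E4 ≃ₜ E4) := by
    have h1 := Ext.conj hGerm hSwap hdim4 (one_mul 1) (Ext.inv hE) hη'.inv
    have e : η'⁻¹ * (η' * η⁻¹)⁻¹ * η'⁻¹⁻¹ = η'⁻¹ * η := by group
    rwa [e] at h1
  obtain ⟨Q, hQ, hQE⟩ := ext_outside hP hX hr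
  refine ⟨Q, hQ, hQE, fun R hR => ?_⟩
  have h1 : Q '' (closedBall (0 : E4) R)ᶜ =
      (η'⁻¹ * η : E4 ≃ₜ E4) '' (closedBall (0 : E4) R)ᶜ := by
    refine image_congr fun x hx => hQE x ?_
    rw [mem_compl_iff, mem_closedBall_zero_iff, not_le] at hx
    exact hR.trans hx.le
  rw [image_compl_eq Q.bijective, image_compl_eq (Homeomorph.bijective _)] at h1
  exact compl_injective h1

/-- the properties of the equivariant homeomorphism of `spread` needed here -/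
private theorem nn_Modify {n : ℕ} {J : E4 ≃ₜ E4} {C : Set E4} (hJc : J * tau = tau * J)
    (hJ : ∀ x, x ≠ 0 → (∀ k : ℤ, (tau ^ k : E4 ≃ₜ E4) x ∉ C) → ∀ᶠ y in 𝓝 x, J y = y)
    {δ : ℝ} (hδ : 0 < δ) (hC : ∀ x ∈ C, x ∉ Cone δ) : Nn n 0 J := by
  have h0 : J 0 = 0 := by
    have h1 : (J * tau : E4 ≃ₜ E4) 0 = (tau * J : E4 ≃ₜ E4) 0 := by rw [hJc]
    rw [mul_apply', mul_apply', tau_apply, tau_apply, smul_zero] at h1
    have h2 : (2⁻¹ : ℝ) • J 0 = 0 := by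
      have h3 : J 0 - (2⁻¹ : ℝ) • J 0 = 0 := sub_eq_zero.2 h1
      have h4 : J 0 - (2⁻¹ : ℝ) • J 0 = (2⁻¹ : ℝ) • J 0 := by
        have h5 : J 0 = (2⁻¹ : ℝ) • J 0 + (2⁻¹ : ℝ) • J 0 := by
          rw [← add_smul]
          norm_num
        nth_rewrite 1 [h5]
        abel
      rwa [h4] at h3
    rwa [h2] at h1
  have hc : Commute J (tau : E4 ≃ₜ E4) := hJc
  refine ⟨h0, (hc.pow_right n).eq, δ, hδ, fun x hx => ?_⟩
  rw [pow_zero]
  by_cases hx0 : x = 0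
  · rw [hx0]
    exact h0
  · refine (hJ x hx0 fun k hk => hC _ hk ?_).self_of_nhds
    rw [tau_zpow_apply]
    exact Cone_smul (zpow_nonneg zero_le_two _) hx

/-- conjugation passes to powers -/
private theorem zpow_Modify {k G G' : E4 ≃ₜ E4} (h : k * G = G' * k) (m : ℤ) :
    k * G ^ m = G' ^ m * k := by
  have h1 : SemiconjBy k G G' := h
  exact (h1.zpow_right m).eq

/-- the choice of the radii -/
private theorem radii_Modify {n : ℕ} {T T' η η' : E4 ≃ₜ E4} {b b' : E4} (hT : Nn n 0 T)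
    (hb : Om b) (hbb : T b = T' b') (hη : Germ T b η) (hη' : Germ T' b' η') :
    ∃ R δ ρ : ℝ, 0 < R ∧ 0 < δ ∧ (∀ x, ‖x‖ < ρ → η x = T (b + x) - T b) ∧
      (∀ x, ‖x‖ < ρ → η' x = T' (b' + x) - T b) ∧ R < ρ ∧
      ∀ x, ‖x‖ ≤ R → ‖(η'⁻¹ * η : E4 ≃ₜ E4) x‖ < ρ ∧ ‖η x‖ ≤ ‖T b‖ / 8 ∧
        T b + η x ∉ Cone δ := by
  have hOm : Om (T b) := hT.om.2 hb
  have hc0 : T b ≠ 0 := by
    intro h
    rw [h] at hOm
    unfold Om at hOm
    rw [norm_zero] at hOm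
    simp at hOm
  obtain ⟨ρ, hρ, hρ'⟩ := Metric.eventually_nhds_iff.1 (hη.2.and hη'.2)
  have hE0 : (η'⁻¹ * η : E4 ≃ₜ E4) 0 = 0 := by
    rw [mul_apply', hη.1.zero, hη'.1.inv_zero]
  have h1 : ∀ᶠ x in 𝓝 (0 : E4), ‖(η'⁻¹ * η : E4 ≃ₜ E4) x‖ < ρ := by
    have h2 : Tendsto (fun x => ‖(η'⁻¹ * η : E4 ≃ₜ E4) x‖) (𝓝 0) (𝓝 ‖(η'⁻¹ * η : E4 ≃ₜ E4) 0‖) :=
      ((η'⁻¹ * η : E4 ≃ₜ E4).continuous.norm).tendsto 0
    rw [hE0, norm_zero] at h2
    exact h2.eventually_lt_const hρ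
  have hcn : 0 < ‖T b‖ / 8 := by
    have := norm_pos_iff.2 hc0
    positivity
  have h3 : ∀ᶠ x in 𝓝 (0 : E4), ‖η x‖ < ‖T b‖ / 8 := by
    have h2 : Tendsto (fun x => ‖η x‖) (𝓝 0) (𝓝 ‖η 0‖) := (η.continuous.norm).tendsto 0
    rw [hη.1.zero, norm_zero] at h2
    exact h2.eventually_lt_const hcn
  obtain ⟨δ, hδ, hcδ⟩ : ∃ δ : ℝ, 0 < δ ∧ T b ∉ Cone δ := by
    by_contra hcon
    push Not at hcon
    have h4 : ‖pr (T b)‖ ≤ 0 := by
      refine le_of_forall_pos_le_add fun ε hε => ?_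
      have h5 : ‖pr (T b)‖ ≤ ε / (|(T b) 0| + 1) * (T b) 0 := hcon _ (by positivity)
      have h6 : ε / (|(T b) 0| + 1) * (T b) 0 ≤ ε := by
        rw [div_mul_eq_mul_div, div_le_iff₀ (by positivity)]
        have := le_abs_self ((T b) 0)
        nlinarith
      linarith
    have h7 : 0 ≤ (T b) 0 := Cone_apply_nonneg one_pos (hcon 1 one_pos)
    have h8 := norm_sq_eq (T b)
    have h9 : ‖pr (T b)‖ = 0 := le_antisymm h4 (norm_nonneg _)
    rw [h9] at h8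
    have h10 : (T b) 0 < ‖T b‖ := hOm
    nlinarith [norm_nonneg (T b)]
  have h4 : ∀ᶠ x in 𝓝 (0 : E4), T b + η x ∉ Cone δ := by
    have h5 : Tendsto (fun x => T b + η x) (𝓝 0) (𝓝 (T b + η 0)) :=
      (continuous_const.add η.continuous).tendsto 0
    rw [hη.1.zero, add_zero] at h5
    exact h5.eventually ((isClosed_Cone δ).isOpen_compl.mem_nhds hcδ)
  obtain ⟨R₁, hR₁, hR₁'⟩ := Metric.eventually_nhds_iff.1 (h1.and (h3.and h4))
  refine ⟨min R₁ ρ / 2, δ, ρ, by positivity, hδ, fun x hx => ?_, fun x hx => ?_, ?_,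
    fun x hx => ?_⟩
  · exact (hρ' (by rwa [dist_zero_right])).1
  · rw [(hρ' (by rwa [dist_zero_right])).2, hbb]
  · have := min_le_right R₁ ρ
    linarith
  · have h5 : ‖x‖ < R₁ := by
      have h6 := min_le_left R₁ ρ
      have h7 : 0 < min R₁ ρ := lt_min hR₁ hρ
      linarith
    obtain ⟨h6, h7, h8⟩ := hR₁' (show dist x 0 < R₁ by rwa [dist_zero_right])
    exact ⟨h6, h7.le, h8⟩

/-- the conjugating homeomorphism is smooth off the origin -/
private theorem smooth_Modify {G G' T T' J k : E4 ≃ₜ E4} {b b' : E4} {R : ℝ} {C : Set E4}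
    (hG : PD 1 G) (hG' : PD 1 G') (hT0 : T 0 = 0) (hT'0 : T' 0 = 0) (hTG : T * G = tau * T)
    (hTG' : T' * G' = tau * T') (hbb : T b = T' b') (hL : Off1 G T b) (hL' : Off1 G' T' b')
    (hk : k = T'⁻¹ * J * T) (hkG : k * G = G' * k) (hk0 : k 0 = 0) (hR : 0 < R)
    (hJ : ∀ x, x ≠ 0 → (∀ k : ℤ, (tau ^ k : E4 ≃ₜ E4) x ∉ C) → ∀ᶠ y in 𝓝 x, J y = y)
    (hCR : ∀ y, T y ∈ C → y ∈ ball b R) (hkb : ∀ y ∈ ball b R, LD 1 k y) : PD 1 k := by
  refine ⟨hk0, fun x hx => ?_⟩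
  have hTm : ∀ m : ℤ, ∀ y, (tau ^ m : E4 ≃ₜ E4) (T y) = T ((G ^ m : E4 ≃ₜ E4) y) := by
    intro m y
    rw [← mul_apply', ← zpow_Modify hTG m, mul_apply']
  have hTm' : ∀ m : ℤ, ∀ y, (tau ^ m : E4 ≃ₜ E4) (T' y) = T' ((G' ^ m : E4 ≃ₜ E4) y) := by
    intro m y
    rw [← mul_apply', ← zpow_Modify hTG' m, mul_apply']
  by_cases h : ∃ m : ℤ, (G ^ m : E4 ≃ₜ E4) x ∈ ball b R
  · obtain ⟨m, hm⟩ := h
    have h1 : k = G' ^ (-m) * (k * G ^ m) := by
      rw [zpow_Modify hkG m, ← mul_assoc, ← zpow_add, neg_add_cancel, zpow_zero, one_mul]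
    have h2 : LD 1 (G ^ m : E4 ≃ₜ E4) x := (hG.zpow m).2 x hx
    have h3 : LD 1 (k * G ^ m : E4 ≃ₜ E4) x := (hkb _ hm).mul_one' h2
    have h4 : (k * G ^ m : E4 ≃ₜ E4) x ≠ 0 := by
      intro h5
      rw [mul_apply'] at h5
      exact (hG.zpow m).ne hx (k.injective (h5.trans hk0.symm))
    have h5 : LD 1 (G' ^ (-m) * (k * G ^ m) : E4 ≃ₜ E4) x :=
      ((hG'.zpow (-m)).2 _ h4).mul_one' h3
    rw [← h1] at h5
    exact h5
  · push Not at h
    have hxb : ∀ m : ℤ, x ≠ (G ^ m : E4 ≃ₜ E4) b := by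
      intro m hm
      apply h (-m)
      rw [hm, ← mul_apply', ← zpow_add, neg_add_cancel, zpow_zero, one_apply']
      exact mem_ball_self hR
    have hTx : T x ≠ 0 := fun h0 => hx (T.injective (h0.trans hT0.symm))
    have h1 : LD 1 T x := hL x hx hxb
    have h2 : ∀ᶠ y in 𝓝 (T x), J y = y := by
      refine hJ (T x) hTx fun m hm => ?_
      rw [hTm] at hm
      exact h m (hCR _ hm)
    have h3 : LD 1 T' ((T'⁻¹ : E4 ≃ₜ E4) (T x)) := by
      refine hL' _ ?_ ?_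
      · intro h0
        apply hTx
        rw [← apply_inv_self' T' (T x), h0, hT'0]
      · intro m hm
        apply hxb m
        apply T.injective
        rw [← apply_inv_self' T' (T x), hm, ← hTm', ← hbb, hTm]
    have h4 : LD 1 (T'⁻¹ * T : E4 ≃ₜ E4) x := (LD.inv' h3).mul_one' h1
    refine h4.congr ?_
    have h5 : Tendsto T (𝓝 x) (𝓝 (T x)) := T.continuous.tendsto x
    filter_upwards [h5.eventually h2] with y hy
    rw [hk, mul_apply', mul_apply', mul_apply', hy]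

theorem modify {n : ℕ} {G G' T T' η η' : E4 ≃ₜ E4} {b b' : E4} (hG : PD 1 G) (hG' : PD 1 G')
    (hT : Nn n 0 T) (hT' : Nn n 0 T') (hTG : T * G = tau * T) (hTG' : T' * G' = tau * T')
    (hb : Om b) (hbb : T b = T' b') (hL : Off1 G T b) (hL' : Off1 G' T' b') (hη : Germ T b η)
    (hη' : Germ T' b' η') (hE : Eqv η η') : ∃ k : E4 ≃ₜ E4, Nn n 0 k ∧ k * G = G' * k ∧ Sm k := by
  obtain ⟨R, δ, ρ, hR, hδ, hρ, hρ', hRρ, hRR⟩ := radii_Modify hT hb hbb hη hη'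
  have hc0 : T b ≠ 0 := by
    have hOm : Om (T b) := hT.om.2 hb
    intro h
    rw [h] at hOm
    unfold Om at hOm
    rw [norm_zero] at hOm
    simp at hOm
  have hr : 0 < R / 2 := half_pos hR
  obtain ⟨Q, hQ1, hQ2, hQ3⟩ := modify_local hη.1 hη'.1 hE hr
  have hQR : ∀ x, ‖x‖ ≤ R → ‖Q x‖ < ρ := by
    intro x hx
    have h1 : Q x ∈ Q '' closedBall 0 R := ⟨x, by rwa [mem_closedBall_zero_iff], rfl⟩
    rw [hQ3 R (by linarith)] at h1
    obtain ⟨y, hy, hyx⟩ := h1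
    rw [← hyx]
    exact (hRR y (by rwa [mem_closedBall_zero_iff] at hy)).1
  set j : E4 ≃ₜ E4 := tr (T b) * (η' * Q * η⁻¹) * tr (-T b) with hjdef
  have hj : ∀ y, j y = η' (Q ((η⁻¹ : E4 ≃ₜ E4) (y - T b))) + T b := by
    intro y
    rw [hjdef, mul_apply', mul_apply', mul_apply', mul_apply', tr_apply, tr_apply,
      ← sub_eq_add_neg]
  set C : Set E4 := {y | (η⁻¹ : E4 ≃ₜ E4) (y - T b) ∈ closedBall (0 : E4) (R / 2)} with hCdef
  have hCcl : IsClosed C :=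
    isClosed_closedBall.preimage ((η⁻¹ : E4 ≃ₜ E4).continuous.comp
      (continuous_id.sub continuous_const))
  have hCm : ∀ y ∈ C, ∃ u : E4, ‖u‖ ≤ R / 2 ∧ y = T b + η u := by
    intro y hy
    refine ⟨(η⁻¹ : E4 ≃ₜ E4) (y - T b), ?_, ?_⟩
    · have h1 : (η⁻¹ : E4 ≃ₜ E4) (y - T b) ∈ closedBall (0 : E4) (R / 2) := hy
      rwa [mem_closedBall_zero_iff] at h1
    · rw [apply_inv_self', add_sub_cancel]
  have hCc : C ⊆ closedBall (T b) (‖T b‖ / 8) := by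
    intro y hy
    obtain ⟨u, hu, rfl⟩ := hCm y hy
    rw [mem_closedBall, dist_eq_norm, add_sub_cancel_left]
    exact (hRR u (by linarith)).2.1
  have hjC : ∀ x, x ∉ C → j x = x := by
    intro x hx
    have h1 : R / 2 ≤ ‖(η⁻¹ : E4 ≃ₜ E4) (x - T b)‖ := by
      by_contra hcon
      push Not at hcon
      apply hx
      show (η⁻¹ : E4 ≃ₜ E4) (x - T b) ∈ closedBall (0 : E4) (R / 2)
      rw [mem_closedBall_zero_iff]
      exact hcon.le
    rw [hj, hQ2 _ h1, mul_apply', apply_inv_self', apply_inv_self', sub_add_cancel]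
  obtain ⟨J, hJc, hJj, hJn, -⟩ := spread hc0 hCcl hCc hjC
  have hJN : Nn n 0 J := by
    refine nn_Modify hJc hJn hδ fun x hx => ?_
    obtain ⟨u, hu, rfl⟩ := hCm x hx
    exact (hRR u (by linarith)).2.2
  have hkN : Nn n 0 (T'⁻¹ * J * T) := (hT'.inv.mul hJN).mul hT
  have hkG : T'⁻¹ * J * T * G = G' * (T'⁻¹ * J * T) := by
    have h1 : T'⁻¹ * tau = G' * T'⁻¹ := by
      have h2 : G' = T'⁻¹ * (T' * G') := by rw [← mul_assoc, inv_mul_cancel, one_mul]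
      rw [h2, hTG', mul_assoc, mul_assoc, mul_inv_cancel, mul_one]
    calc T'⁻¹ * J * T * G = T'⁻¹ * J * (T * G) := by rw [mul_assoc]
      _ = T'⁻¹ * (J * tau) * T := by rw [hTG]; simp only [mul_assoc]
      _ = (T'⁻¹ * tau) * (J * T) := by rw [hJc]; simp only [mul_assoc]
      _ = G' * (T'⁻¹ * J * T) := by rw [h1]; simp only [mul_assoc]
  refine ⟨T'⁻¹ * J * T, hkN, hkG, Sm_of_PD (s := 1) ?_⟩
  have hkb : ∀ x, ‖x‖ < R → (T'⁻¹ * J * T : E4 ≃ₜ E4) (b + x) = b' + Q x := by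
    intro x hx
    have h1 : T (b + x) = T b + η x := by
      rw [hρ x (by linarith), add_sub_cancel]
    have h2 : ‖T b + η x - T b‖ < ‖T b‖ / 4 := by
      rw [add_sub_cancel_left]
      have h3 := (hRR x hx.le).2.1
      have h4 := norm_pos_iff.2 hc0
      linarith
    rw [mul_apply', mul_apply', h1, hJj _ h2, hj, add_sub_cancel_left, inv_apply_self',
      hρ' _ (hQR x hx.le), sub_add_cancel, inv_apply_self']
  refine smooth_Modify (R := R) (C := C) hG hG' hT.zero hT'.zero hTG hTG' hbb hL hL' rfl hkG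
    hkN.zero hR hJn ?_ ?_
  · intro y hy
    obtain ⟨u, hu, hyu⟩ := hCm _ hy
    have h1 : T (b + u) = T b + η u := by
      rw [hρ u (by linarith), add_sub_cancel]
    have h2 : y = b + u := T.injective (hyu.trans h1.symm)
    rw [h2, mem_ball, dist_eq_norm, add_sub_cancel_left]
    linarith
  · intro y hy
    have h1 : LD 1 (tr b' * Q * tr (-b) : E4 ≃ₜ E4) y :=
      LD_all_mul (LD_all_mul (LD_tr b') hQ1) (LD_tr (-b)) y
    refine h1.congr ?_
    filter_upwards [isOpen_ball.mem_nhds hy] with z hz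
    rw [mem_ball, dist_eq_norm] at hz
    have h2 := hkb (z - b) hz
    rw [add_sub_cancel] at h2
    rw [h2, mul_apply', mul_apply', tr_apply, tr_apply, ← sub_eq_add_neg, add_comm]

end Pool.Agent.Rot6
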