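import Pool.Agent.Rot6.Spread
import Pool.Agent.Rot6.Sign

/-!
# Moving a point off the ray by an equivariant diffeomorphism which is the identity near the ray

PROOF. `move_small`: let `c` with `Om c`. `c ∉ Cone δ₀` for some `δ₀ > 0` (`exists_not_mem_Cone`-like: `Om c`
means `c 0 < ‖c‖`; if `c ∈ Cone δ` for all `δ > 0` then `pr c = 0` and `0 ≤ c 0`, so `c = (c 0) e0`, `‖c‖ = c
0`), and `Cone δ₀` is closed, so there is `r`, `0 < r ≤ ‖c‖ / 8`, with `closedBall c r ∩ Cone δ₀ = ∅`. For `c'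
∈ ball c r`, `push_open` (`HopfRem/PushE.lean`) with `U = ball c r` (convex, preconnected) gives `S` with
`LD 1 S x` for all `x`, `S c = c'`, the identity off a compact set `C ⊆ ball c r`. `spread` for `j = S` and
`C` gives `J`: `J c = S c = c'` (`‖c - c‖ = 0 < ‖c‖ / 4`), `J tau = tau J`, `LD 1 J x` for `x ≠ 0`. `Nn n 0
J`: `J 0 = 0` (from `J tau = tau J`: `J 0` is fixed by `tau`; or `tau (J 0) = J 0` gives `J 0 = 0`), it
commutes with `tau ^ n`; for `x ∈ Cone δ₀`, `x ≠ 0`, no `tau ^ k x` is in `C` (cones are invariant under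
positive scaling), so `J x = x`.
`move_pt`: the relation there is such a `Θ` with `Θ c = c'` is an equivalence relation on `{c | Om c}`
(`Θ₂ * Θ₁`, `Θ⁻¹`: `Nn.mul`, `Nn.inv`; `LD 1` of the product and of the inverse off `0`), and by `move_small`
every `c` has a neighbourhood all of whose points are equivalent to `c`. `{c | Om c}` is preconnected: it is
the image of `ℝ⁴` under the continuous map `b1` (`Om_b1`, `b1_q1`). `IsPreconnected.induction₂` as in the
proof of `push_open`.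
-/

set_option autoImplicit false

open scoped ContDiff Topology Manifold
open Set Filter Metric

namespace Pool.Agent.Rot6

open Pool.Agent.HopfCov hiding pr
open Pool.Agent.HopfCov.Smooth
open Pool.Agent.HopfFin
open Pool.Agent.Rot4

theorem move_small (n : ℕ) {c : E4} (hc : Om c) : ∃ r : ℝ, 0 < r ∧ ∀ c' ∈ ball c r,
    ∃ Θ : E4 ≃ₜ E4, Nn n 0 Θ ∧ Θ * tau = tau * Θ ∧ (∀ x, x ≠ 0 → LD 1 Θ x) ∧ Θ c = c' := by
  have hc0 : c ≠ 0 := hc.ne
  have hn : 0 < ‖c‖ := norm_pos_iff.2 hc0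
  obtain ⟨δ, hδ, hw⟩ := wsq_of_cone (wsq (q1 c) + 1)
  have hcδ : c ∉ Cone δ := fun h => by
    have := hw c h hc
    linarith
  obtain ⟨r', hr', hsub⟩ := Metric.nhds_basis_closedBall.mem_iff.1
    ((isClosed_Cone δ).isOpen_compl.mem_nhds hcδ)
  refine ⟨min r' (‖c‖ / 8), lt_min hr' (by positivity), fun c' hc' => ?_⟩
  obtain ⟨S, hS, hSc, C, hC, hCU, hSid⟩ := push_open isOpen_ball
    (convex_ball c (min r' (‖c‖ / 8))).isPreconnected
    (mem_ball_self (lt_min hr' (by positivity))) hc'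
  have hC1 : C ⊆ closedBall c (‖c‖ / 8) :=
    hCU.trans (ball_subset_closedBall.trans (closedBall_subset_closedBall (min_le_right _ _)))
  have hC2 : C ⊆ closedBall c r' :=
    hCU.trans (ball_subset_closedBall.trans (closedBall_subset_closedBall (min_le_left _ _)))
  obtain ⟨J, hJt, hJS, hJid, hJL⟩ := spread hc0 hC.isClosed hC1 hSid
  have hJ0 : J 0 = 0 := by
    have h1 := congrArg (fun e : E4 ≃ₜ E4 => e 0) hJt
    simp only [mul_apply', tau_apply, smul_zero] at h1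
    have h2 : (2⁻¹ : ℝ) • J 0 = 0 := by
      have h3 : J 0 - (2⁻¹ : ℝ) • J 0 = (2⁻¹ : ℝ) • J 0 := by
        rw [sub_eq_iff_eq_add, ← add_smul]
        norm_num
      rw [← h3, sub_eq_zero]
      exact h1
    rwa [smul_eq_zero_iff_right (by norm_num)] at h2
  have hcomm : Commute J (tau ^ n) := (show Commute J tau from hJt).pow_right n
  refine ⟨J, ⟨hJ0, hcomm.eq, δ, hδ, fun x hx => ?_⟩, hJt, fun x hx => hJL hS x hx, ?_⟩
  · rw [pow_zero]
    show J x = x
    by_cases hx0 : x = 0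
    · rw [hx0, hJ0]
    · refine (hJid x hx0 fun k hk => ?_).self_of_nhds
      have h1 : (tau ^ k : E4 ≃ₜ E4) x ∈ Cone δ := by
        rw [tau_zpow_apply]
        exact Cone_smul (by positivity) hx
      exact hsub (hC2 hk) h1
  · rw [hJS c (by rw [sub_self, norm_zero]; positivity), hSc]

theorem move_pt (n : ℕ) {c c' : E4} (hc : Om c) (hc' : Om c') :
    ∃ Θ : E4 ≃ₜ E4, Nn n 0 Θ ∧ Θ * tau = tau * Θ ∧ (∀ x, x ≠ 0 → LD 1 Θ x) ∧ Θ c = c' := by
  have hpre : IsPreconnected {x : E4 | Om x} := by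
    have h1 : {x : E4 | Om x} = range b1 := by
      ext x
      exact ⟨fun hx => ⟨q1 x, b1_q1 hx⟩, by rintro ⟨z, rfl⟩; exact Om_b1 z⟩
    rw [h1]
    exact isPreconnected_range continuous_b1
  refine hpre.induction₂ (fun c c' => ∃ Θ : E4 ≃ₜ E4, Nn n 0 Θ ∧ Θ * tau = tau * Θ ∧
      (∀ x, x ≠ 0 → LD 1 Θ x) ∧ Θ c = c') ?_ ?_ ?_ hc hc'
  · intro x hx
    obtain ⟨r, hr, h⟩ := move_small n (show Om x from hx)
    refine eventually_nhdsWithin_of_eventually_nhds ?_
    filter_upwards [ball_mem_nhds x hr] with y hy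
    exact h y hy
  · rintro x y z - - - ⟨Θ, h1, h2, h3, h4⟩ ⟨Θ', h1', h2', h3', h4'⟩
    have hne : ∀ w, w ≠ 0 → Θ w ≠ 0 := fun w hw h => hw (Θ.injective (h.trans h1.zero.symm))
    refine ⟨Θ' * Θ, ?_, ?_, fun w hw => ?_, ?_⟩
    · have := h1'.mul h1
      rwa [add_zero] at this
    · rw [mul_assoc, h2, ← mul_assoc, h2', mul_assoc]
    · exact (h3' _ (hne w hw)).mul_one' (h3 w hw)
    · rw [mul_apply', h4, h4']
  · rintro x y - - ⟨Θ, h1, h2, h3, h4⟩
    refine ⟨Θ⁻¹, h1.inv, ?_, fun w hw => ?_, ?_⟩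
    · exact ((show Commute Θ tau from h2).inv_left).eq
    · refine LD.inv' (h3 _ fun h => hw ?_)
      rw [← apply_inv_self' Θ w, h, h1.zero]
    · rw [← h4, inv_apply_self']

end Pool.Agent.Rot6
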