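import Pool.Agent.Rot6.Key
import Pool.Agent.Rot6.Modify
import Pool.Agent.Rot6.MovePt

/-!
# Generators with the same class are conjugate relative to the ray

`orbit_isolated`: PROOF. `T` conjugates `G` to `tau`; the points `tau ^ k (T b)`, `T b ≠ 0`, are isolated
in `ℝ⁴ ∖ 0`: `tau_orbit_open` (`Rot4/RayOff.lean`) or directly: for `x` near `b`, `T x` is near `T b`, and
`‖tau ^ k (T b)‖ = 2 ^ (-k) ‖T b‖` is far from `‖T b‖` for `k ≠ 0`. So all `x ≠ b` near `b` satisfy `LD 1 T x`.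
`germ_of`: `orbit_isolated` and `germ_exists`.
`conj_rel`: PROOF. `ray_off` (`Rot4/RayOff.lean`) for `G` and `G'` gives `T, b` and `T₁, b'`. `move_pt` (`Om (T₁
b')`, `Om (T b)`: `Nn.om`) gives `Θ` with `Θ (T₁ b') = T b`; `T' = Θ * T₁`: `Nn n 0 T'` (`Nn.mul`), `T' G' =
tau T'`. `Off1 G T b` by `off1_of_near`, `Nn.id_near`; `Off1 G' T' b'`: `LD 1 Θ` off `0` and the same for
`T₁`. `germ_of` gives `η`, `η'`; `key`: `Eqv η G`, `Eqv η' G'`, so `Eqv η η'`. `modify`.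
-/

set_option autoImplicit false

open scoped ContDiff Topology Manifold
open Set Filter Metric

namespace Pool.Agent.Rot6

open Pool.Agent.HopfCov hiding pr
open Pool.Agent.HopfCov.Smooth
open Pool.Agent.HopfFin
open Pool.Agent.Rot4

private theorem zconj_ConjRel {G T : E4 ≃ₜ E4} (hTG : T * G = tau * T) (k : ℤ) :
    T * G ^ k = tau ^ k * T := by
  have h1 : T * G * T⁻¹ = tau := by rw [hTG]; group
  have h2 : T * G ^ k * T⁻¹ = tau ^ k := by rw [← h1, conj_zpow]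
  rw [← h2]
  group

theorem orbit_isolated {G T : E4 ≃ₜ E4} {b : E4} (hT0 : T 0 = 0) (hTG : T * G = tau * T)
    (hb : b ≠ 0) (hL : Off1 G T b) : ∀ᶠ x in 𝓝 b, x ≠ b → LD 1 T x := by
  have hTb : T b ≠ 0 := fun h => hb (T.injective (h.trans hT0.symm))
  have hY : 0 < ‖T b‖ := norm_pos_iff.2 hTb
  have hcont : ContinuousAt (fun x => ‖T x‖) b := (continuous_norm.comp T.continuous).continuousAt
  have h1 : ∀ᶠ x in 𝓝 b, ‖T b‖ / 2 < ‖T x‖ :=
    hcont.eventually (lt_mem_nhds (by linarith))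
  have h2 : ∀ᶠ x in 𝓝 b, ‖T x‖ < 2 * ‖T b‖ :=
    hcont.eventually (gt_mem_nhds (by linarith))
  have h3 : ∀ᶠ x in 𝓝 b, x ≠ 0 := isOpen_ne.mem_nhds hb
  filter_upwards [h1, h2, h3] with x h1 h2 h3 hxb
  refine hL x h3 fun k hk => hxb ?_
  have h4 : T x = (tau ^ k : E4 ≃ₜ E4) (T b) := by
    rw [hk, ← mul_apply', zconj_ConjRel hTG, mul_apply']
  have h5 : ‖T x‖ = (2 : ℝ) ^ (-k) * ‖T b‖ := by
    rw [h4, tau_zpow_apply, norm_smul, norm_zpow]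
    norm_num
  have h6 : k = 0 := by
    rw [h5] at h1 h2
    have h7 : (2 : ℝ) ^ (-k) < 2 := lt_of_mul_lt_mul_right h2 hY.le
    have h8 : (2 : ℝ)⁻¹ < 2 ^ (-k) := by
      refine lt_of_mul_lt_mul_right ?_ hY.le
      linarith
    have h9 : (2 : ℝ) ^ (-k) < 2 ^ (1 : ℤ) := by rwa [zpow_one]
    have h10 : (2 : ℝ) ^ (-1 : ℤ) < 2 ^ (-k) := by rwa [zpow_neg_one]
    have h11 := (zpow_lt_zpow_iff_right₀ one_lt_two).1 h9
    have h12 := (zpow_lt_zpow_iff_right₀ one_lt_two).1 h10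
    omega
  rw [hk, h6, zpow_zero]
  rfl

theorem germ_of {G T : E4 ≃ₜ E4} {b : E4} (hT0 : T 0 = 0) (hTG : T * G = tau * T)
    (hb : b ≠ 0) (hL : Off1 G T b) : ∃ η : E4 ≃ₜ E4, Germ T b η :=
  germ_exists (orbit_isolated hT0 hTG hb hL)

theorem conj_rel {n : ℕ} {G G' : E4 ≃ₜ E4} (hN : Nn n 1 G) (hn : G ^ n = tau ^ n) (hG : PD 1 G)
    (hc : Contr G) (hO : Off G) (hN' : Nn n 1 G') (hn' : G' ^ n = tau ^ n) (hG' : PD 1 G')
    (hc' : Contr G') (hO' : Off G') (hE : Eqv G G') :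
    ∃ k : E4 ≃ₜ E4, Nn n 0 k ∧ k * G = G' * k ∧ Sm k := by
  obtain ⟨T, b, hT, hTG, hb, hr⟩ := ray_off hN hn hG hc hO
  obtain ⟨T₁, b', hT₁, hTG₁, hb', hr'⟩ := ray_off hN' hn' hG' hc' hO'
  obtain ⟨Θ, hΘ, hΘt, hΘL, hΘb⟩ := move_pt n (hT₁.om.2 hb') (hT.om.2 hb)
  have hT' : Nn n 0 (Θ * T₁) := by
    have h1 := hΘ.mul hT₁
    simpa using h1
  have hTG' : (Θ * T₁) * G' = tau * (Θ * T₁) := by
    rw [mul_assoc, hTG₁, ← mul_assoc, hΘt, mul_assoc]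
  have hL : Off1 G T b := off1_of_near (Nn.id_near hT) hr
  have hL₁ : Off1 G' T₁ b' := off1_of_near (Nn.id_near hT₁) hr'
  have hL' : Off1 G' (Θ * T₁) b' := by
    intro x hx hk
    have h1 : T₁ x ≠ 0 := fun h => hx (T₁.injective (h.trans hT₁.zero.symm))
    exact LD.mul_one' (hΘL _ h1) (hL₁ x hx hk)
  obtain ⟨η, hη⟩ := germ_of hT.zero hTG hb.ne hL
  obtain ⟨η', hη'⟩ := germ_of hT'.zero hTG' hb'.ne hL'
  have h1 : Eqv η G := key hG hc hO hT.zero hTG hb.ne hL hη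
  have h2 : Eqv η' G' := key hG' hc' hO' hT'.zero hTG' hb'.ne hL' hη'
  have h3 : Eqv η η' := (h1.trans hE).trans h2.symm
  exact modify hG hG' hT hT' hTG hTG' hb hΘb.symm hL hL' hη hη' h3

end Pool.Agent.Rot6
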