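import Pool.Agent.Rot6.Defs

/-!
# From relative conjugations of the generators to conjugations of the actions

PROOF. `drop_conj` (`Rot4/Act.lean`; `hR1.pair.corr`, `hR2.pair.corr`) gives `h` with `AgreeOff h
  id`,
`Corr n k h`, `h (f1 x) = f2 (h x)`; `sm_iff` (`a = 0`) gives `InvertibleAt h x` for all `x`.
  `asc` (`a = 0`,
`Rot5/Trans.lean`) gives `ĥ : Sph4 ≃ₜ Sph4`, the identity near the 2-sphere, `ĥ (sg y) = sg (h
  y)`. It is a
local diffeomorphism everywhere (as in `linear_of`, `Rot5/RepS.lean`, private lemma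
  `RepS_smooth`: `ld_trans`
at the points `sg y`, and the identity near `infS`). `ĥ (g1 x) = g2 (ĥ x)`: for `x = sg y`, `ĥ
  (g1 (sg y)) =
ĥ (sg (f1 y)) = sg (h (f1 y)) = sg (f2 (h y)) = g2 (sg (h y))` (`hR1.down`, `hR2.down`); for `x =
  infS` both
sides are `infS` (`hg1`, `hg2`, `OnS2_inf`, the rotations fix `infS`). Every point is `infS` or
  `sg y`
(`sg_sgi`). `isDiffeo_of_homeo`.
-/

set_option autoImplicit false

open scoped ContDiff Topology Manifold
open Set Filter Metric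

namespace Pool.Agent.Rot6

open Pool.Agent.HopfCov hiding pr
open Pool.Agent.HopfCov.Smooth
open Pool.Agent.HopfFin
open Pool.Agent.Rot4
open Pool.Agent.Rot5

private theorem RelEquiv_smooth {g : Sph4 ≃ₜ Sph4} {f : E4 ≃ₜ E4} (hd : ∀ y, g (sg y) = sg (f y))
    (hf : ∀ y, Reg f y) (hi : LocalDiffeoAt g infS) (x : Sph4) : LocalDiffeoAt g x := by
  by_cases hx : x = infS
  · rw [hx]
    exact hi
  · rw [← sg_sgi hx]
    exact (ld_trans hd).2 (hf _)

private theorem RelEquiv_fix {n : ℕ} {g : Sph4 ≃ₜ Sph4}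
    (hg : NearS2 fun x => g x = rotS n x) : g infS = infS := by
  have h1 : g infS = rotS n infS := hg.self OnS2_inf
  rw [h1]
  exact rotA_fix OnS2_inf

theorem equiv_of_rel {n : ℕ} (hn : 0 < n) {g1 g2 : Sph4 ≃ₜ Sph4}
    {f1 G1 H1 G1' f2 G2 H2 G2' k : E4 ≃ₜ E4} (hR1 : Rep n g1 f1 G1 H1 G1')
    (hR2 : Rep n g2 f2 G2 H2 G2') (hg1 : NearS2 fun x => g1 x = rotS n x)
    (hg2 : NearS2 fun x => g2 x = rotS n x) (hk : Nn n 0 k) (hkc : k * G1 = G2 * k) (hs : Sm k) :
    SphereEquivalent g1 g2 := by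
  obtain ⟨h, h1, h2, h3⟩ := drop_conj hn hR1.pair.corr hR2.pair.corr hk hkc
  have hsm : ∀ x, InvertibleAt h x := (sm_iff (a := 0) hn hk h2 h1).1 hs
  obtain ⟨φ, hφ1, hφ2⟩ := asc (n := n) (a := 0) (f := h) h1
  have hi : LocalDiffeoAt φ infS := by
    refine ld_congr (ld_one infS) ?_
    filter_upwards [hφ1 infS OnS2_inf] with y hy
    exact hy.symm
  have hφi : φ infS = infS := hφ1.self OnS2_inf
  refine ⟨φ, isDiffeo_of_homeo fun x => ?_, fun x => ?_⟩
  · exact RelEquiv_smooth hφ2 (fun y => Eventually.of_forall fun z => hsm z) hi x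
  · by_cases hx : x = infS
    · rw [hx, RelEquiv_fix hg1, hφi, RelEquiv_fix hg2]
    · rw [← sg_sgi hx, hR1.down, hφ2, h3, hφ2, hR2.down]

end Pool.Agent.Rot6
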