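import Pool.Agent.Rot6.RepRef
import Pool.Agent.Rot6.RelEquiv
import Pool.Agent.Rot6.ConjRel

/-!
# Actions whose classes agree up to mirror images are conjugate

`equiv_trans`: composition of diffeomorphisms (`homeo_of_isDiffeo`, `ld_mul`, `isDiffeo_of_homeo`).
`conj_of_eqv`: PROOF. `conj_rel` (`hR.pair.nnG`, `.pow`, `Good.PD`, `Good.contr`) and `equiv_of_rel`.
`conj_of_mir`: PROOF. `Mir.eqv_or` with `r = rH`. If `Eqv G1 G2`: `conj_of_eqv`. If `Eqv (rH G1 rH⁻¹) G2`: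
`rep_ref` for `g1` gives `g₃`, `SphereEquivalent g1 g₃`, with generator `rH G1 rH⁻¹` (`Off`: `Off.congr`
with `Φ = rH`), `conj_of_eqv` for `g₃`, `g2`, `equiv_trans`.
-/

set_option autoImplicit false

open scoped ContDiff Topology Manifold
open Set Filter Metric

namespace Pool.Agent.Rot6

open Pool.Agent.HopfCov hiding pr
open Pool.Agent.HopfCov.Smooth
open Pool.Agent.HopfFin
open Pool.Agent.Rot4
open Pool.Agent.Rot5

theorem equiv_trans {g g' g'' : Sph4 → Sph4} (h : SphereEquivalent g g')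
    (h' : SphereEquivalent g' g'') : SphereEquivalent g g'' := by
  obtain ⟨φ, h1, h2⟩ := h
  obtain ⟨ψ, h3, h4⟩ := h'
  obtain ⟨f, hf, hf'⟩ := homeo_of_isDiffeo h1
  obtain ⟨k, hk, hk'⟩ := homeo_of_isDiffeo h3
  refine ⟨(k * f : Sph4 ≃ₜ Sph4), isDiffeo_of_homeo fun x => ld_mul (hk' _) (hf' x), fun x => ?_⟩
  show k (f (g x)) = g'' (k (f x))
  rw [hf (g x), h2 x, hk (g' (φ x)), h4 (φ x), hf x, hk (φ x)]

private theorem complete_e0_ne : (e0 : E4) ≠ 0 := fun h => by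
  have h1 : ‖(e0 : E4)‖ = 1 := by
    rw [e0, EuclideanSpace.norm_single, norm_one]
  rw [h, norm_zero] at h1
  exact zero_ne_one h1

private theorem complete_PD {n : ℕ} {f G H : E4 ≃ₜ E4} (h : Pair n f G H) : PD 1 G :=
  Good.PD h.sm h.good complete_e0_ne

theorem conj_of_eqv {n : ℕ} (hn : 0 < n) {g1 h1 g2 h2 : Sph4 ≃ₜ Sph4}
    (hg1 : NormAct n g1 h1) (hg2 : NormAct n g2 h2)
    {f1 G1 H1 G1' f2 G2 H2 G2' : E4 ≃ₜ E4} (hR1 : Rep n g1 f1 G1 H1 G1')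
    (hR2 : Rep n g2 f2 G2 H2 G2') (hO1 : Off G1) (hO2 : Off G2) (hE : Eqv G1 G2) :
    SphereEquivalent g1 g2 := by
  obtain ⟨k, hk, hkc, hs⟩ := conj_rel hR1.pair.nnG hR1.pair.pow (complete_PD hR1.pair)
    hR1.pair.good.contr hO1 hR2.pair.nnG hR2.pair.pow (complete_PD hR2.pair)
    hR2.pair.good.contr hO2 hE
  exact equiv_of_rel hn hR1 hR2 hg1.near hg2.near hk hkc hs

theorem conj_of_mir {n : ℕ} (hn : 0 < n) {g1 h1 g2 h2 : Sph4 ≃ₜ Sph4}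
    (hg1 : NormAct n g1 h1) (hg2 : NormAct n g2 h2)
    {f1 G1 H1 G1' f2 G2 H2 G2' : E4 ≃ₜ E4} (hR1 : Rep n g1 f1 G1 H1 G1')
    (hR2 : Rep n g2 f2 G2 H2 G2') (hO1 : Off G1) (hO2 : Off G2) (hE : Mir G1 G2) :
    SphereEquivalent g1 g2 := by
  rcases Mir.eqv_or (complete_PD hR1.pair) PD_rH hE with h | h
  · exact conj_of_eqv hn hg1 hg2 hR1 hR2 hO1 hO2 h
  · obtain ⟨g₃, h₃, f₃, H₃, G₃', hN3, hR3, hS⟩ := rep_ref hn hg1 hR1
    have hcj : Cj G1 (rH * G1 * rH⁻¹) := ⟨rH, Sm_of_PD PD_rH, by group⟩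
    have hO3 : Off (rH * G1 * rH⁻¹) := (Off.congr hcj).1 hO1
    exact equiv_trans hS (conj_of_eqv hn hN3 hg2 hR3 hR2 hO3 hO2 h)

end Pool.Agent.Rot6
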