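import Pool.Agent.Rot6.Defs

/-!
# Cutting off a homeomorphism along the unit sphere; the swindle

`cut`: PROOF. `v x = u x` for `‖x‖ ≤ 1` and `v x = x` otherwise. This is the mirror image of the
construction of `v` in `ext_of_sch` (`HopfFin/Schoen.lean`); there the private lemma `sch_ext` shows that
a homeomorphism which is the identity near the unit sphere maps `{1 ≤ ‖x‖}` into itself; apply it to `u`
and `u⁻¹` to see that `u` maps `{1 ≤ ‖x‖}` onto itself, hence `{‖x‖ < 1}` onto itself. For `1 - δ < ‖x‖ ≤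
1`, `v x = u x = x`; for `1 < ‖x‖ < 1 + δ`, `v x = x = u x`.
`mazur`: PROOF. This is the first half of the proof of `sch_of_ext` (`HopfFin/Schoen.lean`; the
homeomorphism `G₂` there, from `outer_ball` and `inner_fix`): it gives `G₂ 0 = 0`, `RG G₂ x` for `x ≠ 0`
and `G₂ x = T x` for `| ‖x‖ - 1 | < e / 8`. By `sign_const` it has a constant sign off the origin, which is
`1` because it agrees near a point of norm `1` with `T`.
-/

set_option autoImplicit false

open scoped ContDiff Topology Manifold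
open Set Filter Metric

namespace Pool.Agent.Rot6

open Pool.Agent.HopfCov hiding pr
open Pool.Agent.HopfCov.Smooth
open Pool.Agent.HopfFin
open Pool.Agent.Rot4

/-- a homeomorphism which is the identity near the unit sphere preserves its exterior -/
private theorem ext_Cut {u : E4 ≃ₜ E4} {δ : ℝ} (hδ : 0 < δ) (hu : ∀ x, |‖x‖ - 1| < δ → u x = x)
    {x : E4} (hx : 1 ≤ ‖x‖) : 1 ≤ ‖u x‖ := by
  have h1 : 1 < Module.rank ℝ E4 := by
    rw [← Module.finrank_eq_rank]
    exact_mod_cast hdim4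
  have hpre := (preconnected_outside1 (E := E4) h1).image u u.continuous.continuousOn
  by_contra hcon
  rw [not_le] at hcon
  have hne : ∀ y : E4, 1 ≤ ‖y‖ → ‖u y‖ = 1 → ‖y‖ = 1 := by
    intro y _ hy
    have h2 : u (u y) = u y := hu _ (by rw [hy, sub_self, abs_zero]; exact hδ)
    have h3 := u.injective h2
    rw [h3] at hy
    exact hy
  have hx1 : ‖x‖ ≠ 1 := by
    intro h
    rw [hu x (by rw [h, sub_self, abs_zero]; exact hδ), h] at hcon
    exact lt_irrefl _ hcon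
  have hx2 : 1 < ‖x‖ := lt_of_le_of_ne hx (Ne.symm hx1)
  -- the scaled exterior
  obtain ⟨v, hv⟩ : ∃ v : E4, ‖v‖ = 1 := ⟨e0, norm_e0⟩
  obtain ⟨c, hc1, hc2, hc3⟩ : ∃ c : ℝ, 1 < c ∧ c ≤ ‖x‖ ∧ c < 1 + δ := by
    refine ⟨min ‖x‖ (1 + δ / 2), lt_min hx2 (by linarith), min_le_left _ _, ?_⟩
    exact (min_le_right _ _).trans_lt (by linarith)
  have hpre2 : IsPreconnected ((fun y : E4 => c • y) '' {y : E4 | 1 ≤ ‖y‖}) :=
    (preconnected_outside1 (E := E4) h1).image _ (by fun_prop)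
  have hpre3 := hpre2.image (fun y => ‖u y‖) u.continuous.norm.continuousOn
  have hm1 : ‖u x‖ ∈ (fun y => ‖u y‖) '' ((fun y : E4 => c • y) '' {y : E4 | 1 ≤ ‖y‖}) := by
    refine ⟨x, ⟨c⁻¹ • x, ?_, ?_⟩, rfl⟩
    · show 1 ≤ ‖c⁻¹ • x‖
      rw [norm_smul, norm_inv, Real.norm_of_nonneg (by linarith), inv_mul_eq_div,
        le_div_iff₀ (by linarith), one_mul]
      exact hc2
    · show c • c⁻¹ • x = x
      rw [smul_smul, mul_inv_cancel₀ (by linarith), one_smul]
  have hm2 : c ∈ (fun y => ‖u y‖) '' ((fun y : E4 => c • y) '' {y : E4 | 1 ≤ ‖y‖}) := by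
    refine ⟨c • v, ⟨v, hv.ge, rfl⟩, ?_⟩
    have h2 : ‖c • v‖ = c := by rw [norm_smul, hv, mul_one, Real.norm_of_nonneg (by linarith)]
    show ‖u (c • v)‖ = c
    rw [hu (c • v) (by rw [h2, abs_lt]; constructor <;> linarith), h2]
  have hm3 := hpre3.Icc_subset hm1 hm2 ⟨hcon.le, hc1.le⟩
  obtain ⟨y, ⟨z, hz, rfl⟩, hy⟩ := hm3
  have hz1 : c ≤ ‖c • z‖ := by
    rw [norm_smul, Real.norm_of_nonneg (by linarith)]
    have hz' : 1 ≤ ‖z‖ := hz
    nlinarith
  have h2 := hne (c • z) (by linarith) hy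
  linarith

/-- a homeomorphism which is the identity near the unit sphere preserves the closed unit ball -/
private theorem int_Cut {u : E4 ≃ₜ E4} {δ : ℝ} (hδ : 0 < δ) (hu : ∀ x, |‖x‖ - 1| < δ → u x = x)
    {x : E4} (hx : ‖x‖ ≤ 1) : ‖u x‖ ≤ 1 := by
  have hu' : ∀ x, |‖x‖ - 1| < δ → (u⁻¹ : E4 ≃ₜ E4) x = x := fun x hx => by
    apply u.injective
    rw [apply_inv_self', hu x hx]
  by_contra hcon
  rw [not_le] at hcon
  have h1 := ext_Cut hδ hu' (x := u x) hcon.le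
  rw [inv_apply_self'] at h1
  have h2 : ‖x‖ = 1 := le_antisymm hx h1
  rw [hu x (by rw [h2, sub_self, abs_zero]; exact hδ), h2] at hcon
  exact lt_irrefl _ hcon

theorem cut {u : E4 ≃ₜ E4} {δ : ℝ} (hδ : 0 < δ) (hu : ∀ x, |‖x‖ - 1| < δ → u x = x) :
    ∃ v : E4 ≃ₜ E4, (∀ x, ‖x‖ < 1 + δ → v x = u x) ∧ ∀ x, 1 - δ < ‖x‖ → v x = x := by
  have hux' : ∀ x, |‖x‖ - 1| < δ → (u⁻¹ : E4 ≃ₜ E4) x = x := fun x hx => by
    apply u.injective
    rw [apply_inv_self', hu x hx]
  have hcont : ∀ w : E4 ≃ₜ E4, (∀ x, |‖x‖ - 1| < δ → w x = x) →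
      Continuous fun x => if ‖x‖ ≤ 1 then w x else x := by
    intro w hw
    refine Continuous.if_le w.continuous continuous_id continuous_norm continuous_const ?_
    intro x hx
    rw [hw x (by rw [hx, sub_self, abs_zero]; exact hδ)]
  have hinv : ∀ w w' : E4 ≃ₜ E4, (∀ x, |‖x‖ - 1| < δ → w x = x) → (∀ x, w' (w x) = x) → ∀ x,
      (if ‖(if ‖x‖ ≤ 1 then w x else x)‖ ≤ 1 then w' (if ‖x‖ ≤ 1 then w x else x)
        else (if ‖x‖ ≤ 1 then w x else x)) = x := by
    intro w w' hw hww x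
    by_cases hx : ‖x‖ ≤ 1
    · have h3 := int_Cut hδ hw hx
      simp only [if_pos hx, if_pos h3]
      exact hww x
    · simp only [if_neg hx]
  obtain ⟨v, hv⟩ : ∃ v : E4 ≃ₜ E4, ∀ x, v x = if ‖x‖ ≤ 1 then u x else x :=
    ⟨{ toFun := fun x => if ‖x‖ ≤ 1 then u x else x
       invFun := fun x => if ‖x‖ ≤ 1 then (u⁻¹ : E4 ≃ₜ E4) x else x
       left_inv := hinv u u⁻¹ hu (inv_apply_self' u)
       right_inv := hinv u⁻¹ u hux' (apply_inv_self' u)
       continuous_toFun := hcont u hu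
       continuous_invFun := hcont u⁻¹ hux' }, fun _ => rfl⟩
  refine ⟨v, fun x hx => ?_, fun x hx => ?_⟩
  · rw [hv]
    by_cases h3 : ‖x‖ ≤ 1
    · rw [if_pos h3]
    · rw [if_neg h3, hu x (by rw [abs_lt]; constructor <;> linarith)]
  · rw [hv]
    by_cases h3 : ‖x‖ ≤ 1
    · rw [if_pos h3, hu x (by rw [abs_lt]; constructor <;> linarith)]
    · rw [if_neg h3]

theorem mazur {T : E4 ≃ₜ E4} (h0 : T 0 = 0) {δ : ℝ} (hδ : 0 < δ)
    (h : ∀ x, |‖x‖ - 1| < δ → LD 1 T x) :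
    ∃ (θ : E4 ≃ₜ E4) (ε : ℝ), PD 1 θ ∧ 0 < ε ∧ ∀ x, |‖x‖ - 1| < ε → θ x = T x := by
  obtain ⟨e, he, heδ, he2⟩ : ∃ e : ℝ, 0 < e ∧ e ≤ δ ∧ e ≤ 1 / 2 :=
    ⟨min δ (1 / 2), lt_min hδ (by norm_num), min_le_left _ _, min_le_right _ _⟩
  obtain ⟨G₁, g1, g2⟩ := outer_ball (E := E4) hdim4 (F := T) (K := closedBall 0 (1 - e / 2))
    (isCompact_closedBall 0 _) (c := 1 + e / 2) (b := 1 + e) (by linarith) (by linarith)
    (closedBall_subset_closedBall (by linarith)) (by
      intro x hx hxK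
      rw [mem_ball_zero_iff] at hx
      rw [mem_closedBall_zero_iff, not_le] at hxK
      exact (h x (by rw [abs_lt]; constructor <;> linarith)).rg)
  have hG10 : G₁ 0 = 0 := by rw [g1 0 (mem_closedBall_self (by linarith)), h0]
  obtain ⟨G₂, k0, k1, k2⟩ := inner_fix (E := E4) hdim4 hG10 (a := 1 - e / 4) (b := 1 - e / 8)
    (by linarith) (by linarith) (by
      intro x hx
      exact g2 x (by rw [mem_closedBall_zero_iff, not_le]; linarith))
  have hG2 : ∀ x, |‖x‖ - 1| < e / 8 → G₂ x = T x := by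
    intro x hx
    rw [abs_lt] at hx
    rw [k2 x (by linarith), g1 x (by rw [mem_closedBall_zero_iff]; linarith)]
  obtain ⟨s, hs, hs'⟩ := sign_const (f := G₂) (isOpen_compl_singleton (x := (0 : E4)))
    (preconnected_compl_singleton hdim4 (0 : E4)) k1
  refine ⟨G₂, e / 8, ?_, by linarith, hG2⟩
  rcases hs with rfl | rfl
  · exact ⟨k0, hs'⟩
  · exfalso
    obtain ⟨y, hy⟩ : ∃ y : E4, ‖y‖ = 1 := ⟨e0, norm_e0⟩
    have hy0 : y ≠ 0 := by
      rintro rfl
      rw [norm_zero] at hy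
      norm_num at hy
    have h3 : LD 1 G₂ y := by
      refine (h y (by rw [hy, sub_self, abs_zero]; exact hδ)).congr ?_
      have h4 : ∀ᶠ z in 𝓝 y, |‖z‖ - 1| < e / 8 := by
        have h5 : Continuous fun z : E4 => |‖z‖ - 1| := by fun_prop
        refine h5.continuousAt.eventually_lt_const ?_
        show |‖y‖ - 1| < e / 8
        rw [hy, sub_self, abs_zero]
        linarith
      filter_upwards [h4] with z hz
      rw [hG2 z hz]
    have h4 := (hs' y hy0).2
    have h5 := h3.2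
    linarith

end Pool.Agent.Rot6
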