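import Pool.Agent.Rot5.Main
import Pool.Agent.HopfFin.Schoen

/-!
# Classes of germs (library `Rot6`, owner helper64)

`D` is the group of the orientation preserving homeomorphisms of `ℝ⁴` which fix the origin and are
diffeomorphisms off the origin (`PD 1`), `Ext` are those which agree near infinity with a
diffeomorphism; they form `[D, D]`. `Eqv a b`: the classes of `a` and `b` in the abelian group
`D / [D, D]` agree. `Mir a b`: they agree up to conjugation by a diffeomorphism of `ℝ⁴ ∖ 0` (mirror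
images). `Germ T b η`: near the origin `η` is the homeomorphism `T`, centred at `b` and `T b`.
-/

set_option autoImplicit false

open scoped ContDiff Topology Manifold
open Set Filter Metric

namespace Pool.Agent.Rot6

open Pool.Agent.HopfCov hiding pr
open Pool.Agent.HopfCov.Smooth
open Pool.Agent.HopfFin
open Pool.Agent.Rot4
open Pool.Agent.Rot5

/-- near the origin `η` is `T`, centred at `b` and `T b` -/
def Germ (T : E4 ≃ₜ E4) (b : E4) (η : E4 ≃ₜ E4) : Prop :=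
  PD 1 η ∧ ∀ᶠ x in 𝓝 (0 : E4), η x = T (b + x) - T b

/-- the classes of `a` and `b` agree -/
def Eqv (a b : E4 ≃ₜ E4) : Prop := Ext (b * a⁻¹)

/-- the classes of `a` and `b` agree up to mirror images -/
def Mir (a b : E4 ≃ₜ E4) : Prop :=
  ∃ (s : ℝ) (k : E4 ≃ₜ E4), s * s = 1 ∧ PD s k ∧ Ext (b * (k * a * k⁻¹)⁻¹)

/-- `T` is a diffeomorphism off the origin and the orbit of `b` under `G` -/
def Off1 (G T : E4 ≃ₜ E4) (b : E4) : Prop :=
  ∀ x, x ≠ 0 → (∀ k : ℤ, x ≠ (G ^ k : E4 ≃ₜ E4) b) → LD 1 T x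

theorem Eqv.refl (a : E4 ≃ₜ E4) : Eqv a a := by
  unfold Eqv
  rw [mul_inv_cancel]
  exact Ext_one

theorem Eqv.symm {a b : E4 ≃ₜ E4} (h : Eqv a b) : Eqv b a := by
  have h1 := Ext.inv h
  rwa [mul_inv_rev, inv_inv] at h1

theorem Eqv.trans {a b c : E4 ≃ₜ E4} (h : Eqv a b) (h' : Eqv b c) : Eqv a c := by
  have h1 := Ext.mul h' h
  have e : c * b⁻¹ * (b * a⁻¹) = c * a⁻¹ := by group
  rwa [e] at h1

theorem Eqv.of_conj {a k : E4 ≃ₜ E4} (ha : PD 1 a) (hk : PD 1 k) : Eqv a (k * a * k⁻¹) := by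
  have h1 := Ext_comm_conj ha hk
  exact h1

theorem Eqv.conj {s : ℝ} (hs : s * s = 1) {a b k : E4 ≃ₜ E4} (h : Eqv a b) (hk : PD s k) :
    Eqv (k * a * k⁻¹) (k * b * k⁻¹) := by
  have h1 := Ext.conj hGerm hSwap hdim4 hs h hk
  have e : k * (b * a⁻¹) * k⁻¹ = k * b * k⁻¹ * (k * a * k⁻¹)⁻¹ := by group
  rw [e] at h1
  exact h1

/-- the class of a product -/
theorem Eqv.mul {a b c d : E4 ≃ₜ E4} (hb : PD 1 b) (h : Eqv a b) (h' : Eqv c d) :
    Eqv (a * c) (b * d) := by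
  have h1 := Ext.conj hGerm hSwap hdim4 (one_mul 1) h' hb
  have h2 := Ext.mul h1 h
  have e : b * (d * c⁻¹) * b⁻¹ * (b * a⁻¹) = b * d * (a * c)⁻¹ := by group
  rwa [e] at h2

theorem Mir.of_eqv {a b : E4 ≃ₜ E4} (h : Eqv a b) : Mir a b := by
  refine ⟨1, 1, one_mul 1, PD_one, ?_⟩
  have e : b * (1 * a * 1⁻¹)⁻¹ = b * a⁻¹ := by group
  rw [e]
  exact h

theorem Mir.of_conj {s : ℝ} (hs : s * s = 1) {a k : E4 ≃ₜ E4} (hk : PD s k) :
    Mir a (k * a * k⁻¹) := by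
  refine ⟨s, k, hs, hk, ?_⟩
  rw [mul_inv_cancel]
  exact Ext_one

theorem Mir.symm {a b : E4 ≃ₜ E4} (h : Mir a b) : Mir b a := by
  obtain ⟨s, k, hs, hk, hE⟩ := h
  refine ⟨s, k⁻¹, hs, hk.inv, ?_⟩
  have h1 := Ext.conj hGerm hSwap hdim4 hs (Ext.inv hE) hk.inv
  have e : k⁻¹ * (b * (k * a * k⁻¹)⁻¹)⁻¹ * k⁻¹⁻¹ = a * (k⁻¹ * b * k⁻¹⁻¹)⁻¹ := by group
  rwa [e] at h1

theorem Mir.trans {a b c : E4 ≃ₜ E4} (h : Mir a b) (h' : Mir b c) : Mir a c := by
  obtain ⟨s, k, hs, hk, hE⟩ := h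
  obtain ⟨t, l, ht, hl, hE'⟩ := h'
  refine ⟨t * s, l * k, ?_, hl.mul hk, ?_⟩
  · calc t * s * (t * s) = (t * t) * (s * s) := by ring
      _ = 1 := by rw [ht, hs, one_mul]
  have h1 := Ext.conj hGerm hSwap hdim4 ht hE hl
  have h2 := Ext.mul hE' h1
  have e : c * (l * b * l⁻¹)⁻¹ * (l * (b * (k * a * k⁻¹)⁻¹) * l⁻¹) =
      c * (l * k * a * (l * k)⁻¹)⁻¹ := by group
  rwa [e] at h2

theorem Mir.refl (a : E4 ≃ₜ E4) : Mir a a := Mir.of_eqv (Eqv.refl a)

/-- the classes agree up to mirror images if and only if they agree or one is the mirror image of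
the other -/
theorem Mir.eqv_or {a b r : E4 ≃ₜ E4} (ha : PD 1 a) (hr : PD (-1) r) (h : Mir a b) :
    Eqv a b ∨ Eqv (r * a * r⁻¹) b := by
  obtain ⟨s, k, hs, hk, hE⟩ := h
  have hs' : s = 1 ∨ s = -1 := by
    have h1 : (s - 1) * (s + 1) = 0 := by linear_combination hs
    rcases mul_eq_zero.1 h1 with h2 | h2
    · left; linarith
    · right; linarith
  rcases hs' with rfl | rfl
  · exact Or.inl ((Eqv.of_conj ha hk).trans hE)
  · right
    have h1 : PD 1 (k * r⁻¹) := hk.mul_neg hr.inv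
    have h2 : PD 1 (r * a * r⁻¹) := PD_conj (by norm_num) hr ha
    refine (Eqv.of_conj h2 h1).trans ?_
    have e : k * r⁻¹ * (r * a * r⁻¹) * (k * r⁻¹)⁻¹ = k * a * k⁻¹ := by group
    rw [e]
    exact hE

end Pool.Agent.Rot6
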