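import Pool.Agent.Rot6.Defs

/-!
# The class of a germ does not depend on the local coordinates

PROOF of `germ_conj`. Let `x₀`, `b = Λ x₀`, `c = T b`, `Λ₀ x = Λ (x₀ + x) - b`, `D₀ y = D (c + y) - D c`.
For small `x`: `η₂ x = T₂ (x₀ + x) - T₂ x₀ = D₀ (η (Λ₀ x))` (`T₂ x₀ = D c`; `η (Λ₀ x) = T (Λ (x₀ + x)) - c`
because `Λ₀` is continuous at `0` and `Λ₀ 0 = 0`). `LD s Λ₀` near `0` and `LD s D₀` near `0`. The maps
`A₀ = D₀ ∘ k⁻¹` and `B₀ = k ∘ Λ₀` are only known to be smooth off `0` if `k` is not linear, so first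
reduce to a linear `k`: let `r` be `1` if `s = 1` and `linH refl0` (`PD_refl`) if `s = -1` (`s * s = 1`
gives `s = 1 ∨ s = -1`); `LD s r x` for all `x`; `k * r⁻¹` is `PD 1`, and `k η k⁻¹ = (k r⁻¹) (r η r⁻¹) (k
r⁻¹)⁻¹` has the same class as `r η r⁻¹` (`Eqv.of_conj`). With `k = r`: `A₀`, `B₀` are `LD 1` near `0` and
fix `0`, so `hGerm` (with `O = univ`) gives homeomorphisms `A`, `B` with `LD 1` everywhere which agree
with them near `0`; `A 0 = 0`, `B 0 = 0`, so `PD 1 A`, `PD 1 B`, `Ext A`, `Ext B` (take `Θ = A`). Near `0`,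
`η₂ = A (r η r⁻¹) B`, so `u = (A * (r η r⁻¹) * B)⁻¹ * η₂` is the identity near `0`, hence `LD 1 u x` for
all `x` (at `0` by `LD.congr` from `LD_id`, else `PD.mul_one'`), `Ext u`. So `η₂ = A (r η r⁻¹) B u` and
`Eqv (r η r⁻¹) η₂`: the classes of `A`, `B`, `u` are trivial (`Eqv.mul`, or the class group `AA`, `cls`,
`cls_mul`, `cls_eq_one` of `HopfCov/ClassGroup.lean`).
`germ_unique`: `germ_conj` with `Λ = D = id`, `k = 1`.
-/

set_option autoImplicit false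

open scoped ContDiff Topology Manifold
open Set Filter Metric

namespace Pool.Agent.Rot6

open Pool.Agent.HopfCov hiding pr
open Pool.Agent.HopfCov.Smooth
open Pool.Agent.HopfFin
open Pool.Agent.Rot4

private theorem gcLD_add (a x : E4) : LD 1 (fun y : E4 => a + y) x := by
  refine ⟨contDiffAt_const.add contDiffAt_id, ?_⟩
  have h1 : fderiv ℝ (fun y : E4 => a + y) x = ContinuousLinearMap.id ℝ E4 := by
    rw [fderiv_const_add]
    exact fderiv_fun_id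
  rw [h1]
  simp [ContinuousLinearMap.det]

private theorem gcLD_shift {s : ℝ} {f : E4 → E4} (a c : E4) {x : E4} (h : LD s f (a + x)) :
    LD s (fun y => f (a + y) - c) x := by
  have h1 : LD (s * 1) (f ∘ fun y : E4 => a + y) x := LD.comp h (gcLD_add a x)
  have h2 := LD.comp (gcLD_add (-c) ((f ∘ fun y : E4 => a + y) x)) h1
  rw [mul_one, one_mul] at h2
  refine h2.congr (Eventually.of_forall fun y => ?_)
  show -c + f (a + y) = f (a + y) - c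
  abel

private theorem gc_ref {s : ℝ} (hs : s * s = 1) :
    ∃ r : E4 ≃ₜ E4, r 0 = 0 ∧ ∀ x, LD s r x := by
  have hs' : s = 1 ∨ s = -1 := by
    have h1 : (s - 1) * (s + 1) = 0 := by linear_combination hs
    rcases mul_eq_zero.1 h1 with h2 | h2
    · left; linarith
    · right; linarith
  rcases hs' with rfl | rfl
  · exact ⟨1, rfl, LD_one⟩
  · refine ⟨linH refl0, refl0.map_zero, fun x => ?_⟩
    have h1 : (linH refl0 : E4 → E4) =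
        (refl0.toContinuousLinearEquiv : E4 →L[ℝ] E4) := rfl
    rw [h1]
    refine ⟨ContinuousLinearMap.contDiff _ |>.contDiffAt, ?_⟩
    rw [ContinuousLinearMap.fderiv]
    exact det_refl0_pos

theorem germ_conj {s : ℝ} (hs : s * s = 1) {T T₂ η η₂ k : E4 ≃ₜ E4} {x₀ : E4} {Λ D : E4 → E4}
    (h : Germ T (Λ x₀) η) (h₂ : Germ T₂ x₀ η₂) (hΛ : ∀ᶠ x in 𝓝 x₀, LD s Λ x)
    (hD : ∀ᶠ y in 𝓝 (T (Λ x₀)), LD s D y) (hT : ∀ᶠ x in 𝓝 x₀, T₂ x = D (T (Λ x)))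
    (hk : PD s k) : Eqv (k * η * k⁻¹) η₂ := by
  obtain ⟨hη, h⟩ := h
  obtain ⟨hη₂, h₂⟩ := h₂
  obtain ⟨r, hr0, hr⟩ := gc_ref hs
  have hrP : PD s r := ⟨hr0, fun x _ => hr x⟩
  have hri0 : (r⁻¹ : E4 ≃ₜ E4) 0 = 0 := hrP.inv_zero
  have hri : ∀ x, LD s (r⁻¹ : E4 ≃ₜ E4) x := fun x => LD.inv' (hr _)
  -- the local coordinates, centred
  obtain ⟨Λ₀, hΛ₀⟩ : ∃ f : E4 → E4, f = fun x => Λ (x₀ + x) - Λ x₀ := ⟨_, rfl⟩
  obtain ⟨D₀, hD₀⟩ : ∃ f : E4 → E4, f = fun y => D (T (Λ x₀) + y) - D (T (Λ x₀)) := ⟨_, rfl⟩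
  have t1 : Tendsto (fun x : E4 => x₀ + x) (𝓝 0) (𝓝 x₀) := by
    have h1 : ContinuousAt (fun x : E4 => x₀ + x) 0 := by fun_prop
    have h2 := h1.tendsto
    rwa [add_zero] at h2
  have t2 : Tendsto (fun y : E4 => T (Λ x₀) + y) (𝓝 0) (𝓝 (T (Λ x₀))) := by
    have h1 : ContinuousAt (fun y : E4 => T (Λ x₀) + y) 0 := by fun_prop
    have h2 := h1.tendsto
    rwa [add_zero] at h2
  have hΛL : ∀ᶠ x in 𝓝 (0 : E4), LD s Λ₀ x := by
    filter_upwards [t1.eventually hΛ] with x hx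
    rw [hΛ₀]
    exact gcLD_shift x₀ (Λ x₀) hx
  have hDL : ∀ᶠ x in 𝓝 (0 : E4), LD s D₀ x := by
    filter_upwards [t2.eventually hD] with x hx
    rw [hD₀]
    exact gcLD_shift (T (Λ x₀)) (D (T (Λ x₀))) hx
  have hΛ00 : Λ₀ 0 = 0 := by
    rw [hΛ₀]
    show Λ (x₀ + 0) - Λ x₀ = 0
    rw [add_zero, sub_self]
  have hD00 : D₀ 0 = 0 := by
    rw [hD₀]
    show D (T (Λ x₀) + 0) - D (T (Λ x₀)) = 0
    rw [add_zero, sub_self]
  have tΛ : Tendsto Λ₀ (𝓝 0) (𝓝 0) := by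
    have h1 := hΛL.self_of_nhds.continuousAt.tendsto
    rwa [hΛ00] at h1
  have e0 : T₂ x₀ = D (T (Λ x₀)) := hT.self_of_nhds
  have e1 : ∀ᶠ x in 𝓝 (0 : E4), η₂ x = D₀ (η (Λ₀ x)) := by
    filter_upwards [h₂, t1.eventually hT, tΛ.eventually h] with x hx1 hx2 hx3
    rw [hx1, hx3, hx2, e0, hD₀, hΛ₀]
    show D (T (Λ (x₀ + x))) - D (T (Λ x₀)) =
      D (T (Λ x₀) + (T (Λ x₀ + (Λ (x₀ + x) - Λ x₀)) - T (Λ x₀))) - D (T (Λ x₀))
    rw [add_sub_cancel, add_sub_cancel]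
  -- the homeomorphisms
  have hA₀ : ∀ᶠ x in 𝓝 (0 : E4), LD 1 (D₀ ∘ (r⁻¹ : E4 ≃ₜ E4)) x := by
    have h1 : Tendsto (r⁻¹ : E4 ≃ₜ E4) (𝓝 0) (𝓝 0) := by
      have h2 := (r⁻¹ : E4 ≃ₜ E4).continuous.tendsto 0
      rwa [hri0] at h2
    filter_upwards [h1.eventually hDL] with x hx
    have h3 := LD.comp hx (hri x)
    rwa [hs] at h3
  have hB₀ : ∀ᶠ x in 𝓝 (0 : E4), LD 1 (r ∘ Λ₀) x := by
    filter_upwards [hΛL] with x hx
    have h3 := LD.comp (hr (Λ₀ x)) hx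
    rwa [hs] at h3
  obtain ⟨A, hA, hA1, -⟩ := hGerm E4 (D₀ ∘ (r⁻¹ : E4 ≃ₜ E4)) 0 hA₀
    (by show D₀ ((r⁻¹ : E4 ≃ₜ E4) 0) = 0; rw [hri0, hD00]) univ univ_mem
  obtain ⟨B, hB, hB1, -⟩ := hGerm E4 (r ∘ Λ₀) 0 hB₀
    (by show r (Λ₀ 0) = 0; rw [hΛ00, hr0]) univ univ_mem
  have hA0 : A 0 = 0 := by
    rw [hA1.self_of_nhds]
    show D₀ ((r⁻¹ : E4 ≃ₜ E4) 0) = 0
    rw [hri0, hD00]
  have hB0 : B 0 = 0 := by
    rw [hB1.self_of_nhds]
    show r (Λ₀ 0) = 0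
    rw [hΛ00, hr0]
  have hAP : PD 1 A := ⟨hA0, fun x _ => hA x⟩
  have hBP : PD 1 B := ⟨hB0, fun x _ => hB x⟩
  have hη' : PD 1 (r * η * r⁻¹) := PD_conj hs hrP hη
  have e2 : ∀ᶠ x in 𝓝 (0 : E4), η₂ x = A ((r * η * r⁻¹ : E4 ≃ₜ E4) (B x)) := by
    have t3 : Tendsto (fun x => r (η (Λ₀ x))) (𝓝 0) (𝓝 0) := by
      have h1 : Tendsto (fun y => r (η y)) (𝓝 (0 : E4)) (𝓝 0) := by
        have h2 := (r.continuous.comp η.continuous).tendsto (0 : E4)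
        have h3 : (r ∘ η) (0 : E4) = 0 := by
          show r (η 0) = 0
          rw [hη.1, hr0]
        rwa [h3] at h2
      exact h1.comp tΛ
    filter_upwards [e1, hB1, t3.eventually hA1] with x hx1 hx2 hx3
    rw [hx1, hx2]
    show D₀ (η (Λ₀ x)) = A (r (η ((r⁻¹ : E4 ≃ₜ E4) (r (Λ₀ x)))))
    rw [inv_apply_self', hx3]
    show _ = D₀ ((r⁻¹ : E4 ≃ₜ E4) (r (η (Λ₀ x))))
    rw [inv_apply_self']
  obtain ⟨u, hu⟩ : ∃ u : E4 ≃ₜ E4, u = (A * (r * η * r⁻¹) * B)⁻¹ * η₂ := ⟨_, rfl⟩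
  have huP : PD 1 u := by
    rw [hu]
    exact ((hAP.mul_one' hη').mul_one' hBP).inv.mul_one' hη₂
  have hu1 : ∀ᶠ x in 𝓝 (0 : E4), u x = x := by
    filter_upwards [e2] with x hx
    rw [hu]
    show ((A * (r * η * r⁻¹) * B)⁻¹ : E4 ≃ₜ E4) (η₂ x) = x
    rw [hx]
    exact inv_apply_self' (A * (r * η * r⁻¹) * B) x
  have huL : ∀ x, LD 1 u x := by
    intro x
    by_cases hx : x = 0
    · rw [hx]
      refine (LD_id (0 : E4)).congr ?_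
      filter_upwards [hu1] with y hy
      exact hy.symm
    · exact huP.2 x hx
  have e3 : η₂ = A * (r * η * r⁻¹) * B * u := by
    rw [hu, mul_inv_cancel_left]
  have hE : Eqv (r * η * r⁻¹) η₂ := by
    have h1 := Ext.mul (Ext_of_LD hB) (Ext_of_LD huL)
    have h2 := Ext.conj hGerm hSwap hdim4 (one_mul 1) h1 hη'
    have h3 := Ext.mul (Ext_of_LD hA) h2
    have e4 : A * (r * η * r⁻¹ * (B * u) * (r * η * r⁻¹)⁻¹) = η₂ * (r * η * r⁻¹)⁻¹ := by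
      rw [e3]
      simp only [mul_assoc]
    rwa [e4] at h3
  have hkr : PD 1 (k * r⁻¹) := by
    have h1 := hk.mul hrP.inv
    rwa [hs] at h1
  have h5 := Eqv.of_conj hη' hkr
  have e5 : k * r⁻¹ * (r * η * r⁻¹) * (k * r⁻¹)⁻¹ = k * η * k⁻¹ := by group
  rw [e5] at h5
  exact h5.symm.trans hE

theorem germ_unique {T η η' : E4 ≃ₜ E4} {b : E4} (h : Germ T b η) (h' : Germ T b η') :
    Eqv η η' := by
  have h1 := germ_conj (one_mul 1) (T := T) (T₂ := T) (x₀ := b) (Λ := fun x => x)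
    (D := fun x => x) (k := 1) h h' (Eventually.of_forall fun x => LD_id x)
    (Eventually.of_forall fun x => LD_id x) (Eventually.of_forall fun _ => rfl) PD_one
  rwa [one_mul, inv_one, mul_one] at h1

end Pool.Agent.Rot6
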