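import Pool.Agent.Rot6.Defs
import Pool.Agent.HopfRem.Outer

/-!
# Existence of the germ

PROOF. Let `ρ > 0` be such that `LD 1 T x` for `0 < ‖x - b‖ < ρ`. Let `φ : ℝ⁴ → ball 0 ρ` be the smooth
open embedding `x ↦ (ρ / √(1 + ‖x‖²)) • x` (`OpenPartialHomeomorph.univBall 0 ρ`, with
`OpenPartialHomeomorph.contDiff_univBall`, `contDiffOn_univBall_symm`, `univBall_source`,
`univBall_target`, `univBall_apply_zero`, `univBall_symm_apply_center`; or any other smooth open
embedding of `ℝ⁴` onto a ball with `φ 0 = 0`). Its Jacobian has a constant sign (`sign_const`); it is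
positive, or compose with a reflection: it is simplest to take `η` at the end with whatever sign and
correct it: see below. `e x = T (b + φ x) - T b` is an open embedding (`IsOpenEmbedding`), `e 0 = 0`,
`RG e x` for `x ≠ 0`. `outer` (`HopfRem/Outer.lean`) with `K = {0}`, `L = closedBall 0 1` gives `H : ℝ⁴ ≃ₜ
ℝ⁴` with `H = e` on `L` and `RG H x` for `x ≠ 0`. By `sign_const` (`HopfRem/Loc.lean`, the complement of
the origin is preconnected: `preconnected_compl_singleton hdim4`) `H` has a constant sign `s` off `0`,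
and `φ` has a constant sign `t` on `ℝ⁴`; as `H = T (b + φ ·) - T b` near small points `x ≠ 0` and `T` has
the sign `1` there, `s = t`. If `s = -1` replace `φ` by `φ ∘ refl0` (or show directly that the
derivative of `φ` at `0` is `ρ • id`). So `PD 1 H`. The germ of `φ⁻¹` at `0` (`ψ = (univBall 0 ρ).symm`,
`LD 1 ψ` near `0`, `ψ 0 = 0`) extends by `hGerm` (with `O = univ`) to a homeomorphism `A` with `LD 1 A x`
for all `x` and `A = ψ` near `0`. Put `η = H * A`: near `0`, `η x = H (ψ x) = T (b + φ (ψ x)) - T b = T (b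
+ x) - T b` (`ψ x ∈ L`). `PD 1 η` by `PD.mul_one'` (`A 0 = 0`).
-/

set_option autoImplicit false

open scoped ContDiff Topology Manifold
open Set Filter Metric

namespace Pool.Agent.Rot6

open Pool.Agent.HopfCov hiding pr
open Pool.Agent.HopfCov.Smooth
open Pool.Agent.HopfFin
open Pool.Agent.Rot4

theorem germ_exists {T : E4 ≃ₜ E4} {b : E4} (h : ∀ᶠ x in 𝓝 b, x ≠ b → LD 1 T x) :
    ∃ η : E4 ≃ₜ E4, Germ T b η := by
  obtain ⟨ρ, hρ, hT⟩ := Metric.eventually_nhds_iff.1 h
  obtain ⟨F, hF⟩ : ∃ F : E4 ≃ₜ E4, F = tr (-(T b)) * (T * tr b) := ⟨_, rfl⟩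
  have hFx : ∀ x, F x = T (b + x) - T b := fun x => by
    rw [hF, mul_apply', mul_apply', tr_apply, tr_apply, ← sub_eq_add_neg, add_comm x b]
  have hF0 : F 0 = 0 := by rw [hFx, add_zero, sub_self]
  have hFL : ∀ x ∈ ball (0 : E4) ρ, x ≠ 0 → LD 1 F x := fun x hx hx0 => by
    rw [mem_ball_zero_iff] at hx
    rw [hF]
    refine LD.mul_one' (LD_tr _ _) (LD.mul_one' ?_ (LD_tr _ _))
    rw [tr_apply]
    refine hT ?_ ?_
    · rw [dist_eq_norm, add_sub_cancel_right]
      exact hx
    · intro h1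
      exact hx0 (by simpa using h1)
  obtain ⟨G, g1, g2⟩ := outer_ball (E := E4) hdim4 (F := F) (K := {0}) isCompact_singleton
    (c := ρ / 2) (b := ρ) (by linarith) (by linarith) (by
      intro x hx
      rw [mem_singleton_iff] at hx
      rw [hx]
      exact mem_closedBall_self (by linarith)) (fun x hx hxK =>
      (hFL x hx (by simpa using hxK)).rg)
  have hG0 : G 0 = 0 := by rw [g1 0 (mem_closedBall_self (by linarith)), hF0]
  obtain ⟨s, hs, hs'⟩ := sign_const (f := G) (isOpen_compl_singleton (x := (0 : E4)))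
    (preconnected_compl_singleton hdim4 (0 : E4)) g2
  have hev : ∀ᶠ x in 𝓝 (0 : E4), G x = T (b + x) - T b := by
    filter_upwards [closedBall_mem_nhds (0 : E4) (show (0 : ℝ) < ρ / 2 by linarith)] with x hx
    rw [g1 x hx, hFx]
  have hne : (ball (0 : E4) (ρ / 2) ∩ {0}ᶜ).Nonempty := by
    have h1 : ({0}ᶜ : Set E4) ∈ 𝓝[≠] (0 : E4) := self_mem_nhdsWithin
    have h2 : ball (0 : E4) (ρ / 2) ∈ 𝓝[≠] (0 : E4) :=
      mem_nhdsWithin_of_mem_nhds (ball_mem_nhds _ (by linarith))
    exact Filter.nonempty_of_mem (Filter.inter_mem h2 h1)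
  obtain ⟨x, hx1, hx2⟩ := hne
  have hx0 : x ≠ 0 := hx2
  have h1 : LD 1 G x := by
    refine (hFL x (ball_subset_ball (by linarith) hx1) hx0).congr ?_
    filter_upwards [isOpen_ball.mem_nhds hx1] with y hy
    exact (g1 y (ball_subset_closedBall hy)).symm
  have h2 := hs' x hx0
  have hs1 : s = 1 := by
    rcases hs with rfl | rfl
    · rfl
    · exfalso
      have h3 := h1.2
      have h4 := h2.2
      linarith
  subst hs1
  exact ⟨G, ⟨hG0, hs'⟩, hev⟩

end Pool.Agent.Rot6
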