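import Pool.Agent.Rot6.ApplyGerm
import Pool.Agent.Rot6.ClsCjV
import Pool.Agent.Rot6.ConjRel

/-!
# Conjugate actions have the same class up to mirror images

`mir_of_lift`: PROOF. `ray_off` for `G2` (`hR2.pair.nnG`, `.pow`, `Pair.good`, `Good.PD`,
`Good.contr`) gives `T, b`; `apply_germ` gives `Φ, Λ, D, x₀`. `off_of_ray`: `Off G1`.
`off1_of_near` and `Nn.id_near`: `Off1 G2 T b`, `Off1 G1 Φ x₀`. `germ_of`: `η₂` for `T` at `b`,
`η₁` for `Φ` at `x₀`; `key`: `Eqv η₂ G2`, `Eqv η₁ G1`. `reg_sign` for `Λ` at `x₀` and `D` at `T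
b`: signs `s` and `t`. `s = t`: take `x ≠ x₀` close to `x₀` (the neighbourhoods are not `{x₀}`:
`NeBot (𝓝[≠] x₀)`); `Λ x ≠ b` (`Λ` is injective near `x₀`; or `LD 1 Φ x` and `LD 1 T (Λ x)` hold
for all `x ≠ x₀` near `x₀` by `orbit_isolated`, `Λ x = b` is impossible because `Φ x = D (T b) = Φ
x₀`), so the Jacobian determinants of `Φ = D ∘ T ∘ Λ` at `x` give `0 < s t`. `germ_conj` with `k =
1` if `s = 1` and `k = linH refl0` if `s = -1`: `Eqv (k η₂ k⁻¹) η₁`, so `Mir η₂ η₁`. `Mir.trans`,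
`.symm`.
`mir_of_equiv`: as `off_of_equiv` (`Rot5/EquivAbs.lean`), with `mir_of_lift` instead of
`off_of_lift`, and
`mir_of_CjV` for the generator of `mir g2` (`rep_mir`).
`mir_of_conj`: as `off_pow_iff` (`Rot5/Main.lean`): `conj_cases`; in the second case `rep_exists
(norm_mir hg2)`, `rep_mir`, `mir_of_CjV`, `CjV.off` for `Off G3`.
-/

set_option autoImplicit false

open scoped ContDiff Topology Manifold
open Set Filter Metric

namespace Pool.Agent.Rot6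

open Pool.Agent.HopfCov hiding pr
open Pool.Agent.HopfCov.Smooth
open Pool.Agent.HopfFin
open Pool.Agent.Rot4
open Pool.Agent.Rot5

theorem Rep.PD {n : ℕ} {g : Sph4 ≃ₜ Sph4} {f G H G' : E4 ≃ₜ E4} (h : Rep n g f G H G') :
    PD 1 G := h.pair.good.PD h.pair.sm e0_ne

theorem mir_of_lift {n : ℕ} (hn : 0 < n) {f g1 g2 : Sph4 ≃ₜ Sph4}
    {f1 G1 H1 G1' f2 G2 H2 G2' : E4 ≃ₜ E4} (hR1 : Rep n g1 f1 G1 H1 G1')
    (hR2 : Rep n g2 f2 G2 H2 G2') (hc : CommNear f) (hS : ∀ x, OnS2 (f x) ↔ OnS2 x)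
    (hld : ∀ x, LocalDiffeoAt f x) (hcj : ∀ x, f (g1 x) = g2 (f x)) (hO : Off G2) :
    Mir G1 G2 := by
  obtain ⟨T, b, hT, hTc, hb, hTr⟩ :=
    ray_off hR2.pair.nnG hR2.pair.pow (Rep.PD hR2) hR2.pair.good.contr hO
  obtain ⟨Φ, Λ, D, x₀, hΦ, hΦc, hx₀, hΛb, hΛr, hDr, hΦr, hΦe⟩ :=
    apply_germ hn hR1 hR2 hc hS hld hcj hT hTc hb hTr
  have hO1 : Off G1 := off_of_ray hR1.pair.sm hΦ hΦc hx₀ hΦr
  have hL2 : Off1 G2 T b := off1_of_near (Nn.id_near hT) hTr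
  have hL1 : Off1 G1 Φ x₀ := off1_of_near (Nn.id_near hΦ) hΦr
  obtain ⟨η₂, hη₂⟩ := germ_of hT.zero hTc hb.ne hL2
  obtain ⟨η₁, hη₁⟩ := germ_of hΦ.zero hΦc hx₀.ne hL1
  have hk2 : Eqv η₂ G2 :=
    key (Rep.PD hR2) hR2.pair.good.contr hO hT.zero hTc hb.ne hL2 hη₂
  have hk1 : Eqv η₁ G1 :=
    key (Rep.PD hR1) hR1.pair.good.contr hO1 hΦ.zero hΦc hx₀.ne hL1 hη₁
  obtain ⟨s, hs, hsΛ⟩ := reg_sign hΛr
  obtain ⟨t, ht, htD⟩ := reg_sign hDr
  have hi1 := orbit_isolated hΦ.zero hΦc hx₀.ne hL1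
  have hi2 := orbit_isolated hT.zero hTc hb.ne hL2
  have hOm : ∀ᶠ x in 𝓝 x₀, Om x := by
    have h1 : IsOpen {x : E4 | x 0 < ‖x‖} :=
      isOpen_lt (by fun_prop) (by fun_prop)
    exact h1.mem_nhds hx₀
  have hev : ∀ᶠ x in 𝓝 x₀, Φ x = D (T (Λ x)) := hOm.mono fun x hx => hΦe x hx
  have tΛ : Tendsto Λ (𝓝 x₀) (𝓝 b) := by
    have h1 := hsΛ.self_of_nhds.continuousAt.tendsto
    rwa [hΛb] at h1
  have tT : Tendsto (fun x => T (Λ x)) (𝓝 x₀) (𝓝 (T b)) := (T.continuous.tendsto b).comp tΛ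
  have hst : t = s := by
    have hne : ∃ᶠ x in 𝓝 x₀, x ≠ x₀ := by
      rw [frequently_iff_neBot]
      exact Module.punctured_nhds_neBot ℝ E4 x₀
    obtain ⟨x, h1, h2, h3, h4, h5, h6⟩ := (hne.and_eventually
      (hi1.and (hev.eventually_nhds.and (hsΛ.and ((tΛ.eventually hi2).and
        (tT.eventually htD)))))).exists
    have h7 : Λ x ≠ b := by
      intro h
      apply h1
      apply Φ.injective
      rw [h3.self_of_nhds, h, hev.self_of_nhds, hΛb]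
    have h8 : LD (t * (1 * s)) (D ∘ (T ∘ Λ)) x := LD.comp h6 (LD.comp (h5 h7) h4)
    have h9 : LD (t * (1 * s)) Φ x := h8.congr (h3.mono fun y hy => hy.symm)
    have h10 := (h2 h1).2
    have h11 := h9.2
    rw [one_mul] at h10 h11
    have h12 : 0 < t * s := pos_of_mul_pos_left h11 h10.le
    have h13 : (t - s) * (t + s) = 0 := by linear_combination ht - hs
    rcases mul_eq_zero.1 h13 with h14 | h14
    · linarith
    · exfalso
      have h15 : t = -s := by linarith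
      rw [h15] at h12
      nlinarith
  subst hst
  have hk : ∃ k : E4 ≃ₜ E4, PD t k := by
    have h1 : (t - 1) * (t + 1) = 0 := by linear_combination hs
    rcases mul_eq_zero.1 h1 with h2 | h2
    · exact ⟨1, by rw [show t = 1 by linarith]; exact PD_one⟩
    · exact ⟨linH refl0, by rw [show t = -1 by linarith]; exact PD_refl⟩
  obtain ⟨k, hk⟩ := hk
  have hE : Eqv (k * η₂ * k⁻¹) η₁ := germ_conj hs (T := T) (T₂ := Φ) (x₀ := x₀) (Λ := Λ) (D := D)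
    (by rw [hΛb]; exact hη₂) hη₁ hsΛ (by rw [hΛb]; exact htD) hev hk
  have hM : Mir η₂ η₁ := ⟨t, k, hs, hk, hE⟩
  exact ((Mir.of_eqv hk1.symm).trans hM.symm).trans (Mir.of_eqv hk2)

theorem mir_of_equiv {n : ℕ} (hn : 2 ≤ n) {g1 h1 g2 h2 : Sph4 ≃ₜ Sph4}
    (hg1 : NormAct n g1 h1) (hg2 : NormAct n g2 h2)
    {f1 G1 H1 G1' f2 G2 H2 G2' : E4 ≃ₜ E4} (hR1 : Rep n g1 f1 G1 H1 G1')
    (hR2 : Rep n g2 f2 G2 H2 G2') (hE : SphereEquivalent g1 g2) (hO : Off G2) : Mir G1 G2 := by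
  have hn0 : 0 < n := by omega
  obtain ⟨φ, hφ, hφc⟩ := hE
  obtain ⟨f, hf, hld⟩ := homeo_of_isDiffeo hφ
  have hcj : ∀ x, f (g1 x) = g2 (f x) := fun x => by rw [hf, hf, hφc]
  have hS : ∀ x, OnS2 (f x) ↔ OnS2 x := fun x => by
    rw [← hg2.fix hn, ← hg1.fix hn, ← hcj, f.injective.eq_iff]
  obtain ⟨f', hc', hS', hld', hcase⟩ := straighten hn hg1.near hg2.near hcj hS fun x _ => hld x
  rcases hcase with hcj' | ⟨rfl, hcj'⟩
  · exact mir_of_lift hn0 hR1 hR2 hc' hS' (fun x => hld' x (hld x)) hcj' hO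
  · have hsymm : ∀ x, g2.symm x = g2 x := by
      intro x
      rw [Homeomorph.symm_apply_eq]
      exact (hg2.pow hn0 x).symm
    obtain ⟨f3, G3, H3, G3', hR3⟩ := rep_exists hn0 (norm_mir hg2)
    have hCj : CjV G3 G2 := (rep_mir hn0 hg2 hR2 hR3).symm
    have hO3 : Off G3 := by
      have h1 := CjV.off hR3.pair.good.contr hR2.pair.good.contr hCj one_pos
        (by rw [pow_one]; exact hO)
      rwa [pow_one] at h1
    refine Mir.trans (mir_of_lift hn0 hR1 hR3 hc' hS' (fun x => hld' x (hld x)) (fun x => ?_) hO3)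
      (mir_of_CjV (Rep.PD hR3) (Rep.PD hR2) hR3.pair.good.contr hR2.pair.good.contr hCj)
    rw [mir_apply, hsymm, hcj']

theorem mir_of_conj {n : ℕ} (hn : 2 ≤ n) {g1 h1 g2 h2 : Sph4 ≃ₜ Sph4}
    (hg1 : NormAct n g1 h1) (hg2 : NormAct n g2 h2)
    {f1 G1 H1 G1' f2 G2 H2 G2' : E4 ≃ₜ E4} (hR1 : Rep n g1 f1 G1 H1 G1')
    (hR2 : Rep n g2 f2 G2 H2 G2') (hE : ConjugateGroups g1 g2) (hO : Off G2) : Mir G1 G2 := by
  have hn0 : 0 < n := by omega
  obtain ⟨φ, k, h3, h4⟩ := hE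
  obtain ⟨f, h5, h6⟩ := homeo_of_isDiffeo h3
  rcases conj_cases hn hg1 hg2 h6 (k := k) (fun x => by rw [h5, h4, h5]) with h7 | h7
  · exact mir_of_equiv hn hg1 hg2 hR1 hR2 ⟨f, isDiffeo_of_homeo h6, h7⟩ hO
  · obtain ⟨f3, G3, H3, G3', hR3⟩ := rep_exists hn0 (norm_mir hg2)
    have hCj : CjV G3 G2 := (rep_mir hn0 hg2 hR2 hR3).symm
    have hO3 : Off G3 := by
      have h1 := CjV.off hR3.pair.good.contr hR2.pair.good.contr hCj one_pos
        (by rw [pow_one]; exact hO)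
      rwa [pow_one] at h1
    refine Mir.trans (mir_of_equiv hn hg1 (norm_mir hg2) hR1 hR3
      ⟨(refHS * f : Sph4 ≃ₜ Sph4),
        isDiffeo_of_homeo (fun x => ld_mul (ld_refS _) (h6 x)), fun x => ?_⟩ hO3)
      (mir_of_CjV (Rep.PD hR3) (Rep.PD hR2) hR3.pair.good.contr hR2.pair.good.contr hCj)
    show refS (f (g1 x)) = refS (g2.symm (refS (refS (f x))))
    rw [h7, refS_refS]

end Pool.Agent.Rot6
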