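import Pool.Agent.Rot6.KeyTrap

/-!
# The class of a generator is the class of the singularity

PROOF. `Off G`: `κ G = G₁ κ`, `Sm κ`, `Trap G₁`. `Sm.exists_sign` gives the sign of `κ`; if it is `-1`
replace `κ` by `r κ` and `G₁` by `r G₁ r⁻¹`, `r = linH refl0` (`PD_refl`, `Trap_refl`). So `PD 1 κ`. `G₁ = κ G
κ⁻¹` is `PD 1`, `Contr` (`Contr.conj`). Choose a radius: `G₁ '' closedBall 0 1` is compact, so contained in
`closedBall 0 ρ`, `ρ < 1`, `0 < ρ`; the set of the norms `‖G₁ ^ k (κ b)‖`, `k : ℤ`, is countable, so there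
is `t` in `(ρ, 1)` which is not in it (`Set.Countable` and `Cardinal`: an interval is uncountable, e.g.
`(Set.Countable.dense_compl ℝ h).exists_mem_open` or `Set.Countable.not_..`). Let `σ x = t⁻¹ • x` (linear,
`LD 1` everywhere, `PD 1`), `κ₂ = σ κ`, `G₂ = κ₂ G κ₂⁻¹ = σ G₁ σ⁻¹`: `Trap G₂` (`‖x‖ ≤ 1 → ‖G₁ (t x)‖ ≤ ρ <
t`), `PD 1`, `Contr`; `T₂ = T κ₂⁻¹`, `T₂ G₂ = τ T₂`, `T₂ 0 = 0`. Let `b₂ = κ₂ b ≠ 0`; `exists_InA` gives `k`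
with `‖G₂ ^ (-k) b₂‖ ≤ 1 < ‖G₂ ^ (-(k+1)) b₂‖`; `b₃ = G₂ ^ (-k) b₂`, `‖b₃‖ < 1` by the choice of `t`
(`G₂ ^ j = κ₂ G ^ j κ₂⁻¹`, `G₂ ^ j b₂ = t⁻¹ • G₁ ^ j (κ b)`), `‖G₂⁻¹ b₃‖ > 1`. `Off1 G₂ T₂ b₃`: if `x` is not
in the `G₂`-orbit of `b₃` then `κ₂⁻¹ x` is not in the `G`-orbit of `b`. `germ_exists` for `T₂` at `b₃` (the
points near `b₃` other than `b₃` are not in the orbit: their norms are `< 1` and `‖G₂⁻¹ x‖ > 1`, so
`InA`-like uniqueness; or use that `T₂ b₃ ≠ 0` and the points of the orbit of `T₂ b₃` under `tau` are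
isolated) gives `η₃`; `key_trap`: `Eqv η₃ G₂`. `germ_conj` with `s = 1`, `k = 1`, `Λ x = κ₂⁻¹ (G₂ ^ k x)`,
`D = τ ^ (-k)`: `T₂ x = τ ^ (-k) (T (κ₂⁻¹ (G₂ ^ k x)))`, `Λ b₃ = b`: `Eqv η η₃`. `Eqv.of_conj`: `Eqv G G₂`.
-/

set_option autoImplicit false

open scoped ContDiff Topology Manifold
open Set Filter Metric

namespace Pool.Agent.Rot6

open Pool.Agent.HopfCov hiding pr
open Pool.Agent.HopfCov.Smooth
open Pool.Agent.HopfFin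
open Pool.Agent.Rot4

/-- a conjugation by an orientation preserving diffeomorphism of the punctured space -/
private theorem key_pos {G : E4 ≃ₜ E4} (hO : Off G) :
    ∃ G₁ κ : E4 ≃ₜ E4, Trap G₁ ∧ PD 1 κ ∧ κ * G = G₁ * κ := by
  obtain ⟨G₁, ht, κ, hκ, hc⟩ := hO
  obtain ⟨s, hs, hs2⟩ := hκ.exists_sign
  rcases mul_self_eq_one_iff.1 hs with rfl | rfl
  · exact ⟨G₁, κ, ht, hs2, hc⟩
  · obtain ⟨L, hL⟩ := exists_reflection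
    have hr : PD (-1) (linH L) := PD_linH hL
    refine ⟨linH L * G₁ * (linH L)⁻¹, linH L * κ, ?_, hr.mul_neg hs2, ?_⟩
    · intro x hx
      have h1 : ((linH L)⁻¹ : E4 ≃ₜ E4) x = L.symm x := rfl
      have h2 : (linH L * G₁ * (linH L)⁻¹) x = L (G₁ (L.symm x)) := rfl
      rw [h2, L.norm_map]
      exact ht _ (by rw [L.symm.norm_map]; exact hx)
    · calc linH L * κ * G = linH L * (κ * G) := by group
        _ = linH L * G₁ * (linH L)⁻¹ * (linH L * κ) := by rw [hc]; group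

/-- scaling -/
private theorem key_scale {t : ℝ} (ht : 0 < t) :
    ∃ σ : E4 ≃ₜ E4, PD 1 σ ∧ (∀ x, σ x = t⁻¹ • x) ∧ ∀ x, (σ⁻¹ : E4 ≃ₜ E4) x = t • x := by
  refine ⟨Homeomorph.smulOfNeZero t⁻¹ (inv_ne_zero ht.ne'),
    ⟨show t⁻¹ • (0 : E4) = 0 from smul_zero _, fun x _ => ?_⟩, fun x => rfl, fun x => ?_⟩
  · have h1 : ((Homeomorph.smulOfNeZero t⁻¹ (inv_ne_zero ht.ne') : E4 ≃ₜ E4) : E4 → E4) =
        (t⁻¹ • (ContinuousLinearMap.id ℝ E4) : E4 →L[ℝ] E4) := by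
      funext y
      rfl
    rw [h1]
    apply LD_clm
    have h2 : (t⁻¹ • (ContinuousLinearMap.id ℝ E4) : E4 →L[ℝ] E4).det =
        t⁻¹ ^ (Module.finrank ℝ E4) := by
      simp [ContinuousLinearMap.det, LinearMap.det_smul]
    rw [h2, one_mul]
    positivity
  · have h1 := (Homeomorph.smulOfNeZero t⁻¹ (inv_ne_zero ht.ne') : E4 ≃ₜ E4).injective
    apply h1
    rw [apply_inv_self']
    change x = t⁻¹ • (t • x)
    rw [smul_smul, inv_mul_cancel₀ ht.ne', one_smul]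

private theorem key_conj_zpow {G G₂ κ : E4 ≃ₜ E4} (h : κ * G = G₂ * κ) (j : ℤ) (x : E4) :
    κ ((G ^ j) x) = (G₂ ^ j) (κ x) := by
  have h1 : SemiconjBy κ G G₂ := h
  exact DFunLike.congr_fun (h1.zpow_right j).eq x

theorem key {G T η : E4 ≃ₜ E4} {b : E4} (hG : PD 1 G) (hc : Contr G) (hO : Off G)
    (hT0 : T 0 = 0) (hTG : T * G = tau * T) (hb : b ≠ 0) (hL : Off1 G T b) (hη : Germ T b η) :
    Eqv η G := by
  obtain ⟨G₁, κ, ht₁, hκ, hκG⟩ := key_pos hO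
  have hG₁e : G₁ = κ * G * κ⁻¹ := by rw [hκG]; group
  have hc₁ : Contr G₁ := by
    rw [hG₁e]
    exact hc.conj hκ.1
  -- the radius
  obtain ⟨ρ, hρ0, hρ1, hρ⟩ : ∃ ρ : ℝ, 0 < ρ ∧ ρ < 1 ∧ ∀ x, ‖x‖ ≤ 1 → ‖G₁ x‖ ≤ ρ := by
    obtain ⟨a, ha, hmax⟩ := (isCompact_closedBall (0 : E4) 1).exists_isMaxOn
      ⟨0, by simp⟩ (G₁.continuous.norm.continuousOn)
    have ha1 : ‖a‖ ≤ 1 := by rwa [mem_closedBall_zero_iff] at ha
    refine ⟨max ‖G₁ a‖ 2⁻¹, by positivity, max_lt (ht₁ a ha1) (by norm_num), fun x hx => ?_⟩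
    have h1 : ‖G₁ x‖ ≤ ‖G₁ a‖ := hmax (show x ∈ closedBall (0 : E4) 1 by
      rwa [mem_closedBall_zero_iff])
    exact h1.trans (le_max_left _ _)
  obtain ⟨t, ⟨ht1, ht2⟩, htN⟩ : ∃ t ∈ Ioo ρ 1, t ∉ range fun k : ℤ => ‖(G₁ ^ k) (κ b)‖ := by
    have h1 : Dense (range fun k : ℤ => ‖(G₁ ^ k) (κ b)‖)ᶜ :=
      (countable_range _).dense_compl ℝ
    obtain ⟨t, h2, h3⟩ := h1.exists_mem_open isOpen_Ioo (nonempty_Ioo.2 hρ1)
    exact ⟨t, h3, h2⟩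
  have ht0 : 0 < t := hρ0.trans ht1
  obtain ⟨σ, hσ, hσ1, hσ2⟩ := key_scale ht0
  set κ₂ : E4 ≃ₜ E4 := σ * κ with hκ₂
  set G₂ : E4 ≃ₜ E4 := σ * G₁ * σ⁻¹ with hG₂
  have hPκ₂ : PD 1 κ₂ := hσ.mul_one' hκ
  have hκ₂G : κ₂ * G = G₂ * κ₂ := by
    calc κ₂ * G = σ * (κ * G) := by rw [hκ₂]; group
      _ = G₂ * κ₂ := by rw [hκG, hG₂, hκ₂]; group
  have hG₂e : G₂ = κ₂ * G * κ₂⁻¹ := by rw [hκ₂G]; group
  have hPG₂ : PD 1 G₂ := by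
    rw [hG₂e]
    exact (hPκ₂.mul_one' hG).mul_one' hPκ₂.inv
  have hc₂ : Contr G₂ := hc₁.conj hσ.1
  have hT₂ : Trap G₂ := by
    intro x hx
    have h1 : G₂ x = t⁻¹ • G₁ (t • x) := by
      rw [hG₂, mul_apply', mul_apply', hσ1, hσ2]
    have h2 : ‖G₁ (t • x)‖ ≤ ρ := by
      apply hρ
      rw [norm_smul, Real.norm_of_nonneg ht0.le]
      nlinarith [norm_nonneg x]
    rw [h1, norm_smul, Real.norm_of_nonneg (inv_nonneg.2 ht0.le), inv_mul_lt_iff₀ ht0, mul_one]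
    exact h2.trans_lt ht1
  have hb₂ : κ₂ b ≠ 0 := hPκ₂.ne hb
  obtain ⟨k, hk1, hk2⟩ := exists_InA hT₂ hc₂ hb₂
  set b₃ : E4 := (G₂ ^ (-k)) (κ₂ b) with hb₃
  have hb₃0 : b₃ ≠ 0 := (hPG₂.zpow _).ne hb₂
  have hkb : (G₂ ^ k) b₃ = κ₂ b := by
    rw [hb₃, ← zpow_apply_add, add_neg_cancel, zpow_zero]
    rfl
  have hb31 : ‖b₃‖ < 1 := by
    refine lt_of_le_of_ne hk1 fun h => htN ⟨-k, ?_⟩
    have h1 : b₃ = t⁻¹ • (G₁ ^ (-k)) (κ b) := by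
      have h2 : σ * G₁ = G₂ * σ := by rw [hG₂]; group
      rw [hb₃, ← hσ1, key_conj_zpow h2]
      rfl
    rw [h1, norm_smul, Real.norm_of_nonneg (inv_nonneg.2 ht0.le)] at h
    have h3 := (inv_mul_eq_iff_eq_mul₀ ht0.ne').1 h
    rw [mul_one] at h3
    exact h3
  have hinv : ∀ x, (G₂⁻¹ : E4 ≃ₜ E4) x = (G₂ ^ (-(0 + 1) : ℤ)) x := by
    intro x
    rw [zero_add, zpow_neg_one]
  have hb32 : 1 < ‖(G₂⁻¹ : E4 ≃ₜ E4) b₃‖ := by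
    have h1 : (G₂⁻¹ : E4 ≃ₜ E4) b₃ = (G₂ ^ (-(k + 1))) (κ₂ b) := by
      rw [hb₃, ← zpow_neg_one, ← zpow_apply_add]
      congr 2
      ring
    rw [h1]
    exact hk2
  set T₂ : E4 ≃ₜ E4 := T * κ₂⁻¹ with hT₂def
  have hT₂0 : T₂ 0 = 0 := by rw [hT₂def, mul_apply', hPκ₂.inv_zero, hT0]
  have hT₂G : T₂ * G₂ = tau * T₂ := by
    calc T₂ * G₂ = T * G * κ₂⁻¹ := by rw [hT₂def, hG₂e]; group
      _ = tau * T₂ := by rw [hTG, hT₂def]; group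
  have hL₂ : Off1 G₂ T₂ b₃ := by
    intro x hx hxk
    rw [hT₂def]
    refine LD.mul_one' (hL _ (hPκ₂.inv.ne hx) fun j hj => ?_) (hPκ₂.inv.2 x hx)
    apply hxk (j + k)
    have h1 : x = κ₂ ((G ^ j) b) := by rw [← hj, apply_inv_self']
    rw [h1, key_conj_zpow hκ₂G, ← hkb, ← zpow_apply_add]
  -- the germ at `b₃`
  have hev : ∀ᶠ x in 𝓝 b₃, x ≠ b₃ → LD 1 T₂ x := by
    have e1 : ∀ᶠ x in 𝓝 b₃, x ≠ 0 := isOpen_ne.mem_nhds hb₃0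
    have e2 : ∀ᶠ x in 𝓝 b₃, ‖x‖ < 1 := continuous_norm.continuousAt.eventually
      (isOpen_Iio.mem_nhds hb31)
    have e3 : ∀ᶠ x in 𝓝 b₃, 1 < ‖(G₂⁻¹ : E4 ≃ₜ E4) x‖ :=
      (G₂⁻¹ : E4 ≃ₜ E4).continuous.norm.continuousAt.eventually (isOpen_Ioi.mem_nhds hb32)
    filter_upwards [e1, e2, e3] with x h1 h2 h3 h4
    refine hL₂ x h1 fun j hj => h4 ?_
    have i1 : InA G₂ 0 x := by
      refine ⟨?_, ?_⟩
      · rw [neg_zero, zpow_zero]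
        exact h2.le
      · rw [← hinv]
        exact h3
    have i2 : InA G₂ j x := by
      refine ⟨?_, ?_⟩
      · rw [hj, ← zpow_apply_add, neg_add_cancel, zpow_zero]
        exact hb31.le
      · rw [hj, ← zpow_apply_add]
        have : (-(j + 1) + j : ℤ) = -(0 + 1) := by ring
        rw [this, ← hinv]
        exact hb32
    have i3 : j = 0 := InA.unique hT₂ i2 i1
    rw [hj, i3, zpow_zero]
    rfl
  obtain ⟨η₃, hη₃⟩ := germ_exists hev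
  have hkey : Eqv η₃ G₂ := key_trap hPG₂ hT₂ hT₂0 hT₂G hb31 hb32 hL₂ hη₃
  have hPΛ : PD 1 (κ₂⁻¹ * G₂ ^ k : E4 ≃ₜ E4) := hPκ₂.inv.mul_one' (hPG₂.zpow k)
  have hΛb : (κ₂⁻¹ * G₂ ^ k : E4 ≃ₜ E4) b₃ = b := by
    rw [mul_apply', hkb, inv_apply_self']
  have hTb : T b ≠ 0 := fun h => hb (T.injective (h.trans hT0.symm))
  have hconj : Eqv (1 * η * 1⁻¹) η₃ := by
    refine germ_conj (s := 1) (one_mul 1) (T := T) (T₂ := T₂) (x₀ := b₃)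
      (Λ := (κ₂⁻¹ * G₂ ^ k : E4 ≃ₜ E4)) (D := (tau ^ (-k) : E4 ≃ₜ E4)) (by rw [hΛb]; exact hη)
      hη₃ ?_ ?_ ?_ PD_one
    · have e1 : ∀ᶠ x in 𝓝 b₃, x ≠ 0 := isOpen_ne.mem_nhds hb₃0
      exact e1.mono fun x hx => hPΛ.2 x hx
    · rw [hΛb]
      have e1 : ∀ᶠ x in 𝓝 (T b), x ≠ 0 := isOpen_ne.mem_nhds hTb
      exact e1.mono fun x hx => (PD_tau.zpow (-k)).2 x hx
    · refine Eventually.of_forall fun x => ?_
      have h1 : T ((κ₂⁻¹ * G₂ ^ k : E4 ≃ₜ E4) x) = T₂ ((G₂ ^ k) x) := rfl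
      rw [h1, key_conj_zpow hT₂G, ← zpow_apply_add, neg_add_cancel, zpow_zero]
      rfl
  have hηη₃ : Eqv η η₃ := by
    have e : (1 * η * 1⁻¹ : E4 ≃ₜ E4) = η := by group
    rwa [e] at hconj
  have hGG₂ : Eqv G G₂ := by
    rw [hG₂e]
    exact Eqv.of_conj hG hPκ₂
  exact (hηη₃.trans hkey).trans hGG₂.symm

end Pool.Agent.Rot6
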