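import Pool.Agent.Rot6.GermConj

/-!
# A compactly supported homeomorphism with two singular points

PROOF. Let `η₁ = tr (ζ b) * η * tr (-b)` (`tr c x = x + c`), so `η₁ x = ζ x` for `x` near `b`, `LD 1 η₁ x`
for `x ≠ b`. Put `μ = η₁⁻¹ * ζ`, the identity near `b`. `LD 1 μ x` for `x ≠ 0`: at `b` by `LD.congr`; at `x
≠ 0, b`, `LD 1 ζ x` and `η₁⁻¹` is `LD 1` at `ζ x`, because `η₁⁻¹ (ζ x) ≠ b` (`ζ x ≠ ζ b = η₁ b`). Let
`p = μ 0` and `μ₀ = tr (-p) * μ`: `PD 1 μ₀`. `p ≠ b` (`μ b = b`, `b ≠ 0`).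
(1) `Eqv μ₀ ξ`: near `0`, `ξ = ζ = η₁ ∘ μ = (η₁ ∘ tr p) ∘ μ₀`, and `η₁` is a local diffeomorphism near `p
= μ 0 ≠ b`. This is `germ_conj` with `s = 1`, `k = 1`, `T = μ₀`, `T₂ = ζ`, `x₀ = 0`, `Λ = id`, `D = η₁ ∘ tr
p` (`Germ μ₀ 0 μ₀`, `Germ ζ 0 ξ` because `ζ 0 = 0`).
(2) `Ext (η * μ₀)`: near infinity `ζ x = x`, i.e. `tr (ζ b) * η * tr (p - b) * μ₀ = 1` near infinity
(`EqInf`, `CS`). Let `S` be a homeomorphism with `LD 1 S x` for all `x`, `S 0 = 0` and `S = tr (p - b)` near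
infinity: `S = tr (p - b) * P` where `P` is `LD 1` everywhere, compactly supported, `P 0 = b - p`
(`push_open isOpen_univ isPreconnected_univ`, as in `ext_outside`, `HopfFin/Schoen.lean`). Then `η * S *
μ₀` agrees near infinity with `η * tr (p - b) * μ₀` (`μ₀` is proper: `EqInf.mul`), which agrees with `tr
(- ζ b)`, so `Ext (η * S * μ₀)`. `S` is `PD 1` and `Ext S`, so `Eqv (η * μ₀) (η * S * μ₀)` (`Eqv.mul`; or
`η S μ₀ = (η S η⁻¹) (η μ₀)` and `Ext (η S η⁻¹)` by `Ext.conj`), and `Ext (η * μ₀)`.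
(3) `ξ * η`: the class group `D / [D, D]` is commutative (`cls_mul`, `cls_eq_one`, `AA_comm` in
`HopfCov/ClassGroup.lean`; or: `ξ η` has the class of `μ₀ η = η⁻¹ (η μ₀) η`, `Ext.conj`).
-/

set_option autoImplicit false

open scoped ContDiff Topology Manifold
open Set Filter Metric

namespace Pool.Agent.Rot6

open Pool.Agent.HopfCov hiding pr
open Pool.Agent.HopfCov.Smooth
open Pool.Agent.HopfFin
open Pool.Agent.Rot4

theorem two_sing {ζ η ξ : E4 ≃ₜ E4} {b : E4} (h0 : ζ 0 = 0) (hb : b ≠ 0)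
    (hL : ∀ x, x ≠ 0 → x ≠ b → LD 1 ζ x) (hcs : CS ζ) (hη : Germ ζ b η) (hξ : PD 1 ξ)
    (hξ0 : ∀ᶠ x in 𝓝 (0 : E4), ξ x = ζ x) : Ext (ξ * η) := by
  obtain ⟨hηP, hηG⟩ := hη
  -- the local model at `b`
  obtain ⟨η₁, hη₁⟩ : ∃ η₁ : E4 ≃ₜ E4, η₁ = tr (ζ b) * η * tr (-b) := ⟨_, rfl⟩
  have hη₁x : ∀ x, η₁ x = η (x - b) + ζ b := fun x => by
    rw [hη₁, mul_apply', mul_apply', tr_apply, tr_apply, sub_eq_add_neg]
  have hη₁L : ∀ x, x ≠ b → LD 1 η₁ x := fun x hx => by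
    have h1 : tr (-b) x ≠ 0 := by
      rw [tr_apply, ← sub_eq_add_neg]
      exact sub_ne_zero.2 hx
    rw [hη₁]
    exact LD.mul_one' (LD.mul_one' (LD_tr _ _) (hηP.2 _ h1)) (LD_tr _ _)
  have hη₁b : η₁ b = ζ b := by
    rw [hη₁x, sub_self, hηP.1, zero_add]
  have hη₁near : ∀ᶠ x in 𝓝 b, η₁ x = ζ x := by
    have h1 : Tendsto (fun x : E4 => x - b) (𝓝 b) (𝓝 0) := by
      have h2 : ContinuousAt (fun x : E4 => x - b) b :=
        (continuous_id.sub continuous_const).continuousAt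
      have h3 := h2.tendsto
      rwa [sub_self] at h3
    filter_upwards [h1.eventually hηG] with x hx
    rw [hη₁x, hx]
    abel_nf
  -- the map with one singular point
  obtain ⟨μ, hμ⟩ : ∃ μ : E4 ≃ₜ E4, μ = η₁⁻¹ * ζ := ⟨_, rfl⟩
  have hμη : ∀ x, η₁ (μ x) = ζ x := fun x => by
    rw [hμ, mul_apply', apply_inv_self']
  have hμnear : ∀ᶠ x in 𝓝 b, μ x = x := by
    filter_upwards [hη₁near] with x hx
    rw [hμ, mul_apply', ← hx, inv_apply_self']
  have hμb : μ b = b := hμnear.self_of_nhds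
  have hμL : ∀ x, x ≠ 0 → LD 1 μ x := fun x hx => by
    by_cases hxb : x = b
    · rw [hxb]
      exact (LD_id b).congr (hμnear.mono fun y hy => hy.symm)
    · rw [hμ]
      refine LD.mul_one' (LD.inv' (hη₁L _ ?_)) (hL x hx hxb)
      intro h
      apply hxb
      apply ζ.injective
      rw [← hη₁b, ← h, apply_inv_self']
  obtain ⟨p, hp⟩ : ∃ p : E4, p = μ 0 := ⟨_, rfl⟩
  have hpb : p ≠ b := by
    intro h
    apply hb
    apply μ.injective
    rw [hμb, ← hp, h]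
  obtain ⟨μ₀, hμ₀⟩ : ∃ μ₀ : E4 ≃ₜ E4, μ₀ = tr (-p) * μ := ⟨_, rfl⟩
  have hμ₀x : ∀ x, μ₀ x = μ x - p := fun x => by
    rw [hμ₀, mul_apply', tr_apply, sub_eq_add_neg]
  have hμ₀0 : μ₀ 0 = 0 := by rw [hμ₀x, ← hp, sub_self]
  have hμ₀P : PD 1 μ₀ := ⟨hμ₀0, fun x hx => by
    rw [hμ₀]
    exact LD.mul_one' (LD_tr _ _) (hμL x hx)⟩
  -- (1) the class of the first singular point
  have hE1 : Eqv μ₀ ξ := by
    have h1 := germ_conj (s := 1) (one_mul 1) (T := μ₀) (T₂ := ζ) (η := μ₀) (η₂ := ξ) (k := 1)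
      (x₀ := (0 : E4)) (Λ := fun x => x) (D := fun y => η₁ (y + p))
      ⟨hμ₀P, Eventually.of_forall fun x => by
        show μ₀ x = μ₀ (0 + x) - μ₀ 0
        rw [zero_add, hμ₀0, sub_zero]⟩
      ⟨hξ, hξ0.mono fun x hx => by rw [hx, zero_add, h0, sub_zero]⟩
      (Eventually.of_forall fun x => LD_id x)
      (by
        show ∀ᶠ y in 𝓝 (μ₀ 0), LD 1 (fun y => η₁ (y + p)) y
        rw [hμ₀0]
        have h2 : Tendsto (fun y : E4 => y + p) (𝓝 0) (𝓝 p) := by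
          have h3 : ContinuousAt (fun y : E4 => y + p) 0 :=
            (continuous_id.add continuous_const).continuousAt
          have h4 := h3.tendsto
          rwa [zero_add] at h4
        have h5 : ∀ᶠ y in 𝓝 (0 : E4), y + p ≠ b :=
          h2.eventually (isOpen_ne.mem_nhds hpb)
        filter_upwards [h5] with y hy
        have h6 : LD (1 * 1) (η₁ ∘ fun y : E4 => y + p) y :=
          LD.comp (f := fun y : E4 => y + p) (hη₁L _ hy) (LD_add_const p y)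
        rw [one_mul] at h6
        exact h6)
      (Eventually.of_forall fun x => by
        show ζ x = η₁ (μ₀ x + p)
        rw [hμ₀x, sub_add_cancel, hμη])
      PD_one
    have e : (1 : E4 ≃ₜ E4) * μ₀ * 1⁻¹ = μ₀ := by group
    rwa [e] at h1
  -- (2) the product extends
  obtain ⟨P, hP, hP0, C, hC, -, hCP⟩ := push_open (E := E4) isOpen_univ isPreconnected_univ
    (mem_univ (0 : E4)) (mem_univ (b - p))
  have hPC : CS P := by
    filter_upwards [hC.compl_mem_cocompact] with x hx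
    exact hCP x hx
  obtain ⟨S, hS⟩ : ∃ S : E4 ≃ₜ E4, S = tr (p - b) * P := ⟨_, rfl⟩
  have hSL : ∀ x, LD 1 S x := fun x => by
    rw [hS]
    exact LD.mul_one' (LD_tr _ _) (hP x)
  have hES : Ext S := ⟨S, hSL, EqInf.refl _⟩
  have htr : ∀ c d : E4, tr c * tr d = tr (c + d) := fun c d => by
    ext1 x
    rw [mul_apply', tr_apply, tr_apply, tr_apply, add_assoc, add_comm d c]
  have htr0 : tr (0 : E4) = 1 := by
    ext1 x
    rw [tr_apply, add_zero, one_apply']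
  have hζ : ζ = tr (ζ b) * (η * tr (p - b) * μ₀) := by
    have e1 : tr (-b) = tr (p - b) * tr (-p) := by
      rw [htr]
      congr 1
      abel
    have e2 : ζ = η₁ * μ := by rw [hμ, mul_inv_cancel_left]
    rw [hμ₀]
    conv_lhs => rw [e2, hη₁, e1]
    simp only [mul_assoc]
  have hE2 : Ext (η * S * μ₀) := by
    refine ⟨tr (-(ζ b)), LD_tr _, ?_⟩
    have h1 : EqInf (tr (-(ζ b)) * ζ) (tr (-(ζ b)) * 1) := (EqInf.refl _).mul hcs.eqInf
    have e1 : tr (-(ζ b)) * ζ = η * tr (p - b) * μ₀ := by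
      have e2 : tr (-(ζ b)) * ζ = tr (-(ζ b)) * (tr (ζ b) * (η * tr (p - b) * μ₀)) :=
        congrArg (fun f => tr (-(ζ b)) * f) hζ
      rw [e2, ← mul_assoc, htr, neg_add_cancel, htr0, one_mul]
    rw [e1, mul_one] at h1
    have h2 : EqInf (η * (tr (p - b) * P) * μ₀) (η * (tr (p - b) * 1) * μ₀) :=
      ((EqInf.refl η).mul ((EqInf.refl _).mul hPC.eqInf)).mul (EqInf.refl μ₀)
    rw [mul_one] at h2
    rw [hS]
    exact (h2.trans h1).symm
  have hE3 : Ext (η * μ₀) := by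
    have h1 := Ext.conj hGerm hSwap hdim4 (one_mul 1) hES hηP
    have h2 := Ext.mul (Ext.inv h1) hE2
    have e : (η * S * η⁻¹)⁻¹ * (η * S * μ₀) = η * μ₀ := by group
    rwa [e] at h2
  -- (3) the product of the two classes
  have hE4 : Ext (μ₀ * η) := by
    have h1 := Ext.conj hGerm hSwap hdim4 (one_mul 1) hE3 hηP.inv
    have e : η⁻¹ * (η * μ₀) * η⁻¹⁻¹ = μ₀ * η := by group
    rwa [e] at h1
  have h5 := Ext.mul hE1 hE4
  have e : ξ * μ₀⁻¹ * (μ₀ * η) = ξ * η := by group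
  rwa [e] at h5

end Pool.Agent.Rot6
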