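import Pool.Agent.Rot6.GermEx
import Pool.Agent.Rot6.TwoSing
import Pool.Agent.Rot6.Cut

/-!
# The class of a trapping generator is the class of the singularity

`zeta`: PROOF. Write `G⁻¹ y` for the inverse. The orbit of `b`: `‖G ^ k b‖ < 1` for `k ≥ 0` and `> 1` for
`k < 0` (`Trap`, `hb1`, `hb2`, by induction; if `‖x‖ > 1` then `‖G⁻¹ x‖ > 1`). There is `δ > 0` such that no
point of the orbit and not the origin satisfies `| ‖x‖ - 1 | < δ`: the points with `k ≥ 1` lie in the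
compact set `G '' closedBall 0 1 ⊆ ball 0 1`, those with `k ≤ -2` in `{x | 1 ≤ ‖G x‖}`, a closed set
disjoint from the compact ball `closedBall 0 1` (positive distance), and `b`, `G⁻¹ b` are two more
points. So `LD 1 T x` for `| ‖x‖ - 1 | < δ`, and `mazur` gives `θ`, `ε`. (1) `u = θ⁻¹ * T` is the identity
for `| ‖x‖ - 1 | < ε`; `û` from `cut`. (2) Let `δ₀ = G θ⁻¹ τ⁻¹ θ` (`τ = tau`; `PD 1`). For `y = G x` with `|
‖x‖ - 1 | < ε'` (small, so that `‖G x‖ < 1`: compactness of the sphere): `u y = θ⁻¹ T G x = θ⁻¹ τ T x =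
θ⁻¹ τ θ x = δ₀⁻¹ y`, and `û y = u y`. So `w = G⁻¹ (δ₀ û) G` is the identity for `| ‖x‖ - 1 | < ε'`; `ŵ` from
`cut`. (3) `ζ = û * (G * ŵ⁻¹ * G⁻¹)`. If `‖G⁻¹ y‖ < 1`: `ŵ⁻¹ = w⁻¹` on the open unit ball (`ŵ = w` there, and
`ŵ` maps the open unit ball onto itself because it is the identity off it), so `ζ y = û (δ₀ û)⁻¹ y = δ₀⁻¹
y`. If `1 - ε' < ‖G⁻¹ y‖`: `ŵ⁻¹ (G⁻¹ y) = G⁻¹ y` and `ζ y = û y`. Smoothness at `y ≠ 0, b`: if `‖G⁻¹ y‖ <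
1`, `ζ = δ₀⁻¹` near `y`. If `‖G⁻¹ y‖ ≥ 1` then `ζ = û` near `y`, and either `‖y‖ > 1 - ε`, `û` is the
identity near `y`, or `‖y‖ < 1 + ε` (one of the two holds) and `û = u = θ⁻¹ T` near `y`: if also `‖y‖ ≤ 1 -
ε < 1`, `y` is not in the orbit of `b` (`k ≥ 1` is excluded by `‖G⁻¹ y‖ ≥ 1`, `k ≤ -1` by `‖y‖ < 1`, `k = 0`
by `y ≠ b`), so `LD 1 T y`, and `θ⁻¹` is `LD 1` at `T y ≠ 0`. Near `b`: `‖b‖ < 1`, `‖G⁻¹ b‖ > 1`, so `ζ = û
= θ⁻¹ T` near `b`. Near infinity `ζ y = û y = y` (`‖G⁻¹ y‖ → ∞`).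
`key_trap`: PROOF. `zeta` gives `ζ, θ`. `germ_exists` for `ζ` at `b` gives `η₂`; `two_sing` with `ξ = δ₀⁻¹`:
`Ext (δ₀⁻¹ * η₂)`. `germ_conj` (`s = 1`, `k = 1`, `T = T`, `T₂ = ζ`, `Λ = id`, `D = θ⁻¹`): `Eqv η η₂`. In the
class group: `cls δ₀ = cls η`, and `cls δ₀ = cls G` (`Ext tau`: `tau` is a linear diffeomorphism, see
`Ext_tau` or similar; commutativity), so `Eqv η G`.
-/

set_option autoImplicit false

open scoped ContDiff Topology Manifold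
open Set Filter Metric

namespace Pool.Agent.Rot6

open Pool.Agent.HopfCov hiding pr
open Pool.Agent.HopfCov.Smooth
open Pool.Agent.HopfFin
open Pool.Agent.Rot4

private theorem KeyTrap_out {G : E4 ≃ₜ E4} (ht : Trap G) {x : E4} (hx : 1 < ‖x‖) :
    1 < ‖(G⁻¹ : E4 ≃ₜ E4) x‖ := by
  by_contra h
  push Not at h
  have h1 := ht _ h
  rw [apply_inv_self'] at h1
  linarith

private theorem KeyTrap_pos {G : E4 ≃ₜ E4} {b : E4} (ht : Trap G) (hb1 : ‖b‖ < 1) (n : ℕ) :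
    ‖(G ^ (n : ℤ) : E4 ≃ₜ E4) b‖ < 1 := by
  induction n with
  | zero => simpa using hb1
  | succ n ih =>
    have h1 : (((n + 1 : ℕ) : ℤ)) = 1 + (n : ℤ) := by push_cast; ring
    rw [h1, zpow_apply_add, zpow_one]
    exact ht _ ih.le

private theorem KeyTrap_neg {G : E4 ≃ₜ E4} {b : E4} (ht : Trap G)
    (hb2 : 1 < ‖(G⁻¹ : E4 ≃ₜ E4) b‖) (n : ℕ) :
    1 < ‖(G ^ (-1 - (n : ℤ)) : E4 ≃ₜ E4) b‖ := by
  induction n with
  | zero =>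
    have h1 : (-1 - ((0 : ℕ) : ℤ)) = -1 := by norm_num
    rw [h1, zpow_neg_one]
    exact hb2
  | succ n ih =>
    have h1 : (-1 - ((n + 1 : ℕ) : ℤ)) = -1 + (-1 - (n : ℤ)) := by push_cast; ring
    rw [h1, zpow_apply_add, zpow_neg_one]
    exact KeyTrap_out ht ih

private theorem KeyTrap_ball {G : E4 ≃ₜ E4} (ht : Trap G) :
    ∃ δ : ℝ, 0 < δ ∧ ∀ x : E4, ‖x‖ ≤ 1 + δ → ‖G x‖ < 1 := by
  have h1 : IsCompact (closedBall (0 : E4) 1) := isCompact_closedBall _ _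
  have h2 : IsOpen {x : E4 | ‖G x‖ < 1} := isOpen_lt (G.continuous.norm) continuous_const
  have h3 : closedBall (0 : E4) 1 ⊆ {x : E4 | ‖G x‖ < 1} := by
    intro x hx
    exact ht x (by simpa using hx)
  obtain ⟨δ, hδ, h4⟩ := h1.exists_cthickening_subset_open h2 h3
  refine ⟨δ, hδ, fun x hx => h4 ?_⟩
  rw [cthickening_closedBall hδ.le zero_le_one]
  rw [mem_closedBall_zero_iff]
  linarith

private theorem KeyTrap_max {G : E4 ≃ₜ E4} (ht : Trap G) :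
    ∃ r : ℝ, r < 1 ∧ ∀ x : E4, ‖x‖ ≤ 1 → ‖G x‖ ≤ r := by
  have h1 : IsCompact (closedBall (0 : E4) 1) := isCompact_closedBall _ _
  obtain ⟨x, hx, hmax⟩ := h1.exists_isMaxOn (f := fun x : E4 => ‖G x‖)
    ⟨0, by simp⟩ (G.continuous.norm.continuousOn)
  refine ⟨‖G x‖, ht x (by simpa using hx), fun y hy => ?_⟩
  exact hmax (by simpa using hy)

private theorem KeyTrap_gap {G T : E4 ≃ₜ E4} {b : E4} (ht : Trap G)
    (hb1 : ‖b‖ < 1) (hb2 : 1 < ‖(G⁻¹ : E4 ≃ₜ E4) b‖) (hL : Off1 G T b) :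
    ∃ δ : ℝ, 0 < δ ∧ ∀ x : E4, |‖x‖ - 1| < δ → LD 1 T x := by
  obtain ⟨δ₁, hδ₁, h1⟩ := KeyTrap_ball ht
  obtain ⟨r, hr, h2⟩ := KeyTrap_max ht
  refine ⟨min (min δ₁ (1 - r)) (min (min (‖(G⁻¹ : E4 ≃ₜ E4) b‖ - 1) (1 - ‖b‖)) 1),
    lt_min (lt_min hδ₁ (by linarith)) (lt_min (lt_min (by linarith) (by linarith)) one_pos),
    fun x hx => ?_⟩
  rw [lt_min_iff, lt_min_iff, lt_min_iff, lt_min_iff] at hx
  obtain ⟨⟨ha, hb⟩, ⟨hc, hd⟩, he⟩ := hx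
  rw [abs_lt] at ha hb hc hd he
  refine hL x ?_ ?_
  · rintro rfl
    rw [norm_zero] at he
    linarith [he.1]
  · rintro k rfl
    rcases lt_trichotomy k 0 with hk | hk | hk
    · rcases (by omega : k = -1 ∨ k ≤ -2) with h | h
      · subst h
        rw [zpow_neg_one] at hc
        linarith [hc.2]
      · obtain ⟨n, hn⟩ := Int.eq_ofNat_of_zero_le (show (0 : ℤ) ≤ -2 - k by omega)
        have h3 : 1 + k = -1 - (n : ℤ) := by omega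
        have h4 := KeyTrap_neg ht hb2 n
        rw [← h3, zpow_apply_add, zpow_one] at h4
        by_contra
        have h5 : ‖(G ^ k : E4 ≃ₜ E4) b‖ ≤ 1 + δ₁ := by linarith [ha.2]
        linarith [h1 _ h5]
    · subst hk
      rw [zpow_zero, one_apply'] at hd
      linarith [hd.1]
    · obtain ⟨n, hn⟩ := Int.eq_ofNat_of_zero_le (show (0 : ℤ) ≤ k - 1 by omega)
      have h3 : k = 1 + (n : ℤ) := by omega
      have h4 := h2 _ (KeyTrap_pos ht hb1 n).le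
      rw [h3, zpow_apply_add, zpow_one] at hb
      linarith [hb.1]

theorem zeta {G T : E4 ≃ₜ E4} {b : E4} (hG : PD 1 G) (ht : Trap G)
    (hT0 : T 0 = 0) (hTG : T * G = tau * T) (hb1 : ‖b‖ < 1) (hb2 : 1 < ‖(G⁻¹ : E4 ≃ₜ E4) b‖)
    (hL : Off1 G T b) : ∃ ζ θ : E4 ≃ₜ E4, PD 1 θ ∧ ζ 0 = 0 ∧
      (∀ x, x ≠ 0 → x ≠ b → LD 1 ζ x) ∧ CS ζ ∧ (∀ᶠ x in 𝓝 b, ζ x = (θ⁻¹ : E4 ≃ₜ E4) (T x)) ∧
      ∀ᶠ x in 𝓝 (0 : E4), ζ x = (G * θ⁻¹ * tau⁻¹ * θ : E4 ≃ₜ E4)⁻¹ x := by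
  classical
  obtain ⟨δ₁, hδ₁, hball⟩ := KeyTrap_ball ht
  obtain ⟨δ, hδ, hLD⟩ := KeyTrap_gap (T := T) ht hb1 hb2 hL
  obtain ⟨θ, ε, hθ, hε, hθT⟩ := mazur hT0 hδ hLD
  have hu : ∀ x, |‖x‖ - 1| < ε → (θ⁻¹ * T : E4 ≃ₜ E4) x = x := by
    intro x hx
    rw [mul_apply', ← hθT x hx, inv_apply_self']
  obtain ⟨U, hU1, hU2⟩ := cut hε hu
  obtain ⟨D, hD⟩ : ∃ D : E4 ≃ₜ E4, D = G * θ⁻¹ * tau⁻¹ * θ := ⟨_, rfl⟩
  have hDP : PD 1 D := by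
    rw [hD]
    exact ((hG.mul_one' hθ.inv).mul_one' PD_tau.inv).mul_one' hθ
  obtain ⟨ε', hε', hε'1, hε'2⟩ : ∃ ε' : ℝ, 0 < ε' ∧ ε' ≤ ε ∧ ε' ≤ δ₁ :=
    ⟨min ε δ₁, lt_min hε hδ₁, min_le_left _ _, min_le_right _ _⟩
  have hTG' : ∀ x, T (G x) = tau (T x) := fun x => by
    rw [← mul_apply', hTG, mul_apply']
  have hDG : ∀ x, |‖x‖ - 1| < ε' → D (U (G x)) = G x := by
    intro x hx
    have h1 : ‖G x‖ < 1 := by
      refine hball x ?_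
      have := (abs_lt.1 hx).2
      linarith
    rw [hU1 _ (by linarith), mul_apply', hTG', ← hθT x (lt_of_lt_of_le hx hε'1), hD]
    show G ((θ⁻¹ : E4 ≃ₜ E4) ((tau⁻¹ : E4 ≃ₜ E4) (θ ((θ⁻¹ : E4 ≃ₜ E4) (tau (θ x)))))) = G x
    rw [apply_inv_self', inv_apply_self', inv_apply_self']
  have hw : ∀ x, |‖x‖ - 1| < ε' → (G⁻¹ * (D * U) * G : E4 ≃ₜ E4) x = x := by
    intro x hx
    show (G⁻¹ : E4 ≃ₜ E4) (D (U (G x))) = x
    rw [hDG x hx, inv_apply_self']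
  obtain ⟨V, hV1, hV2⟩ := cut hε' hw
  obtain ⟨ζ, hζ⟩ : ∃ ζ : E4 ≃ₜ E4, ζ = U * (G * V⁻¹ * G⁻¹) := ⟨_, rfl⟩
  have hζa : ∀ y, ζ y = U (G ((V⁻¹ : E4 ≃ₜ E4) ((G⁻¹ : E4 ≃ₜ E4) y))) := fun y => by
    rw [hζ]
    rfl
  -- inside
  have hin : ∀ y, ‖(G⁻¹ : E4 ≃ₜ E4) y‖ < 1 → ζ y = (D⁻¹ : E4 ≃ₜ E4) y := by
    intro y hy
    obtain ⟨z', hz'⟩ : ∃ z', z' = (V⁻¹ : E4 ≃ₜ E4) ((G⁻¹ : E4 ≃ₜ E4) y) := ⟨_, rfl⟩
    have h1 : V z' = (G⁻¹ : E4 ≃ₜ E4) y := by rw [hz', apply_inv_self']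
    have h2 : ‖z'‖ < 1 := by
      by_contra h
      push Not at h
      rw [hV2 z' (by linarith)] at h1
      rw [h1] at h
      linarith
    rw [hV1 z' (by linarith)] at h1
    have h3 : (G⁻¹ : E4 ≃ₜ E4) (D (U (G z'))) = (G⁻¹ : E4 ≃ₜ E4) y := h1
    have h4 : D (U (G z')) = y := (G⁻¹ : E4 ≃ₜ E4).injective h3
    rw [hζa, ← hz', ← h4, inv_apply_self']
  -- outside
  have hout : ∀ y, 1 - ε' < ‖(G⁻¹ : E4 ≃ₜ E4) y‖ → ζ y = U y := by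
    intro y hy
    have h1 : (V⁻¹ : E4 ≃ₜ E4) ((G⁻¹ : E4 ≃ₜ E4) y) = (G⁻¹ : E4 ≃ₜ E4) y := by
      conv_lhs => rw [← hV2 _ hy]
      rw [inv_apply_self']
    rw [hζa, h1, apply_inv_self']
  have hcG : Continuous fun y : E4 => ‖(G⁻¹ : E4 ≃ₜ E4) y‖ := (G⁻¹ : E4 ≃ₜ E4).continuous.norm
  have hev1 : ∀ y, ‖(G⁻¹ : E4 ≃ₜ E4) y‖ < 1 → ∀ᶠ x in 𝓝 y, ζ x = (D⁻¹ : E4 ≃ₜ E4) x := by
    intro y hy
    filter_upwards [(isOpen_lt hcG continuous_const).mem_nhds hy] with x hx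
    exact hin x hx
  have hev2 : ∀ y, 1 - ε' < ‖(G⁻¹ : E4 ≃ₜ E4) y‖ → ∀ᶠ x in 𝓝 y, ζ x = U x := by
    intro y hy
    filter_upwards [(isOpen_lt continuous_const hcG).mem_nhds hy] with x hx
    exact hout x hx
  have hevU : ∀ y : E4, ‖y‖ < 1 + ε → ∀ᶠ x in 𝓝 y, U x = (θ⁻¹ * T : E4 ≃ₜ E4) x := by
    intro y hy
    filter_upwards [(isOpen_lt continuous_norm continuous_const).mem_nhds hy] with x hx
    exact hU1 x hx
  have h0 : ‖(G⁻¹ : E4 ≃ₜ E4) 0‖ < 1 := by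
    rw [hG.inv_zero, norm_zero]
    exact one_pos
  refine ⟨ζ, θ, hθ, ?_, ?_, ?_, ?_, ?_⟩
  · rw [hin 0 h0]
    exact hDP.inv_zero
  · intro y hy0 hyb
    by_cases hc : ‖(G⁻¹ : E4 ≃ₜ E4) y‖ < 1
    · refine (hDP.inv.2 y hy0).congr ?_
      filter_upwards [hev1 y hc] with x hx
      exact hx.symm
    · push Not at hc
      have h1 := hev2 y (by linarith)
      by_cases hn : 1 - ε < ‖y‖
      · refine (LD_one y).congr ?_
        filter_upwards [h1, (isOpen_lt continuous_const continuous_norm).mem_nhds hn] with x hx hx'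
        rw [hx, hU2 x hx', one_apply']
      · push Not at hn
        have hyT : LD 1 T y := by
          refine hL y hy0 fun k hk => ?_
          rcases lt_trichotomy k 0 with hk0 | hk0 | hk0
          · obtain ⟨n, hn'⟩ := Int.eq_ofNat_of_zero_le (show (0 : ℤ) ≤ -1 - k by omega)
            have h3 : k = -1 - (n : ℤ) := by omega
            have h4 := KeyTrap_neg ht hb2 n
            rw [← h3, ← hk] at h4
            linarith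
          · subst hk0
            rw [zpow_zero, one_apply'] at hk
            exact hyb hk
          · obtain ⟨n, hn'⟩ := Int.eq_ofNat_of_zero_le (show (0 : ℤ) ≤ k - 1 by omega)
            have h3 : k = 1 + (n : ℤ) := by omega
            have h4 := KeyTrap_pos ht hb1 n
            rw [h3, zpow_apply_add, zpow_one] at hk
            rw [hk, inv_apply_self'] at hc
            linarith
        have hTy : T y ≠ 0 := fun h => hy0 (T.injective (h.trans hT0.symm))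
        have h2 : LD 1 (θ⁻¹ * T : E4 ≃ₜ E4) y := (hθ.inv.2 _ hTy).mul_one' hyT
        refine h2.congr ?_
        filter_upwards [h1, hevU y (by linarith)] with x hx hx'
        rw [hx, hx']
  · have hUc : CS U := CS_of_supp (R := 1) fun x hx => hU2 x (by linarith)
    have hVc : CS V := CS_of_supp (R := 1) fun x hx => hV2 x (by linarith)
    have h1 : EqInf (G * V⁻¹ * G⁻¹) (G * 1 * G⁻¹) :=
      ((EqInf.refl G).mul hVc.inv.eqInf).mul (EqInf.refl _)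
    have h2 : G * 1 * G⁻¹ = (1 : E4 ≃ₜ E4) := by group
    rw [h2] at h1
    rw [hζ]
    exact hUc.mul (CS.of_eqInf h1)
  · filter_upwards [hev2 b (by linarith), hevU b (by linarith)] with x hx hx'
    rw [hx, hx', mul_apply']
  · filter_upwards [hev1 0 h0] with x hx
    rw [hx, hD]

theorem key_trap {G T η : E4 ≃ₜ E4} {b : E4} (hG : PD 1 G) (ht : Trap G)
    (hT0 : T 0 = 0) (hTG : T * G = tau * T) (hb1 : ‖b‖ < 1) (hb2 : 1 < ‖(G⁻¹ : E4 ≃ₜ E4) b‖)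
    (hL : Off1 G T b) (hη : Germ T b η) : Eqv η G := by
  obtain ⟨ζ, θ, hθ, hζ0, hζL, hζcs, hζb, hζn⟩ := zeta hG ht hT0 hTG hb1 hb2 hL
  have hb0 : b ≠ 0 := by
    rintro rfl
    have h1 : (G⁻¹ : E4 ≃ₜ E4) 0 = 0 := hG.inv.1
    rw [h1, norm_zero] at hb2
    linarith
  have hTb : T b ≠ 0 := by
    intro h1
    rw [← hT0] at h1
    exact hb0 (T.injective h1)
  -- the germ of `ζ` at `b`
  have h1 : ∀ᶠ x in 𝓝 b, x ≠ b → LD 1 ζ x := by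
    filter_upwards [isOpen_compl_singleton.mem_nhds (show b ∈ ({0}ᶜ : Set E4) from hb0)]
      with x hx hxb
    exact hζL x hx hxb
  obtain ⟨η₂, hη₂⟩ := germ_exists h1
  have hδ : PD 1 (G * θ⁻¹ * tau⁻¹ * θ) :=
    ((hG.mul_one' hθ.inv).mul_one' PD_tau.inv).mul_one' hθ
  have h2 : Ext ((G * θ⁻¹ * tau⁻¹ * θ)⁻¹ * η₂) :=
    two_sing hζ0 hb0 hζL hζcs hη₂ hδ.inv (hζn.mono fun x hx => hx.symm)
  -- the germs of `T` and `ζ` at `b`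
  have h3 : Eqv (1 * η * 1⁻¹) η₂ := by
    refine germ_conj (s := 1) (T := T) (T₂ := ζ) (x₀ := b) (Λ := id)
      (D := (θ⁻¹ : E4 ≃ₜ E4)) (one_mul 1) hη hη₂ (Eventually.of_forall fun x => LD_id x) ?_ hζb
      PD_one
    filter_upwards [isOpen_compl_singleton.mem_nhds
      (show T (id b) ∈ ({0}ᶜ : Set E4) from hTb)] with y hy
    exact hθ.inv.2 y hy
  have h4 : Eqv η η₂ := by
    have e : 1 * η * 1⁻¹ = η := by group
    rwa [e] at h3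
  have h5 : Eqv (G * θ⁻¹ * tau⁻¹ * θ) η₂ := by
    have h6 := Ext.conj hGerm hSwap hdim4 (one_mul 1) h2 hδ
    have e : G * θ⁻¹ * tau⁻¹ * θ * ((G * θ⁻¹ * tau⁻¹ * θ)⁻¹ * η₂) *
        (G * θ⁻¹ * tau⁻¹ * θ)⁻¹ = η₂ * (G * θ⁻¹ * tau⁻¹ * θ)⁻¹ := by group
    rw [e] at h6
    exact h6
  have h7 : Eqv G (G * θ⁻¹ * tau⁻¹ * θ) := by
    have h8 : Ext (θ⁻¹ * tau⁻¹ * θ⁻¹⁻¹) :=
      Ext.conj hGerm hSwap hdim4 (one_mul 1) (Ext_tau (E := E4)).inv hθ.inv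
    have h9 := Ext.conj hGerm hSwap hdim4 (one_mul 1) h8 hG
    have e : G * (θ⁻¹ * tau⁻¹ * θ⁻¹⁻¹) * G⁻¹ = G * θ⁻¹ * tau⁻¹ * θ * G⁻¹ := by group
    rw [e] at h9
    exact h9
  exact h4.trans (h5.symm.trans h7.symm)

end Pool.Agent.Rot6
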