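import Pool.Agent.Rot6.Sign

/-!
# Local coordinates of the 4-sphere at the points off the 2-sphere

`crd n c x = sph n (q1 (c + x))`: for `Om c` a local diffeomorphism at the origin.

`ld_crd`: PROOF. `reg_q1` (`Rot4/CoordReg.lean`), `ld_sph` (`Rot5/SphCov.lean`), translation;
`LDA.comp'`, `ldAt_iff`; `LDA` is `IsLocalDiffeomorphAt (𝓡 4) (𝓡 4) ∞`.
`lift_local`: PROOF. `P` is a local diffeomorphism at `0` with `P 0 = α 0`; let `e` be the partial
diffeomorphism of `P` at `0` (`IsLocalDiffeomorphAt`), `Λ = e.symm ∘ α`. `Λ 0 = 0`, it is a local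
diffeomorphism at `0` (hence `Reg Λ 0` by `ldAt_iff`: being a local diffeomorphism at `0` is an open
condition), and `P (Λ x) = α x` for `x` near `0` (`α x` is in the target).
`inj_local`: `P` is injective near `0`: if `u, v → 0` and `P u = P v` then `u = v` eventually;
stated with a neighbourhood.
-/

set_option autoImplicit false

open scoped ContDiff Topology Manifold
open Set Filter Metric

namespace Pool.Agent.Rot6

open Pool.Agent.HopfCov hiding pr
open Pool.Agent.HopfCov.Smooth
open Pool.Agent.HopfFin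
open Pool.Agent.Rot4
open Pool.Agent.Rot5

/-- local coordinates -/
noncomputable def crd (n : ℕ) (c x : E4) : Sph4 := sph n (q1 (c + x))

/-- a local diffeomorphism from `ℝ⁴` to the 4-sphere at the origin -/
def LDS (α : E4 → Sph4) : Prop := IsLocalDiffeomorphAt (𝓡 4) (𝓡 4) ∞ α 0

private theorem Local_add (c x : E4) : LDA (fun z : E4 => c + z) x := by
  rw [ldAt_iff]
  refine Filter.Eventually.of_forall fun w => ⟨(contDiff_const.add contDiff_id).contDiffAt, ?_⟩
  have h1 : fderiv ℝ (fun z : E4 => c + z) w = ContinuousLinearMap.id ℝ E4 := by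
    rw [fderiv_const_add]
    exact fderiv_fun_id
  rw [h1]
  have h2 : (ContinuousLinearMap.id ℝ E4).det = 1 := by
    show LinearMap.det (LinearMap.id : E4 →ₗ[ℝ] E4) = 1
    exact LinearMap.det_id
  rw [h2]
  exact one_ne_zero

theorem ld_crd {n : ℕ} (hn : 0 < n) {c : E4} (hc : Om c) : LDS (crd n c) := by
  have h2 : LDA q1 (c + 0) := ldAt_iff.2 (by rw [add_zero]; exact reg_q1 hc)
  have h3 : LDA (fun z : E4 => q1 (c + z)) 0 :=
    LDA.comp' (f := fun z : E4 => c + z) (g := q1) h2 (Local_add c 0)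
  exact LDA.comp' (Z := Sph4.carrier) (f := fun z : E4 => q1 (c + z)) (g := sph n)
    (ld_sph hn _) h3

theorem lift_local {P α : E4 → Sph4} (hP : LDS P) (hα : LDS α) (h : P 0 = α 0) :
    ∃ Λ : E4 → E4, Λ 0 = 0 ∧ Reg Λ 0 ∧ ∀ᶠ x in 𝓝 (0 : E4), P (Λ x) = α x := by
  have h1 : LDA (X := Sph4.carrier) (Y := E4) hP.localInverse (P 0) :=
    hP.localInverse_isLocalDiffeomorphAt
  have h0 : hP.localInverse (P 0) = 0 := hP.localInverse_left_inv hP.localInverse_mem_target
  refine ⟨fun x => hP.localInverse (α x), ?_, ?_, ?_⟩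
  · show hP.localInverse (α 0) = 0
    rw [← h, h0]
  · refine ldAt_iff.1 ?_
    exact LDA.comp' (Y := Sph4.carrier) (f := α) (g := hP.localInverse)
      (by rw [← h]; exact h1) hα
  · have h2 : α 0 ∈ hP.localInverse.source := by
      rw [← h]
      exact hP.localInverse_mem_source
    have hc : ContinuousAt α 0 := hα.contMDiffAt.continuousAt
    filter_upwards [hc (hP.localInverse.open_source.mem_nhds h2)] with x hx
    exact hP.localInverse_right_inv hx

theorem inj_local {P : E4 → Sph4} (hP : LDS P) :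
    ∃ U ∈ 𝓝 (0 : E4), InjOn P U := by
  obtain ⟨Φ, h0, hE⟩ := hP
  refine ⟨Φ.source, Φ.open_source.mem_nhds h0, ?_⟩
  intro u hu v hv huv
  rw [hE hu, hE hv] at huv
  exact Φ.toPartialEquiv.injOn hu hv huv

/-- the composition of a local diffeomorphism with a diffeomorphism of the sphere -/
theorem LDS.comp {φ : Sph4 → Sph4} (hφ : ∀ x, LocalDiffeoAt φ x) {α : E4 → Sph4} (hα : LDS α) :
    LDS (fun x => φ (α x)) := by
  exact LDA.comp' (Y := Sph4.carrier) (Z := Sph4.carrier) (f := α) (g := φ) (hφ (α 0)) hα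

/-- a regular germ has a regular inverse germ -/
theorem inv_local {μ : E4 → E4} (h0 : μ 0 = 0) (h : Reg μ 0) :
    ∃ ν : E4 → E4, ν 0 = 0 ∧ Reg ν 0 ∧ ∀ᶠ x in 𝓝 (0 : E4), ν (μ x) = x := by
  have hL : LDA μ 0 := ldAt_iff.2 h
  have h1 : LDA hL.localInverse (μ 0) := hL.localInverse_isLocalDiffeomorphAt
  refine ⟨hL.localInverse, ?_, ?_, ?_⟩
  · have h2 : hL.localInverse (μ 0) = 0 := hL.localInverse_left_inv hL.localInverse_mem_target
    rwa [h0] at h2
  · rw [h0] at h1
    exact ldAt_iff.1 h1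
  · filter_upwards [hL.localInverse.open_target.mem_nhds hL.localInverse_mem_target] with x hx
    exact hL.localInverse_left_inv hx

end Pool.Agent.Rot6
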