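import Pool.Agent.Rot6.RepRef
import Pool.Agent.Rot6.ClsCjV

/-!
# All classes occur

`good_of_trap`: PROOF. As in `ray_off` (`Rot4/RayOff.lean`): `core_point hGerm hSwap hRad hdim4
(one_mul 1) hG ht hc (LinearIsometryEquiv.refl ℝ E4) det_refl_pos` gives `Ψ` with `Ψ 0 = 0`, `Ψ tau
= G Ψ` and `y` such that `Ψ` is `LD 1` at all `x ≠ 0` off the orbit of `y` under `tau`. `T₀ = Ψ⁻¹`:
`T₀ G = tau T₀`, `LD 1` (hence regular) at all `x ≠ 0` with `T₀ x ∉ {tau ^ k y}`. Let `L` be a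
linear isometry of `ℝ⁴` such that `L y` is not on the ray `ℝ≥0 e0` (`L = id` or `L = - id`; if `y =
0` nothing is to be done): `T = linH L * T₀`, `T G = tau T` (`L` commutes with `tau`), and for `t >
0` the point `x = T⁻¹ (t e0)` satisfies `T₀ x = L⁻¹ (t e0)`, which is not `tau ^ k y = 2 ^ (-k) y`;
so `T` is `LD 1` or `LD (-1)` near `x`: `Reg T x` (`Reg` is a statement about the nearby points:
the orbit of `y` together with `0` is closed: `tau_orbit_open`).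
`surj`: PROOF. `exists_orbit_pos hd` (`HopfRem/Class1.lean`) gives `M, p, G₀`, `IsOrbit M p G₀`,
`PD 1 G₀`, `Ext (G₀ * d⁻¹)`; `h.data` gives `Trap G₀`, `Contr G₀`. `Off G₀` (`⟨G₀, trap,
Cj.refl⟩`). `good_of_trap`: `T`. `G₀ ^ n` is `PD 1`, `Contr` (`Contr.pow`), `Off` (`Trap (G₀ ^ n)`:
`n > 0`), `Ext`: the class of `G₀ ^ n` is the class of `d ^ n` (`Mir.pow`, `Mir.ext_iff`,
`Mir.of_eqv`). `std_of_Off`: `Cj (G₀ ^ n) tau`, with `Cj_tau_pow` (`Cj tau (tau ^ n)`): `Cj (G₀ ^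
n) (tau ^ n)`. `norm_rel` gives `G₁, H`, `Cj G₀ G₁`; `act_down` gives `f`, `Action n f`, `Pair n f
G₁ H`; `norm_of_act` gives `g, h`; `rep_of_pair`: `Rep n g f G₁ H G'`. `Off G₁` by `Off.congr`.
`mir_of_Cj`: `Mir G₀ G₁`, so `Mir d G₁`. `Mir.eqv_or` with `r = rH`: if `Eqv d G₁` done. If `Eqv
(rH d rH⁻¹) G₁`: `rep_ref` gives `g₃, h₃` with the generator `rH G₁ rH⁻¹`, and `Eqv (rH (rH d rH⁻¹)
rH⁻¹) (rH G₁ rH⁻¹)` (`Eqv.conj`), `Eqv d (rH (rH d rH⁻¹) rH⁻¹)` by `Eqv.of_conj` with `rH * rH`,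
`PD 1` (`rH * rH = 1`). `Off (rH G₁ rH⁻¹)`: `Off.congr` (`Cj` with `Φ = rH`).
-/

set_option autoImplicit false

open scoped ContDiff Topology Manifold
open Set Filter Metric

namespace Pool.Agent.Rot6

open Pool.Agent.HopfCov hiding pr
open Pool.Agent.HopfCov.Smooth
open Pool.Agent.HopfFin
open Pool.Agent.Rot4
open Pool.Agent.Rot5

theorem good_of_trap {G : E4 ≃ₜ E4} (hG : PD 1 G) (ht : Trap G) (hc : Contr G) :
    ∃ T : E4 ≃ₜ E4, Good G T e0 := by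
  obtain ⟨Ψ, f1, f2, y, f3⟩ := core_point hGerm hSwap hRad hdim4 (one_mul 1) hG ht hc
    (LinearIsometryEquiv.refl ℝ E4) det_refl_pos
  have f2' : Ψ * tau = G * Ψ := Homeomorph.ext f2
  have he0 : (e0 : E4) ≠ 0 := fun h => by
    have h1 := norm_e0
    rw [h, norm_zero] at h1
    exact zero_ne_one h1
  -- a ray which does not meet the singular orbit
  obtain ⟨v, hv, hvk⟩ : ∃ v : E4, ‖v‖ = 1 ∧
      ∀ t : ℝ, 0 < t → ∀ k : ℤ, t • v ≠ (tau ^ k : E4 ≃ₜ E4) y := by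
    by_cases hy : ∃ s : ℝ, 0 < s ∧ y = s • e0
    · obtain ⟨s, hs, hy⟩ := hy
      refine ⟨-e0, by rw [norm_neg, norm_e0], fun t ht k hk => ?_⟩
      rw [tau_zpow_apply, hy, smul_smul, smul_neg] at hk
      have h1 : (t + (2 : ℝ) ^ (-k) * s) • (e0 : E4) = 0 := by
        rw [add_smul, ← hk]
        exact add_neg_cancel _
      have h2 : 0 < (2 : ℝ) ^ (-k) * s := mul_pos (zpow_pos two_pos _) hs
      rcases smul_eq_zero.1 h1 with h3 | h3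
      · linarith
      · exact he0 h3
    · refine ⟨e0, norm_e0, fun t ht k hk =>
        hy ⟨(2 : ℝ) ^ k * t, mul_pos (zpow_pos two_pos _) ht, ?_⟩⟩
      rw [mul_smul, hk, tau_zpow_apply, smul_smul, ← zpow_add₀ two_ne_zero, add_neg_cancel,
        zpow_zero, one_smul]
  have hΨ0 : (Ψ⁻¹ : E4 ≃ₜ E4) 0 = 0 := by
    have := inv_apply_self' Ψ 0
    rwa [f1] at this
  refine Good.rotate (T := Ψ⁻¹) (v := v) ⟨hΨ0, ?_, fun t ht => ?_⟩ hv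
  · calc Ψ⁻¹ * G = Ψ⁻¹ * (G * Ψ) * Ψ⁻¹ := by group
      _ = tau * Ψ⁻¹ := by rw [← f2']; group
  · rw [inv_inv]
    have hw : t • v ≠ 0 := smul_ne_zero ht.ne' fun h => by
      rw [h, norm_zero] at hv
      exact zero_ne_one hv
    have h1 : ∀ᶠ z in 𝓝 (t • v), LD 1 Ψ z := by
      filter_upwards [tau_orbit_open hw (hvk t ht)] with z hz
      exact f3 z hz.1 hz.2
    have h4 : Tendsto (Ψ⁻¹ : E4 ≃ₜ E4) (𝓝 (Ψ (t • v))) (𝓝 (t • v)) := by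
      have h5 := (Ψ⁻¹ : E4 ≃ₜ E4).continuous.continuousAt (x := Ψ (t • v))
      rw [ContinuousAt, inv_apply_self'] at h5
      exact h5
    filter_upwards [h4.eventually h1] with z hz
    have h5 := LD.inv Ψ hz
    rw [apply_inv_self'] at h5
    refine ⟨h5.1, fun h => ?_⟩
    have h6 := h5.2
    rw [h, mul_zero] at h6
    exact lt_irrefl _ h6

private theorem SurjB_rH_sq : rH * rH = 1 := by
  refine Homeomorph.ext fun x => ?_
  change rH (rH x) = x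
  ext i
  fin_cases i <;> simp [rH]

private theorem SurjB_rH_conj (d : E4 ≃ₜ E4) : rH * (rH * d * rH⁻¹) * rH⁻¹ = d := by
  have e : rH * (rH * d * rH⁻¹) * rH⁻¹ = (rH * rH) * d * (rH * rH)⁻¹ := by group
  rw [e, SurjB_rH_sq, one_mul, inv_one, mul_one]

theorem surj {n : ℕ} (hn : 0 < n) {d : E4 ≃ₜ E4} (hd : PD 1 d) (hdn : Ext (d ^ n)) :
    ∃ (g h : Sph4 ≃ₜ Sph4) (f G H G' : E4 ≃ₜ E4), NormAct n g h ∧ Rep n g f G H G' ∧ Off G ∧
      Eqv d G := by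
  obtain ⟨M, p, G₀, hM, hG₀, hE₀⟩ := exists_orbit_pos hd
  obtain ⟨-, -, -, ht, hc, -⟩ := hM.data
  have hO : Off G₀ := ⟨G₀, ht, Cj.refl _⟩
  obtain ⟨T, hT⟩ := good_of_trap hG₀ ht hc
  have hE0 : Eqv d G₀ := hE₀
  have hEn : Ext (G₀ ^ n) :=
    (Mir.ext_iff (Mir.pow hd hG₀ (Mir.of_eqv hE0) n)).1 hdn
  have hst : Cj (G₀ ^ n) tau :=
    std_of_Off (hG₀.pow n) (hc.pow hn) ⟨G₀ ^ n, fun x hx => ht.pow_lt hn hx, Cj.refl _⟩ hEn
  have hCj : Cj (G₀ ^ n) (tau ^ n) := hst.trans (HopfFree.Cj_tau_pow hn).symm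
  obtain ⟨G₁, H, hC1, hS1, hH0, hHc, hHn, hHe⟩ := norm_rel (Sm_of_PD hG₀) hT hn hCj
  obtain ⟨f, hA, hP⟩ := act_down hn hS1 hH0 hHc hHn hHe
  obtain ⟨g, h, hNA, hgs⟩ := norm_of_act hn hA
  obtain ⟨G', hR⟩ := rep_of_pair hn hA hP hgs
  have hO1 : Off G₁ := (Off.congr hC1).1 hO
  have hM1 : Mir d G₁ := (Mir.of_eqv hE0).trans (mir_of_Cj hC1)
  rcases Mir.eqv_or hd PD_rH hM1 with h1 | h1
  · exact ⟨g, h, f, G₁, H, G', hNA, hR, hO1, h1⟩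
  · obtain ⟨g₃, h₃, f₃, H₃, G₃', hN3, hR3, -⟩ := rep_ref hn hNA hR
    refine ⟨g₃, h₃, f₃, rH * G₁ * rH⁻¹, H₃, G₃', hN3, hR3, (Off.congr ?_).1 hO1, ?_⟩
    · exact Cj_conj G₁ (Sm_of_PD PD_rH)
    · have h2 : Eqv (rH * (rH * d * rH⁻¹) * rH⁻¹) (rH * G₁ * rH⁻¹) :=
        Eqv.conj (by norm_num) h1 PD_rH
      rwa [SurjB_rH_conj] at h2

end Pool.Agent.Rot6
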