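import Pool.Agent.Rot6.Local

/-!
# The lift of a given singular linearisation

`rep_over`: PROOF. As in the proof of `rep_exists` (`Rot5/RepS.lean`): `desc` for `g` (`a = 1`) and `h` (`a =
0`) gives `f`, `k`; `Action n f` with `k` in the field `top`. As in the proof of `act_up`
(`Rot4/ActUp.lean`), but with this `k` instead of the one chosen from `hf.top`: `up` gives `G`,
`lift_conj hn hG hc (Nn.tau n) (Corr_tau hn) (h := k)` gives `H` with `Nn n 0 H`, `Corr n H k`, `H * G = tau *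
H`; `Pair n f G H`. `rep_of_pair` gives `G'`. For `Om x`: `sph n (q1 (H x)) = sg (q2 n (q1 (H x))) = sg (k
(q2 n (q1 x))) = h (sg (q2 n (q1 x))) = h (sph n (q1 x))`.
`rep_sing`: PROOF. `rep_over`. `y` is not on the 2-sphere (`NormAct.fix`), so `y = sph n z₀` (`sph_surj`), `b =
b1 z₀` (`Om_b1`, `q1_b1`). Let `x ≠ 0` not be in the orbit of `b`. If `¬ Om x`: `x = t e0` (`not_Om_iff`), `t >
0`, `H` is the identity near `x` (`reg_of_agree`, `Nn.agree`). If `Om x`: `sph n (q1 x)` is not in the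
`g`-orbit of `y`: `g^[j] y = sph n ((G' ^ j) (q1 b))` (private `sph_iter_LinAbs` in `Rot5/LinAbs.lean`), so
`sph n (q1 x) = g^[j] y` would give `q1 x = shf (n i) ((G' ^ j) (q1 b)) = (G' ^ (n i + j)) (q1 b) = q1 ((G ^
(n i + j)) b)` (`sph_eq`, `per_LinAbs`, `crd_zpow`) and `x = (G ^ (n i + j)) b`. So `h` is a local
diffeomorphism at `sph n (q1 x)`. The map `H' = q1 ∘ H ∘ b1` on `ℝ⁴` satisfies `sph n (H' z) = h (sph n
z)`; it is a homeomorphism (`to_coord`), so `lift_reg` (`Rot5/LiftRot.lean`) gives `Reg H' (q1 x)` and `Reg H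
x` (`H = b1 ∘ H' ∘ q1` near `x`: `reg_q1`, `reg_b1`).
-/

set_option autoImplicit false

open scoped ContDiff Topology Manifold
open Set Filter Metric

namespace Pool.Agent.Rot6

open Pool.Agent.HopfCov hiding pr
open Pool.Agent.HopfCov.Smooth
open Pool.Agent.HopfFin
open Pool.Agent.Rot4
open Pool.Agent.Rot5

private theorem TypeRep_iter {g : Sph4 ≃ₜ Sph4} {f : E4 ≃ₜ E4}
    (hd : ∀ y, g (sg y) = sg (f y)) (k : ℕ) (y : E4) :
    g^[k] (sg y) = sg ((f ^ k : E4 ≃ₜ E4) y) := by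
  rw [← iterate_eq]
  induction k with
  | zero => rfl
  | succ k ih => rw [Function.iterate_succ_apply', Function.iterate_succ_apply', ih, hd]

theorem rep_over {n : ℕ} (hn : 0 < n) {g h : Sph4 ≃ₜ Sph4} (hg : NormAct n g h) :
    ∃ f G H G' : E4 ≃ₜ E4, Rep n g f G H G' ∧
      ∀ x, Om x → sph n (q1 (H x)) = h (sph n (q1 x)) := by
  have hg1 : NearS2 fun x => g x = (rotS n)^[1] x := hg.near.mono fun x hx => hx
  have hh1 : NearS2 fun x => h x = (rotS n)^[0] x := hg.top.mono fun x hx => hx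
  obtain ⟨f, hf1, hf2⟩ := desc hg1
  obtain ⟨k, hk1, hk2⟩ := desc hh1
  have hkf : ∀ x, k (f x) = rotate n (k x) := by
    intro x
    apply sg_injective
    rw [← hk2, ← hf2, hg.conj, hk2, sg_rotate]
  have hA : Action n f :=
    { smooth := fun x => ((ld_trans hf2).1 (hg.smooth (sg x))).self_of_nhds
      pow := fun x => by
        show (f ^ n : E4 ≃ₜ E4) x = x
        apply sg_injective
        rw [← TypeRep_iter hf2, hg.pow hn]
      near := hf1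
      top := ⟨k, hk1, hkf⟩ }
  obtain ⟨G, hG, hc⟩ := up hn hf1
  obtain ⟨H, hH, hcH, hconj⟩ := lift_conj hn (f := f) (f' := rotH n) hG hc (Nn.tau n)
    (Corr_tau hn) (h := k) hk1 hkf
  have hpow : f ^ n = 1 := Homeomorph.ext fun x => hA.pow x
  have h1 : Corr n (G ^ n) 1 := by
    rw [← hpow]
    exact hc.pow n
  have h2 : Nn n n (G ^ n) := by
    have := hG.pow n
    rwa [one_mul] at this
  have h3 : Nn n n (tau ^ n) := by
    have := (Nn.tau n).pow n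
    rwa [one_mul] at this
  have hP : Pair n f G H := ⟨hG, hH, hc, hconj, Corr.lift_eq hn h2 h3 h1 (Corr_tau_pow hn),
    (sm_iff hn hG hc hf1).2 hA.smooth⟩
  obtain ⟨G', hR⟩ := rep_of_pair hn hA hP hf2
  refine ⟨f, G, H, G', hR, fun x hx => ?_⟩
  show sg (q2 n (q1 (H x))) = h (sg (q2 n (q1 x)))
  rw [hcH.eq x hx, hk2]

private theorem sph_iter_TypeRepB {n : ℕ} {g : Sph4 ≃ₜ Sph4} {G' : E4 ≃ₜ E4}
    (hl : ∀ z, sph n (G' z) = g (sph n z)) (k : ℕ) (z : E4) :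
    g^[k] (sph n z) = sph n ((G' ^ k : E4 ≃ₜ E4) z) := by
  induction k with
  | zero => rfl
  | succ k ih =>
    rw [Function.iterate_succ_apply', ih, ← hl, pow_succ']
    rfl

private theorem per_TypeRepB {n : ℕ} {G' : E4 ≃ₜ E4} (hp : ∀ z, (G' ^ n : E4 ≃ₜ E4) z = shf n z)
    (j : ℤ) (z : E4) : (G' ^ ((n : ℤ) * j) : E4 ≃ₜ E4) z = shf (n * j) z := by
  rw [zpow_mul, zpow_natCast]
  induction j generalizing z with
  | zero =>
    rw [zpow_zero, Int.cast_zero, mul_zero, shf_zero]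
    rfl
  | succ j ih =>
    have h1 : ((G' ^ n) ^ ((j : ℤ) + 1) : E4 ≃ₜ E4) z =
        ((G' ^ n) ^ (j : ℤ) : E4 ≃ₜ E4) ((G' ^ n : E4 ≃ₜ E4) z) := by
      rw [zpow_add_one]
      rfl
    rw [h1, hp, ih, shf_shf]
    congr 1
    push_cast
    ring
  | pred j ih =>
    have h2 : ((G' ^ n) ^ (-(j : ℤ)) : E4 ≃ₜ E4) = (G' ^ n) ^ (-(j : ℤ) - 1) * G' ^ n := by
      rw [zpow_sub_one, inv_mul_cancel_right]
    have h3 : z = (G' ^ n : E4 ≃ₜ E4) (shf (-(n : ℝ)) z) := by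
      rw [hp, shf_shf, add_neg_cancel, shf_zero]
    have h4 : ((G' ^ n) ^ (-(j : ℤ) - 1) : E4 ≃ₜ E4) z =
        ((G' ^ n) ^ (-(j : ℤ)) : E4 ≃ₜ E4) (shf (-(n : ℝ)) z) := by
      conv_lhs => rw [h3]
      rw [h2]
      rfl
    rw [h4, ih, shf_shf]
    congr 1
    push_cast
    ring

private theorem reg_congr_TypeRepB {f g : E4 → E4} {x : E4} (hf : Reg f x) (h : g =ᶠ[𝓝 x] f) :
    Reg g x := by
  filter_upwards [h.eventuallyEq_nhds, hf] with y hy hy'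
  refine ⟨hy'.1.congr_of_eventuallyEq hy, ?_⟩
  rw [hy.fderiv_eq]
  exact hy'.2

theorem rep_sing {n : ℕ} (hn : 2 ≤ n) {g h : Sph4 ≃ₜ Sph4} (hg : NormAct n g h) {y : Sph4}
    (hy : g y ≠ y) (hr : ∀ x, (∀ k : ℕ, x ≠ g^[k] y) → LocalDiffeoAt h x) :
    ∃ (f G H G' : E4 ≃ₜ E4) (b : E4), Rep n g f G H G' ∧ Om b ∧ sph n (q1 b) = y ∧
      (∀ x, Om x → sph n (q1 (H x)) = h (sph n (q1 x))) ∧
      ∀ x, x ≠ 0 → (∀ k : ℤ, x ≠ (G ^ k : E4 ≃ₜ E4) b) → Reg H x := by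
  have hn0 : 0 < n := by omega
  obtain ⟨f, G, H, G', hR, hsph⟩ := rep_over hn0 hg
  have hyS : ¬ OnS2 y := fun h1 => hy ((hg.fix hn).2 h1)
  obtain ⟨z₀, hz₀⟩ := sph_surj hn0 hyS
  refine ⟨f, G, H, G', b1 z₀, hR, Om_b1 z₀, by rw [q1_b1, hz₀], hsph, fun x hx hk => ?_⟩
  obtain ⟨H', hH1, -, -⟩ := to_coord hR.pair.nnH
  have hH2 : ∀ z, sph n (H' z) = h (sph n z) := by
    intro z
    have h1 : H' z = q1 (H (b1 z)) := by
      conv_lhs => rw [← q1_b1 z]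
      exact hH1 _ (Om_b1 z)
    rw [h1, hsph _ (Om_b1 z), q1_b1]
  by_cases hO : Om x
  · have hld : LocalDiffeoAt h (sph n (q1 x)) := by
      refine hr _ fun k he => ?_
      rw [← hz₀, sph_iter_TypeRepB hR.lift, eq_comm, sph_eq hn0] at he
      obtain ⟨j, hj⟩ := he
      rw [← per_TypeRepB hR.per, ← zpow_natCast] at hj
      have h1 : q1 x = (G' ^ ((n : ℤ) * j + (k : ℤ)) : E4 ≃ₜ E4) (q1 (b1 z₀)) := by
        rw [hj, q1_b1, zpow_add]
        rfl
      obtain ⟨h2, h3⟩ := crd_zpow hR.pair.nnG hR.crd ((n : ℤ) * j + (k : ℤ)) (Om_b1 z₀)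
      rw [h3] at h1
      have h4 := congrArg b1 h1
      rw [b1_q1 hO, b1_q1 h2] at h4
      exact hk _ h4
    have h1 : Reg (H' : E4 → E4) (q1 x) := (lift_reg hn0 hH2 (q1 x)).1 hld
    have h2 : Reg (b1 ∘ (H' : E4 → E4) ∘ q1) x :=
      Reg.comp (f := (H' : E4 → E4) ∘ q1) (reg_b1 _) (Reg.comp h1 (reg_q1 hO))
    refine reg_congr_TypeRepB h2 ?_
    filter_upwards [isOpen_Om.mem_nhds hO] with w hw
    show H w = b1 (H' (q1 w))
    rw [hH1 w hw, b1_q1 (hR.pair.nnH.om.2 hw)]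
  · obtain ⟨t, ht, rfl⟩ := not_Om_iff.1 hO
    have ht' : 0 < t := by
      rcases ht.lt_or_eq with h1 | h1
      · exact h1
      · exact absurd (by rw [← h1, zero_smul]) hx
    exact reg_of_agree hR.pair.nnH.agree ht'

end Pool.Agent.Rot6
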