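import Pool.Agent.Rot6.StatementCls
import Pool.Agent.Rot6.TypeRep
import Pool.Agent.Rot6.ConjRel

/-!
# Actions which are linear off one orbit have a singular type

PROOF. `ray_off` for `G` (`hR.pair.nnG`, `hR.pair.pow`, `Pair.good`, `Good.PD`, `Good.contr`) gives `T, b`.
`drop_conj` with `Φ = T`, `f' = rotH n`, `G' = tau` (`Corr_tau hn`, `hR.pair.corr`) gives `k` with `AgreeOff k
id`, `Corr n T k`, `k (f x) = rotate n (k x)`. `asc` (`a = 0`) gives `ĥ : Sph4 ≃ₜ Sph4`, the identity near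
the 2-sphere, `ĥ (sg y) = sg (k y)`; `ĥ (g x) = rotS n (ĥ x)` as in `off_of'` (`Rot5/RepS.lean`; private
`RepS_conj`). So `NormAct n g ĥ`. For `Om x`: `ĥ (sph n (q1 x)) = sg (k (q2 n (q1 x))) = sg (q2 n (q1 (T x)))
= sph n (q1 (T x))`. Let `y = sph n (q1 b)`; it is not on the 2-sphere (`sph_off`), so `g y ≠ y`
(`NormAct.fix`). `ĥ` is a local diffeomorphism off the orbit of `y`: on the 2-sphere it is the identity
nearby; a point `x` off it is `sph n (q1 z)`, `Om z` (`sph_surj`, `b1`), and `z` is not in the `G`-orbit of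
`b` (`sph n (q1 (G ^ j b)) = g^[j mod n] y`: `hR.down`, `hR.lift`, `crd_zpow`, and `g^[n] = id`), so `Reg T
z`, and with `T' = q1 ∘ T ∘ b1` (`to_coord`), `sph n (T' w) = ĥ (sph n w)`, `lift_reg` gives the local
diffeomorphism. `d = η`, the germ of `T` at `b` (`off1_of_near`, `germ_of`); `α = crd n b`, `β = crd n (T
b)` (`ld_crd`, `Om (T b)` by `Nn.om`); `φ = id`. `key`: `Eqv η G`. `d ∈ grpD`: `mem_groupD`.
-/

set_option autoImplicit false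

open scoped ContDiff Topology Manifold
open Set Filter Metric

namespace Pool.Agent.Rot6

open Pool.Agent.HopfCov hiding pr
open Pool.Agent.HopfCov.Smooth
open Pool.Agent.HopfFin
open Pool.Agent.Rot4
open Pool.Agent.Rot5

/-- the powers on the 4-sphere and in the coordinates -/
private theorem zpow_TypeEx {n : ℕ} {g : Sph4 ≃ₜ Sph4} {G' : E4 ≃ₜ E4}
    (hl : ∀ z, sph n (G' z) = g (sph n z)) (k : ℤ) : ∀ z : E4,
    sph n ((G' ^ k : E4 ≃ₜ E4) z) = (g ^ k : Sph4 ≃ₜ Sph4) (sph n z) := by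
  induction k using Int.induction_on with
  | zero => exact fun z => rfl
  | succ k ih =>
    intro z
    have e1 : (G' ^ ((k : ℤ) + 1) : E4 ≃ₜ E4) z = (G' ^ (k : ℤ) : E4 ≃ₜ E4) (G' z) := by
      rw [zpow_add_one]
      rfl
    have e2 : (g ^ ((k : ℤ) + 1) : Sph4 ≃ₜ Sph4) (sph n z) =
        (g ^ (k : ℤ) : Sph4 ≃ₜ Sph4) (g (sph n z)) := by
      rw [zpow_add_one]
      rfl
    rw [e1, e2, ih, hl]
  | pred k ih =>
    intro z
    have h1 : g ((g⁻¹ : Sph4 ≃ₜ Sph4) (sph n z)) = sph n z := g.apply_symm_apply _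
    have h2 : (g⁻¹ : Sph4 ≃ₜ Sph4) (sph n z) = sph n ((G'⁻¹ : E4 ≃ₜ E4) z) := by
      apply g.injective
      rw [h1, ← hl]
      have h3 : G' ((G'⁻¹ : E4 ≃ₜ E4) z) = z := G'.apply_symm_apply _
      rw [h3]
    have e1 : (G' ^ (-(k : ℤ) - 1) : E4 ≃ₜ E4) z =
        (G' ^ (-(k : ℤ)) : E4 ≃ₜ E4) ((G'⁻¹ : E4 ≃ₜ E4) z) := by
      rw [zpow_sub_one]
      rfl
    have e2 : (g ^ (-(k : ℤ) - 1) : Sph4 ≃ₜ Sph4) (sph n z) =
        (g ^ (-(k : ℤ)) : Sph4 ≃ₜ Sph4) ((g⁻¹ : Sph4 ≃ₜ Sph4) (sph n z)) := by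
      rw [zpow_sub_one]
      rfl
    rw [e1, e2, ih, h2]

private theorem iter_TypeEx (g : Sph4 ≃ₜ Sph4) (k : ℕ) (x : Sph4) :
    (g ^ k : Sph4 ≃ₜ Sph4) x = g^[k] x := by
  induction k generalizing x with
  | zero => rfl
  | succ k ih =>
    have e1 : (g ^ (k + 1) : Sph4 ≃ₜ Sph4) x = (g ^ k : Sph4 ≃ₜ Sph4) (g x) := by
      rw [pow_succ]
      rfl
    rw [e1, ih, Function.iterate_succ_apply]

/-- an integral power is a natural iterate -/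
private theorem mod_TypeEx {n : ℕ} (hn : 0 < n) {g h : Sph4 ≃ₜ Sph4} (hg : NormAct n g h)
    (k : ℤ) (x : Sph4) : ∃ j : ℕ, (g ^ k : Sph4 ≃ₜ Sph4) x = g^[j] x := by
  have h1 : (g ^ (n : ℤ) : Sph4 ≃ₜ Sph4) = 1 := by
    rw [zpow_natCast]
    apply Homeomorph.ext
    intro x
    rw [iter_TypeEx, hg.pow hn]
    rfl
  have h2 : (g ^ k : Sph4 ≃ₜ Sph4) = g ^ (k % (n : ℤ)) := zpow_eq_zpow_emod k h1
  have h3 : 0 ≤ k % (n : ℤ) := Int.emod_nonneg _ (by exact_mod_cast hn.ne')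
  refine ⟨(k % (n : ℤ)).toNat, ?_⟩
  rw [h2, ← iter_TypeEx, ← zpow_natCast, Int.toNat_of_nonneg h3]

private theorem conj_TypeEx {n : ℕ} {g h : Sph4 ≃ₜ Sph4} {f k : E4 ≃ₜ E4}
    (hd : ∀ y, g (sg y) = sg (f y)) (hd' : ∀ y, h (sg y) = sg (k y))
    (hg : g infS = infS) (hh : h infS = infS)
    (hc : ∀ x, k (f x) = rotate n (k x)) (x : Sph4) : h (g x) = rotS n (h x) := by
  by_cases hx : x = infS
  · rw [hx, hg, hh]
    exact (rotA_fix OnS2_inf).symm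
  · rw [← sg_sgi hx, hd, hd', hc, sg_rotate, hd']

theorem type_exists {n : ℕ} (hn : 2 ≤ n) {g h : Sph4 ≃ₜ Sph4} (hg : NormAct n g h)
    {f G H G' : E4 ≃ₜ E4} (hR : Rep n g f G H G') (hO : Off G) :
    ∃ d : Homeo4, SingularType n g d ∧ Eqv d.old G := by
  have hn0 : 0 < n := by omega
  have he0 : (e0 : E4) ≠ 0 := fun h => by
    have h1 := norm_e0
    rw [h, norm_zero] at h1
    exact zero_ne_one h1
  have hPD : PD 1 G := Good.PD hR.pair.sm hR.pair.good he0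
  have hct : Contr G := hR.pair.good.contr
  obtain ⟨T, b, hT, hTG, hb, hreg⟩ := ray_off hR.pair.nnG hR.pair.pow hPD hct hO
  obtain ⟨k, hk1, hk2, hk3⟩ := drop_conj hn0 hR.pair.corr (Corr_tau hn0) hT hTG
  obtain ⟨u, hu1, hu2⟩ := asc (n := n) (a := 0) (f := k) hk1
  have hu1' : NearS2 fun x => u x = x := hu1.mono fun x hx => hx
  have hginf : g infS = infS := by
    have h1 : g infS = rotS n infS := hg.near.self OnS2_inf
    rw [h1]
    exact rotA_fix OnS2_inf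
  have huinf : u infS = infS := hu1'.self OnS2_inf
  have hconj : ∀ x, u (g x) = rotS n (u x) :=
    conj_TypeEx hR.down hu2 hginf huinf hk3
  -- the lift of `u`
  have hlift : ∀ x, Om x → u (sph n (q1 x)) = sph n (q1 (T x)) := by
    intro x hx
    show u (sg (q2 n (q1 x))) = sg (q2 n (q1 (T x)))
    rw [hu2, hk2.eq x hx]
  obtain ⟨T', hT1, -, -⟩ := to_coord hT
  have hT1' : (T' : E4 → E4) = q1 ∘ ((T : E4 → E4) ∘ b1) := by
    funext w
    have h1 := hT1 (b1 w) (Om_b1 w)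
    rw [q1_b1] at h1
    exact h1
  have hT2 : ∀ w, sph n (T' w) = u (sph n w) := by
    intro w
    have h1 := hlift (b1 w) (Om_b1 w)
    rw [q1_b1] at h1
    rw [h1, hT1']
    rfl
  -- the point
  obtain ⟨y, hy⟩ : ∃ y : Sph4, y = sph n (q1 b) := ⟨_, rfl⟩
  have hyS : ¬ OnS2 y := by
    rw [hy]
    exact sph_off n _
  have hgy : g y ≠ y := fun h1 => hyS ((hg.fix hn).1 h1)
  have hld : ∀ x, (∀ j : ℕ, x ≠ g^[j] y) → LocalDiffeoAt u x := by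
    intro x hx
    by_cases hS : OnS2 x
    · refine ld_congr (ld_one x) ?_
      filter_upwards [hu1' x hS] with z hz
      exact hz.symm
    · obtain ⟨w, rfl⟩ := sph_surj hn0 hS
      have hw : ∀ k : ℤ, b1 w ≠ (G ^ k : E4 ≃ₜ E4) b := by
        intro k hk
        have h1 := (crd_zpow hR.pair.nnG hR.crd k hb).2
        rw [← hk, q1_b1] at h1
        obtain ⟨j, hj⟩ := mod_TypeEx hn0 hg k y
        refine hx j ?_
        rw [← hj, hy, ← zpow_TypeEx hR.lift k, h1]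
      have h2 : Reg T (b1 w) := hreg _ (Om_b1 w).ne hw
      refine (lift_reg hn0 hT2 w).2 ?_
      rw [hT1']
      exact Reg.comp (reg_q1 (hT.om.2 (Om_b1 w))) (Reg.comp h2 (reg_b1 w))
  -- the germ
  have hoff : Off1 G T b := off1_of_near (Nn.id_near hT) hreg
  obtain ⟨η, hη⟩ := germ_of hT.zero hTG hb.ne hoff
  have hkey : Eqv η G := key hPD hct hO hT.zero hTG hb.ne hoff hη
  have hmem : (η : Homeo4) ∈ grpD := mem_groupD.2 hη.1
  refine ⟨(η : Homeo4), ⟨isDiffeo_of_homeo hg.smooth, hmem, u, (1 : Sph4 ≃ₜ Sph4), y, crd n b,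
    crd n (T b), hconj, ⟨isDiffeo_of_homeo fun x => ld_one x, fun x hx => ?_⟩, ⟨hgy, hld⟩,
    ⟨ld_crd hn0 hb, ld_crd hn0 (hT.om.2 hb)⟩, ?_, ?_⟩, hkey⟩
  · filter_upwards [hu1' x ((hg.fix hn).1 hx)] with z hz
    exact hz
  · show sph n (q1 (b + 0)) = y
    rw [add_zero, hy]
  · have hOm : ∀ᶠ x in 𝓝 (0 : E4), Om (b + x) := by
      have h1 : Tendsto (fun x : E4 => b + x) (𝓝 0) (𝓝 b) := by
        have h2 : Continuous fun x : E4 => b + x := continuous_const.add continuous_id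
        have h3 := h2.tendsto 0
        rwa [add_zero] at h3
      exact h1.eventually (isOpen_Om.mem_nhds hb)
    filter_upwards [hOm, hη.2] with x hx1 hx2
    show u (sph n (q1 (b + x))) = sph n (q1 (T b + η x))
    rw [hlift _ hx1, hx2]
    congr 2
    abel

private theorem TypeEx_inv (φ : Sph4 ≃ₜ Sph4) (hφ : ∀ x, LocalDiffeoAt φ x) (x : Sph4) :
    LocalDiffeoAt (φ⁻¹ : Sph4 ≃ₜ Sph4) x := by
  have h := ld_inv (hφ (φ.symm x))
  rwa [φ.apply_symm_apply] at h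

private theorem TypeEx_symm (φ : Sph4 ≃ₜ Sph4) (x : Sph4) : φ ((φ⁻¹ : Sph4 ≃ₜ Sph4) x) = x :=
  φ.apply_symm_apply x

private theorem TypeEx_symm' (φ : Sph4 ≃ₜ Sph4) (x : Sph4) : (φ⁻¹ : Sph4 ≃ₜ Sph4) (φ x) = x :=
  φ.symm_apply_apply x

private theorem TypeEx_mul (φ ψ : Sph4 ≃ₜ Sph4) (x : Sph4) :
    (φ * ψ : Sph4 ≃ₜ Sph4) x = φ (ψ x) := rfl

/-- PROOF. `h ∘ φ`, `φ₀ ∘ φ`, `φ⁻¹ y`, `φ⁻¹ ∘ α`, `β` -/
theorem singularType_congr {n : ℕ} {g : Sph4 → Sph4} {φ g' : Sph4 ≃ₜ Sph4} {d : Homeo4}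
    (hφ : ∀ x, LocalDiffeoAt φ x) (hc : ∀ x, φ (g x) = g' (φ x)) (h : SingularType n g' d) :
    SingularType n g d := by
  obtain ⟨h', φ', y, α, β, h1, ⟨hφ'd, h2⟩, ⟨h3, h4⟩, ⟨hα, hβ⟩, hα0, h5⟩ := h.ex
  obtain ⟨ψ, hψ, hψd⟩ := homeo_of_isDiffeo hφ'd
  have hg'd : ∀ x, LocalDiffeoAt g' x := h.diffeo.2
  have hinv : ∀ x, LocalDiffeoAt (φ⁻¹ : Sph4 ≃ₜ Sph4) x := TypeEx_inv φ hφ
  have hg : ∀ x, (φ⁻¹ * g' * φ : Sph4 ≃ₜ Sph4) x = g x := by
    intro x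
    rw [TypeEx_mul, TypeEx_mul, ← hc, TypeEx_symm']
  have hgd : IsDiffeo (M := Sph4) (N := Sph4) g := by
    have e : ((φ⁻¹ * g' * φ : Sph4 ≃ₜ Sph4) : Sph4 → Sph4) = g := funext hg
    rw [← e]
    exact isDiffeo_of_homeo fun x => ld_mul (ld_mul (hinv _) (hg'd _)) (hφ x)
  have hs : Function.Semiconj φ g g' := hc
  refine ⟨hgd, h.mem, h' * φ, ((ψ * φ : Sph4 ≃ₜ Sph4) : Sph4 → Sph4),
    (φ⁻¹ : Sph4 ≃ₜ Sph4) y, fun x => (φ⁻¹ : Sph4 ≃ₜ Sph4) (α x), β, ?_,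
    ⟨isDiffeo_of_homeo fun x => ld_mul (hψd _) (hφ x), ?_⟩, ⟨?_, ?_⟩, ⟨?_, hβ⟩, ?_, ?_⟩
  · intro x
    rw [TypeEx_mul, TypeEx_mul, hc, h1]
  · intro x hx
    have h6 : g' (φ x) = φ x := by rw [← hc, hx]
    have h7 := (φ.continuous.continuousAt (x := x)).eventually (h2 (φ x) h6)
    filter_upwards [h7] with z hz
    rw [TypeEx_mul, TypeEx_mul, hz, hψ]
  · intro e
    apply h3
    have e2 := hc ((φ⁻¹ : Sph4 ≃ₜ Sph4) y)
    rw [e, TypeEx_symm] at e2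
    exact e2.symm
  · intro x hx
    refine ld_mul (h4 _ fun k hk => hx k ?_) (hφ x)
    apply φ.injective
    rw [hk, hs.iterate_right k _, TypeEx_symm]
  · exact LDA.comp' (f := α) (g := ((φ⁻¹ : Sph4 ≃ₜ Sph4) : Sph4 → Sph4)) (hinv (α 0)) hα
  · exact congrArg (φ⁻¹ : Sph4 ≃ₜ Sph4) hα0
  · filter_upwards [h5] with x hx
    rw [TypeEx_mul, TypeEx_symm, hx]

end Pool.Agent.Rot6
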