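import Pool.Agent.Rot6.TypeCls
import Pool.Agent.Rot6.TypeEx
import Pool.Agent.Rot6.InvCls
import Pool.Agent.Rot6.Complete
import Pool.Agent.Rot6.Surj
import Pool.Agent.Rot5.MainU

/-!
# The classification of the actions which are linear off one orbit
-/

set_option autoImplicit false

open scoped ContDiff Topology Manifold
open Set Filter Metric

namespace Pool.Agent.Rot6

open Pool.Agent.HopfCov hiding pr
open Pool.Agent.HopfCov.Smooth
open Pool.Agent.HopfFin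
open Pool.Agent.Rot4
open Pool.Agent.Rot5

theorem mem_grpD' {h : Homeo4} : h ∈ grpD ↔ PD 1 h.old := mem_groupD

theorem mem_grpP' {h : Homeo4} : h ∈ grpP ↔ PD 1 h.old ∨ PD (-1) h.old := mem_groupP

theorem mem_derD' {h : Homeo4} : h ∈ derD ↔ PD 1 h.old ∧ Ext h.old :=
  derD_iff.trans (and_congr mem_grpD' extendable_iff)

theorem mir_iff {d d' : Homeo4} (hd : d ∈ grpD) (hd' : d' ∈ grpD) :
    (∃ k ∈ grpP, d' * (k * d * k⁻¹)⁻¹ ∈ derD) ↔ Mir d.old d'.old := by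
  constructor
  · rintro ⟨k, hk, hE⟩
    have h2 := (mem_derD'.1 hE).2
    rcases mem_grpP'.1 hk with h1 | h1
    · exact ⟨1, k.old, one_mul 1, h1, h2⟩
    · exact ⟨-1, k.old, by norm_num, h1, h2⟩
  · rintro ⟨s, k, hs, hk, hE⟩
    have hs' : s = 1 ∨ s = -1 := by
      have h1 : (s - 1) * (s + 1) = 0 := by linear_combination hs
      rcases mul_eq_zero.1 h1 with h2 | h2
      · left; linarith
      · right; linarith
    refine ⟨(show Homeo4 from k), mem_grpP'.2 ?_, mem_derD'.2 ⟨?_, hE⟩⟩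
    · rcases hs' with rfl | rfl
      · exact Or.inl hk
      · exact Or.inr hk
    · exact (mem_grpD'.1 hd').mul_one' (PD_conj hs hk (mem_grpD'.1 hd)).inv

/-- normalisation of an action which is linear off one orbit -/
theorem off_norm {n : ℕ} (hn : 2 ≤ n) {g : Sph4 → Sph4} (hg : UnknotAction n g)
    (hL : LinearOffOneOrbit g) : ∃ (φ g' h' : Sph4 ≃ₜ Sph4) (f G H G' : E4 ≃ₜ E4),
      (∀ x, LocalDiffeoAt φ x) ∧ (∀ x, φ (g x) = g' (φ x)) ∧ NormAct n g' h' ∧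
      Rep n g' f G H G' ∧ Off G := by
  have hn0 : 0 < n := by omega
  obtain ⟨φ, g', h', h1, h2, h3⟩ := norm_of ((action_iff hn).1 hg)
  obtain ⟨f, G, H, G', hR⟩ := rep_exists hn0 h3
  exact ⟨φ, g', h', f, G, H, G', h1, h2, h3, hR,
    off_abs hn h3 hR ((off_iff' hn h3).1 ((linearOff_congr h1 h2).1 hL))⟩

/-- an action with a normalisation whose generator is `Off` is linear off one orbit -/
theorem of_off_norm {n : ℕ} (hn : 2 ≤ n) {g : Sph4 → Sph4} {φ g' h' : Sph4 ≃ₜ Sph4}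
    {f G H G' : E4 ≃ₜ E4} (h1 : ∀ x, LocalDiffeoAt φ x) (h2 : ∀ x, φ (g x) = g' (φ x))
    (h3 : NormAct n g' h') (hR : Rep n g' f G H G') (hO : Off G) :
    UnknotAction n g ∧ LinearOffOneOrbit g := by
  have hn0 : 0 < n := by omega
  refine ⟨(action_iff hn).2 (action_congr h1 h2 (of_norm hn0 h3)), ?_⟩
  refine (linearOff_congr h1 h2).2 ((off_iff' hn h3).2 ?_)
  exact off_of' hn hR.act h3.near hR.down ((off_iff hn0 hR.act hR.pair).2 hO)

/-- a normalisation whose generator is `Off` is linear if and only if its generator extends -/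
theorem linear_norm_iff {n : ℕ} (hn : 2 ≤ n) {g : Sph4 → Sph4} {φ g' h' : Sph4 ≃ₜ Sph4}
    {f G H G' : E4 ≃ₜ E4} (h1 : ∀ x, LocalDiffeoAt φ x) (h2 : ∀ x, φ (g x) = g' (φ x))
    (h3 : NormAct n g' h') (hR : Rep n g' f G H G') (hO : Off G) :
    SmoothlyLinear g ↔ Ext G := by
  have hn0 : 0 < n := by omega
  rw [smoothlyLinear_congr h1 h2, lin_iff hn h3]
  constructor
  · intro h
    have h4 := linear_abs hn h3 hR h
    refine Ext_congr h4.symm ?_
    exact Ext_tau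
  · intro h
    have h4 : Cj G tau := std_of_Off (Rep.PD hR) hR.pair.good.contr hO h
    exact linear_of hn0 h3.near hR.down ((linear_iff hn0 hR.pair).2 h4)

/-- (1) an action is linear off one orbit if and only if it has a singular type -/
theorem exists_type {n : ℕ} (hn : 2 ≤ n) (g : Sph4 → Sph4) :
    UnknotAction n g ∧ LinearOffOneOrbit g ↔ ∃ d, SingularType n g d := by
  constructor
  · rintro ⟨hg, hL⟩
    obtain ⟨φ, g', h', f, G, H, G', h1, h2, h3, hR, hO⟩ := off_norm hn hg hL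
    obtain ⟨d, hd, -⟩ := type_exists hn h3 hR hO
    exact ⟨d, singularType_congr h1 h2 hd⟩
  · rintro ⟨d, hd⟩
    obtain ⟨φ, g', h', f, G, H, G', h1, h2, h3, hR, hO, -⟩ := type_cls hn hd
    exact of_off_norm hn h1 h2 h3 hR hO

/-- (2) the class of the singular type -/
theorem type_pow {n : ℕ} (hn : 2 ≤ n) {g : Sph4 → Sph4} {d : Homeo4} (h : SingularType n g d) :
    d ^ n ∈ derD ∧ (SmoothlyLinear g ↔ d ∈ derD) := by
  obtain ⟨φ, g', h', f, G, H, G', h1, h2, h3, hR, hO, hM⟩ := type_cls hn h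
  have hd : PD 1 d.old := mem_grpD'.1 h.mem
  have hG : PD 1 G := Rep.PD hR
  constructor
  · refine mem_derD'.2 ⟨hd.pow n, ?_⟩
    have h4 : Mir (d.old ^ n) (G ^ n) := Mir.pow hd hG hM n
    refine (Mir.ext_iff h4).2 ?_
    rw [hR.pair.pow]
    exact Ext_pow_level Ext_tau n
  · rw [linear_norm_iff hn h1 h2 h3 hR hO, mem_derD', ← Mir.ext_iff hM]
    exact ⟨fun h => ⟨hd, h⟩, fun h => h.2⟩

/-- the conjugation of the groups in terms of the normalisations -/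
theorem conjugate_congr {g1 g2 : Sph4 → Sph4} {φ1 φ2 g1' g2' : Sph4 ≃ₜ Sph4}
    (h1 : ∀ x, LocalDiffeoAt φ1 x) (h2 : ∀ x, φ1 (g1 x) = g1' (φ1 x))
    (h3 : ∀ x, LocalDiffeoAt φ2 x) (h4 : ∀ x, φ2 (g2 x) = g2' (φ2 x)) :
    ConjugateGroups g1 g2 ↔ ConjugateGroups g1' g2' := by
  have hit : ∀ (g : Sph4 → Sph4) (φ g' : Sph4 ≃ₜ Sph4), (∀ x, φ (g x) = g' (φ x)) →
      ∀ (k : ℕ) (x : Sph4), φ (g^[k] x) = g'^[k] (φ x) := by
    intro g φ g' h k x
    induction k with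
    | zero => rfl
    | succ k ih => rw [Function.iterate_succ_apply', Function.iterate_succ_apply', h, ih]
  have hinv : ∀ φ : Sph4 ≃ₜ Sph4, (∀ x, LocalDiffeoAt φ x) →
      ∀ x, LocalDiffeoAt (φ⁻¹ : Sph4 ≃ₜ Sph4) x := by
    intro φ h x
    have h5 := ld_inv (h (φ.symm x))
    rwa [φ.apply_symm_apply] at h5
  constructor
  · rintro ⟨ψ, k, hψ, hc⟩
    obtain ⟨f, hf, hfl⟩ := homeo_of_isDiffeo hψ
    refine ⟨(φ2 * f * φ1⁻¹ : Sph4 ≃ₜ Sph4), k, isDiffeo_of_homeo fun x =>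
      ld_mul (ld_mul (h3 _) (hfl _)) (hinv φ1 h1 x), fun x => ?_⟩
    show φ2 (f (φ1.symm (g1' x))) = g2'^[k] (φ2 (f (φ1.symm x)))
    have e1 : φ1.symm (g1' x) = g1 (φ1.symm x) := by
      rw [Homeomorph.symm_apply_eq, h2, φ1.apply_symm_apply]
    rw [e1, hf, hc, hit g2 φ2 g2' h4, hf]
  · rintro ⟨ψ, k, hψ, hc⟩
    obtain ⟨f, hf, hfl⟩ := homeo_of_isDiffeo hψ
    refine ⟨(φ2⁻¹ * f * φ1 : Sph4 ≃ₜ Sph4), k, isDiffeo_of_homeo fun x =>
      ld_mul (ld_mul (hinv φ2 h3 _) (hfl _)) (h1 x), fun x => ?_⟩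
    show φ2.symm (f (φ1 (g1 x))) = g2^[k] (φ2.symm (f (φ1 x)))
    rw [Homeomorph.symm_apply_eq, hit g2 φ2 g2' h4, φ2.apply_symm_apply, h2, hf, hc, hf]

theorem conj_of_equiv {g g' : Sph4 → Sph4} (h : SphereEquivalent g g') : ConjugateGroups g g' := by
  obtain ⟨φ, h1, h2⟩ := h
  exact ⟨φ, 1, h1, h2⟩

/-- (3) the class up to mirror images is a complete invariant -/
theorem type_iff {n : ℕ} (hn : 2 ≤ n) {g1 g2 : Sph4 → Sph4} {d1 d2 : Homeo4}
    (h1 : SingularType n g1 d1) (h2 : SingularType n g2 d2) :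
    ConjugateGroups g1 g2 ↔ ∃ k ∈ grpP, d2 * (k * d1 * k⁻¹)⁻¹ ∈ derD := by
  obtain ⟨φ1, g1', h1', f1, G1, H1, G1', a1, a2, a3, a4, a5, a6⟩ := type_cls hn h1
  obtain ⟨φ2, g2', h2', f2, G2, H2, G2', b1, b2, b3, b4, b5, b6⟩ := type_cls hn h2
  rw [mir_iff h1.mem h2.mem, conjugate_congr a1 a2 b1 b2]
  constructor
  · intro h
    exact (a6.trans (mir_of_conj hn a3 b3 a4 b4 h b5)).trans b6.symm
  · intro h
    exact conj_of_equiv (conj_of_mir (by omega) a3 b3 a4 b4 a5 b5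
      ((a6.symm.trans h).trans b6))

/-- (4) all classes occur -/
theorem type_surj {n : ℕ} (hn : 2 ≤ n) {d : Homeo4} (hd : d ∈ grpD) (hdn : d ^ n ∈ derD) :
    ∃ (g : Sph4 → Sph4) (d' : Homeo4), SingularType n g d' ∧ d' * d⁻¹ ∈ derD := by
  have hd1 : PD 1 d.old := mem_grpD'.1 hd
  obtain ⟨g, h, f, G, H, G', h1, h2, h3, h4⟩ := surj (show 0 < n by omega) hd1
    (mem_derD'.1 hdn).2
  obtain ⟨d', e1, e2⟩ := type_exists hn h1 h2 h3
  refine ⟨g, d', e1, mem_derD'.2 ⟨(mem_grpD'.1 e1.mem).mul_one' hd1.inv, ?_⟩⟩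
  exact h4.trans e2.symm

end Pool.Agent.Rot6
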