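import Pool.Agent.Rot6.Defs

/-!
# The mirror image of an action and of its generator

Let `ρ (y₀, y₁, y₂, y₃) = (y₀, - y₁, y₂, y₃)` (`refH (-1) 1`, `Rot4/Equiv.lean`), `r (x₀, x₁, x₂, x₃) = (x₀,
x₁, - x₂, x₃)` and `c (z₀, z₁, z₂, z₃) = (z₀, - z₁, z₂, z₃)` (so `c = ρ` as maps). `q1 (r x) = c (q1 x)` for
all `x` (`‖r x‖ = ‖x‖`), `q2 n (c z) = ρ (q2 n z)`, `Om (r x) ↔ Om x`, `r` maps each `Cone δ` onto itself
(`(r x) 0 = x 0`, `‖pr (r x)‖ = ‖pr x‖`), `r * tau = tau * r`, `PD (-1) r`.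

`pair_ref`: PROOF. `G₃ = r G r`, `H₃ = r H r` (`r⁻¹ = r`): `Nn n 1 G₃`, `Nn n 0 H₃`, `H₃ G₃ = tau H₃`, `G₃ ^ n
= tau ^ n`, `Sm G₃`; `Corr n G₃ (ρ f ρ)`: `q2 (q1 (r G r x)) = ρ (q2 (q1 (G (r x)))) = ρ (f (q2 (q1 (r x)))) =
ρ f ρ (q2 (q1 x))`.
`action_ref`: PROOF. `ρ f ρ`: smooth (`refH_smooth`), `(ρ f ρ) ^ n = ρ f ^ n ρ = 1`; `near` with the compact
set `ρ '' K` (`onPlane_reflect`), `ρ ∘ rotate n ∘ ρ = rotate n`; `top` with `ρ h ρ`.
`rep_ref`: PROOF. `norm_of_act` for `ρ f ρ` gives `g₃, h₃` with `g₃ (sg y) = sg (ρ (f (ρ y)))`;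
`rep_of_pair` gives the representation. Let `R : Sph4 ≃ₜ Sph4` change the sign of the coordinate `2` of
`ℝ⁵` (as `refS`, `Rot5/Defs.lean`, `Rot5/BasicLD.lean: ld_refS`): a diffeomorphism with `R (sg y) = sg (ρ
y)` (`sgv`), `R infS = infS`. `R (g x) = g₃ (R x)`: at `sg y`, `R (sg (f y)) = sg (ρ (f y)) = sg (ρ f ρ (ρ
y)) = g₃ (sg (ρ y))`; at `infS` both sides are `infS` (`hg.near infS`, `OnS2_inf`).
-/

set_option autoImplicit false

open scoped ContDiff Topology Manifold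
open Set Filter Metric

namespace Pool.Agent.Rot6

open Pool.Agent.HopfCov hiding pr
open Pool.Agent.HopfCov.Smooth
open Pool.Agent.HopfFin
open Pool.Agent.Rot4
open Pool.Agent.Rot5

/-- the reflection `ρ` -/
noncomputable def rhoH : E4 ≃ₜ E4 := refH (-1) 1 (by norm_num) (by norm_num)

/-- the reflection `r` -/
noncomputable def rH : E4 ≃ₜ E4 where
  toFun x := WithLp.toLp 2 ![x 0, x 1, -x 2, x 3]
  invFun x := WithLp.toLp 2 ![x 0, x 1, -x 2, x 3]
  left_inv x := by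
    ext i
    fin_cases i <;> simp
  right_inv x := by
    ext i
    fin_cases i <;> simp
  continuous_toFun := by fun_prop
  continuous_invFun := by fun_prop

private noncomputable def rLin_RepRef : E4 →ₗ[ℝ] E4 where
  toFun x := WithLp.toLp 2 ![x 0, x 1, -x 2, x 3]
  map_add' x y := by
    ext i
    fin_cases i <;> simp
    ring
  map_smul' c x := by
    ext i
    fin_cases i <;> simp

private theorem det_RepRef : LinearMap.det rLin_RepRef = -1 := by
  have h1 : LinearMap.toMatrix (EuclideanSpace.basisFun (Fin 4) ℝ).toBasis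
      (EuclideanSpace.basisFun (Fin 4) ℝ).toBasis rLin_RepRef =
      Matrix.diagonal ![1, 1, -1, 1] := by
    ext i j
    fin_cases i <;> fin_cases j <;>
      simp [LinearMap.toMatrix_apply, rLin_RepRef, Matrix.diagonal]
  rw [← LinearMap.det_toMatrix (EuclideanSpace.basisFun (Fin 4) ℝ).toBasis, h1,
    Matrix.det_diagonal]
  simp [Fin.prod_univ_four]

private theorem ld_RepRef (x : E4) : LD (-1) rH x := by
  have h1 : LD (-1) (LinearMap.toContinuousLinearMap rLin_RepRef) x := by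
    refine LD_clm _ ?_ x
    have h2 : (LinearMap.toContinuousLinearMap rLin_RepRef).det = -1 := det_RepRef
    rw [h2]
    norm_num
  exact h1

theorem PD_rH : PD (-1) rH := by
  refine ⟨?_, fun x _ => ld_RepRef x⟩
  ext i
  fin_cases i <;> simp [rH]

private theorem inv_RepRef : rH⁻¹ = rH := rfl

private theorem rr_RepRef (x : E4) : rH (rH x) = x := rH.left_inv x

private theorem norm_RepRef (x : E4) : ‖rH x‖ = ‖x‖ := by
  rw [EuclideanSpace.norm_eq, EuclideanSpace.norm_eq]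
  congr 1
  simp [rH, Fin.sum_univ_four]

private theorem zero_RepRef (x : E4) : (rH x) 0 = x 0 := by
  simp [rH]

private theorem sub_RepRef (x y : E4) : rH (x - y) = rH x - rH y := by
  ext i
  fin_cases i <;> simp [rH]
  ring

private theorem smul_RepRef (c : ℝ) (x : E4) : rH (c • x) = c • rH x := by
  ext i
  fin_cases i <;> simp [rH]

private theorem e0_RepRef : rH e0 = e0 := by
  ext i
  fin_cases i <;> simp [rH, e0]

private theorem cone_RepRef {δ : ℝ} {x : E4} (hx : x ∈ Cone δ) : rH x ∈ Cone δ := by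
  have h1 : Pool.Agent.HopfFin.pr (rH x) = rH (Pool.Agent.HopfFin.pr x) := by
    unfold Pool.Agent.HopfFin.pr
    rw [sub_RepRef, smul_RepRef, e0_RepRef, zero_RepRef]
  change ‖Pool.Agent.HopfFin.pr (rH x)‖ ≤ δ * (rH x) 0
  rw [h1, norm_RepRef, zero_RepRef]
  exact hx

private theorem om_RepRef {x : E4} (hx : Om x) : Om (rH x) := by
  change (rH x) 0 < ‖rH x‖
  rw [norm_RepRef, zero_RepRef]
  exact hx

private theorem tau_RepRef : rH * tau = tau * rH :=
  Homeomorph.ext fun x => by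
    change rH ((2⁻¹ : ℝ) • x) = (2⁻¹ : ℝ) • rH x
    exact smul_RepRef _ _

private theorem taun_RepRef (n : ℕ) : rH * tau ^ n = tau ^ n * rH :=
  (Commute.pow_right (show Commute rH tau from tau_RepRef) n).eq

private theorem qq_RepRef (n : ℕ) (x : E4) : q2 n (q1 (rH x)) = rhoH (q2 n (q1 x)) := by
  have h1 : q1 (rH x) = WithLp.toLp 2 ![q1 x 0, -q1 x 1, q1 x 2, q1 x 3] := by
    unfold q1
    rw [norm_RepRef, zero_RepRef]
    ext i
    fin_cases i <;> simp [rH, neg_div]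
  rw [h1]
  change _ = reflect (-1) 1 (q2 n (q1 x))
  unfold q2 reflect
  ext i
  fin_cases i <;> simp

private theorem nn_RepRef {n a : ℕ} {Φ : E4 ≃ₜ E4} (h : Nn n a Φ) :
    Nn n a (rH * Φ * rH⁻¹) := by
  refine ⟨?_, ?_, ?_⟩
  · change rH (Φ (rH 0)) = 0
    rw [PD_rH.1, h.zero, PD_rH.1]
  · rw [inv_RepRef, mul_assoc, taun_RepRef, ← mul_assoc, mul_assoc rH, h.comm, ← mul_assoc,
      taun_RepRef]
    simp only [mul_assoc]
  · obtain ⟨δ, hδ, h1⟩ := h.near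
    refine ⟨δ, hδ, fun x hx => ?_⟩
    change rH (Φ (rH x)) = _
    rw [h1 _ (cone_RepRef hx)]
    have h2 := DFunLike.congr_fun (taun_RepRef a) (rH x)
    change rH ((tau ^ a : E4 ≃ₜ E4) (rH x)) = (tau ^ a : E4 ≃ₜ E4) (rH (rH x)) at h2
    rw [h2, rr_RepRef]

theorem pair_ref {n : ℕ} {f G H : E4 ≃ₜ E4} (h : Pair n f G H) :
    Pair n (rhoH * f * rhoH) (rH * G * rH⁻¹) (rH * H * rH⁻¹) := by
  have hrr : ∀ z, rhoH (rhoH z) = z := fun z => rhoH.left_inv z
  refine ⟨nn_RepRef h.nnG, nn_RepRef h.nnH, ⟨fun x hx => ?_, fun x hx => ?_⟩, ?_, ?_, ?_, ?_⟩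
  · exact om_RepRef (h.corr.dom _ (om_RepRef hx))
  · change q2 n (q1 (rH (G (rH x)))) = rhoH (f (rhoH (q2 n (q1 x))))
    rw [qq_RepRef, h.corr.eq _ (om_RepRef hx), qq_RepRef]
  · have e : rH * H * rH⁻¹ * (rH * G * rH⁻¹) = rH * (H * G) * rH⁻¹ := by group
    rw [e, h.conj, ← mul_assoc, tau_RepRef]
    group
  · rw [conj_pow, h.pow, taun_RepRef]
    group
  · change rH (G (rH 0)) = 0
    rw [PD_rH.1, h.sm.1, PD_rH.1]
  · intro x hx
    have h1 : (rH⁻¹ : E4 ≃ₜ E4) x ≠ 0 := PD_rH.inv.ne hx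
    have hr : ∀ y : E4, RG rH y := fun y => (ld_RepRef y).rg
    have h2 : RG (G * rH⁻¹ : E4 ≃ₜ E4) x := RG.mul (h.sm.2 _ h1) (hr x)
    have h3 : RG (rH * (G * rH⁻¹) : E4 ≃ₜ E4) x := RG.mul (hr _) h2
    rw [← mul_assoc] at h3
    exact h3

private theorem rho_RepRef (x : E4) : rhoH (rhoH x) = x := rhoH.left_inv x

private theorem off_RepRef {k : E4 ≃ₜ E4} {g : E4 → E4}
    (h : AgreeOff (Homeo4.fn (show Homeo4 from k)) g) :
    AgreeOff (Homeo4.fn (show Homeo4 from rhoH * k * rhoH)) fun x => rhoH (g (rhoH x)) := by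
  obtain ⟨K, h1, h2, h3⟩ := h
  refine ⟨rhoH '' K, h1.image rhoH.continuous, ?_, ?_⟩
  · rintro _ ⟨x, hx, rfl⟩
    exact fun h => h2 x hx ((onPlane_reflect (a := -1) (b := 1) (by norm_num)).1 h)
  · intro x hx
    have e1 : rhoH x ∉ K := fun h => hx ⟨_, h, rho_RepRef x⟩
    change rhoH (k (rhoH x)) = rhoH (g (rhoH x))
    exact congrArg _ (h3 _ e1)

private theorem rot_RepRef (n : ℕ) (x : E4) : rhoH (rotate n x) = rotate n (rhoH x) := by
  change reflect (-1) 1 (rotate n x) = rotate n (reflect (-1) 1 x)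
  unfold reflect rotate
  ext i
  fin_cases i <;> simp

private theorem inv_rho_RepRef : rhoH⁻¹ = rhoH := rfl

theorem action_ref {n : ℕ} {f : E4 ≃ₜ E4} (h : Action n f) : Action n (rhoH * f * rhoH) := by
  obtain ⟨k, hk1, hk2⟩ := h.top
  obtain ⟨k', hk'⟩ : ∃ k' : E4 ≃ₜ E4, k' = k := ⟨_, rfl⟩
  have hk1' : AgreeOff (Homeo4.fn (show Homeo4 from k')) id := by
    rw [hk']
    exact hk1
  have hk2' : ∀ x, k' (f x) = rotate n (k' x) := by
    rw [hk']
    exact hk2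
  refine
    { smooth := ?_
      pow := fun x => ?_
      near := ?_
      top := ⟨(show Homeo4 from rhoH * k' * rhoH), ?_, fun x => ?_⟩ }
  · have h1 : ∀ x, InvertibleAt f x := h.smooth
    have h2 : ∀ x, InvertibleAt rhoH x := refH_smooth _ _
    exact sm_mul (sm_mul h2 h1) h2
  · have h1 : f ^ n = 1 := Homeomorph.ext fun x => h.pow x
    have h2 : (rhoH * f * rhoH) ^ n = 1 := by
      have h3 : rhoH * f * rhoH = rhoH * f * rhoH⁻¹ := rfl
      rw [h3, conj_pow, h1]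
      group
    exact DFunLike.congr_fun h2 x
  · obtain ⟨K, h1, h2, h3⟩ := off_RepRef h.near
    refine ⟨K, h1, h2, fun x hx => (h3 x hx).trans ?_⟩
    change rhoH (rotate n (rhoH x)) = rotate n x
    rw [rot_RepRef, rho_RepRef]
  · obtain ⟨K, h1, h2, h3⟩ := off_RepRef hk1'
    refine ⟨K, h1, h2, fun x hx => (h3 x hx).trans ?_⟩
    exact rho_RepRef x
  · change rhoH (k' (rhoH (rhoH (f (rhoH x))))) = rotate n (rhoH (k' (rhoH x)))
    rw [rho_RepRef, hk2', rot_RepRef]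

/-- the change of the sign of the coordinate `2` -/
private noncomputable def refE_RepRef (x : E5) : E5 := WithLp.toLp 2 ![x 0, x 1, -x 2, x 3, x 4]

private theorem norm_refE_RepRef (x : E5) : ‖refE_RepRef x‖ = ‖x‖ := by
  rw [EuclideanSpace.norm_eq, EuclideanSpace.norm_eq]
  congr 1
  simp only [Fin.sum_univ_five, Real.norm_eq_abs, sq_abs]
  simp [refE_RepRef]

private noncomputable def refS_RepRef (x : Sph4) : Sph4 :=
  ⟨refE_RepRef (vec x), by
    rw [mem_sphere_zero_iff_norm, norm_refE_RepRef]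
    exact mem_sphere_zero_iff_norm.1 x.2⟩

private theorem refSS_RepRef (x : Sph4) : refS_RepRef (refS_RepRef x) = x := by
  apply vec_inj
  change refE_RepRef (refE_RepRef (vec x)) = vec x
  ext i
  fin_cases i <;> simp [refE_RepRef]

private theorem fact_RepRef : Fact (Module.finrank ℝ E5 = 4 + 1) :=
  Fact.mk (@finrank_euclideanSpace_fin ℝ _ (4 + 1))

attribute [local instance] fact_RepRef

private theorem contDiff_RepRef : ContDiff ℝ ∞ refE_RepRef := by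
  rw [contDiff_euclidean]
  intro i
  fin_cases i <;> simp [refE_RepRef] <;> fun_prop

private theorem smooth_RepRef (f : sphere (0 : E5) 1 → sphere (0 : E5) 1)
    (hf : ∀ x, ((f x : E5)) = refE_RepRef (x : E5)) : ContMDiff (𝓡 4) (𝓡 4) ∞ f := by
  have h1 : ∀ x : sphere (0 : E5) 1, refE_RepRef (x : E5) ∈ sphere (0 : E5) 1 := fun x => by
    rw [← hf x]
    exact (f x).2
  have h2 : ContMDiff (𝓡 4) 𝓘(ℝ, E5) ∞ fun x : sphere (0 : E5) 1 => refE_RepRef (x : E5) :=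
    contDiff_RepRef.contMDiff.comp contMDiff_coe_sphere
  have h3 : f = Set.codRestrict (fun x : sphere (0 : E5) 1 => refE_RepRef (x : E5))
      (sphere (0 : E5) 1) h1 := funext fun x => Subtype.ext (hf x)
  rw [h3]
  exact h2.codRestrict_sphere h1

private theorem gen_RepRef (f : sphere (0 : E5) 1 → sphere (0 : E5) 1)
    (hf : ∀ x, ((f x : E5)) = refE_RepRef (x : E5)) (h1 : ∀ x, f (f x) = x) :
    IsLocalDiffeomorph (𝓡 4) (𝓡 4) ∞ f := by
  let Φ : Diffeomorph (𝓡 4) (𝓡 4) (sphere (0 : E5) 1) (sphere (0 : E5) 1) ∞ :=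
    ⟨⟨f, f, h1, h1⟩, smooth_RepRef f hf, smooth_RepRef f hf⟩
  exact Φ.isLocalDiffeomorph

private theorem ldS_RepRef (x : Sph4) : LocalDiffeoAt refS_RepRef x :=
  gen_RepRef refS_RepRef (fun _ => rfl) refSS_RepRef x

private theorem diffeo_RepRef : IsDiffeo (M := Sph4) (N := Sph4) refS_RepRef :=
  ⟨⟨fun x y h => by rw [← refSS_RepRef x, h, refSS_RepRef], fun x =>
    ⟨refS_RepRef x, refSS_RepRef x⟩⟩, ldS_RepRef⟩

private theorem inf_RepRef : refS_RepRef infS = infS := by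
  apply vec_inj
  change refE_RepRef (EuclideanSpace.single 0 1 : E5) = (EuclideanSpace.single 0 1 : E5)
  ext i
  fin_cases i <;> simp [refE_RepRef]

private theorem norm_rho_RepRef (y : E4) : ‖rhoH y‖ = ‖y‖ := by
  rw [EuclideanSpace.norm_eq, EuclideanSpace.norm_eq]
  congr 1
  change ∑ i, ‖reflect (-1) 1 y i‖ ^ 2 = _
  simp [reflect, Fin.sum_univ_four]

private theorem sg_RepRef (y : E4) : refS_RepRef (sg y) = sg (rhoH y) := by
  apply vec_inj
  change refE_RepRef (sgv y) = sgv (rhoH y)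
  unfold sgv
  rw [norm_rho_RepRef]
  change _ = (‖y‖ ^ 2 + 1)⁻¹ • (WithLp.toLp 2 ![‖y‖ ^ 2 - 1, 2 * reflect (-1) 1 y 0,
    2 * reflect (-1) 1 y 1, 2 * reflect (-1) 1 y 2, 2 * reflect (-1) 1 y 3] : E5)
  ext i
  fin_cases i <;> simp [refE_RepRef, reflect]

theorem rep_ref {n : ℕ} (hn : 0 < n) {g h : Sph4 ≃ₜ Sph4} (hg : NormAct n g h)
    {f G H G' : E4 ≃ₜ E4} (hR : Rep n g f G H G') :
    ∃ (g₃ h₃ : Sph4 ≃ₜ Sph4) (f₃ H₃ G₃' : E4 ≃ₜ E4), NormAct n g₃ h₃ ∧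
      Rep n g₃ f₃ (rH * G * rH⁻¹) H₃ G₃' ∧ SphereEquivalent g g₃ := by
  have hA := action_ref hR.act
  obtain ⟨g₃, h₃, h1, h2⟩ := norm_of_act hn hA
  have h2' : ∀ y, g₃ (sg y) = sg ((rhoH * f * rhoH : E4 ≃ₜ E4) y) := h2
  obtain ⟨G₃', h3⟩ := rep_of_pair hn hA (pair_ref hR.pair) h2'
  refine ⟨g₃, h₃, _, _, G₃', h1, h3, refS_RepRef, diffeo_RepRef, fun x => ?_⟩
  have e1 : ∀ {g h : Sph4 ≃ₜ Sph4}, NormAct n g h → g infS = infS := fun {g h} hg => by
    have h4 : g infS = rotS n infS := NearS2.self hg.near OnS2_inf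
    rw [h4]
    exact rotA_fix OnS2_inf
  by_cases hx : x = infS
  · rw [hx, e1 hg, inf_RepRef, e1 h1]
  · obtain ⟨y, rfl⟩ : ∃ y, x = sg y := ⟨sgi x, (sg_sgi hx).symm⟩
    rw [hR.down, sg_RepRef, sg_RepRef, h2']
    change sg (rhoH (f y)) = sg (rhoH (f (rhoH (rhoH y))))
    rw [rho_RepRef]

end Pool.Agent.Rot6
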