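import Pool.Agent.Rot6.Defs

/-!
# Spreading a homeomorphism equivariantly

PROOF. Scale by `a = (√2 ‖c‖)⁻¹`, `σ x = a • x` (it commutes with `tau`); `j₁ = σ j σ⁻¹` is the identity off
`σ C ⊆ closedBall (a c) (‖a c‖ / 8)`, `‖a c‖ = 1 / √2 ≈ 0.707`, so `j₁ x = x` unless `0.61 < ‖x‖ < 0.8`. `Glue
tau tau j₁` (`HopfCov/Glue.lean`): `out` with `ρ = 0.9`; `eq` with `r = 0.9`, `R = 1.1`: `tau x` has norm
`≤ 0.55`, `j₁ (tau x) = tau x`; `img`: `‖2 x‖ ≤ 1 ↔ ‖2 j₁ x‖ ≤ 1`: both sides are `‖x‖ ≤ 1/2` because `j₁`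
fixes all points of norm `≤ 0.6` (if `‖j₁ x‖ ≤ 1/2` then `j₁ (j₁ x) = j₁ x`, so `j₁ x = x`). `Trap tau`,
`Contr tau`. `glueHomeo` gives `J₁`; `J₁ (tau x) = tau (J₁ x)` (`glueFun_equivariant`), `J₁ x = j₁ x` for `1/2
< ‖x‖ ≤ 1` (`InA tau 0 x`, `glueFun_eq`). `J = σ⁻¹ J₁ σ`. So `J tau = tau J`, `J x = j x` for `‖c‖ / √2 < ‖x‖ ≤
√2 ‖c‖`, in particular for `‖x - c‖ < ‖c‖ / 4` (`3/4 ‖c‖ < ‖x‖ < 5/4 ‖c‖`). `J 0 = 0`.
If `x ≠ 0` and no translate `2 ^ (-k) • x` is in `C`: choose `k` with `‖c‖ / √2 < ‖tau ^ k x‖ ≤ √2 ‖c‖`; near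
`y₀ = tau ^ k x` the map `J` is `j` if `‖y₀‖ < √2 ‖c‖` (strictly); `j y = y` for `y` near `y₀` because `C` is
closed. If `‖y₀‖ = √2 ‖c‖` use that `J y = y` for all `y` with `5/4 ‖c‖ ≤ ‖y‖ ≤ 3/2 ‖c‖` (for `‖y‖ ≤ √2 ‖c‖`
directly; for `‖y‖ > √2 ‖c‖`, `tau y` is in the fundamental domain and its norm is `≤ 3/4 ‖c‖`, so `j (tau y)
= tau y`). So `J y = y` near `y₀`, and by equivariance near `x`.
Smoothness: if `LD 1 j y` for all `y ≠ 0` then `LD 1 J x` for `x ≠ 0`: `glue_LD` (`s = 1`) or as above.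
-/

set_option autoImplicit false

open scoped ContDiff Topology Manifold
open Set Filter Metric

namespace Pool.Agent.Rot6

open Pool.Agent.HopfCov hiding pr
open Pool.Agent.HopfCov.Smooth
open Pool.Agent.HopfFin
open Pool.Agent.Rot4

private theorem spr_LD {a : ℝ} (ha : a ≠ 0) (x : E4) :
    LD 1 (Homeomorph.smulOfNeZero a ha : E4 ≃ₜ E4) x := by
  have h1 : ((Homeomorph.smulOfNeZero a ha : E4 ≃ₜ E4) : E4 → E4) =
      (a • ContinuousLinearMap.id ℝ E4 : E4 →L[ℝ] E4) := by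
    funext y
    rfl
  rw [h1]
  apply LD_clm
  have h2 : (a • ContinuousLinearMap.id ℝ E4 : E4 →L[ℝ] E4).det = a ^ 4 := by
    have h3 : ((ContinuousLinearMap.id ℝ E4 : E4 →L[ℝ] E4) : E4 →ₗ[ℝ] E4) = LinearMap.id := rfl
    have h4 : Module.finrank ℝ E4 = 4 := by simp
    rw [ContinuousLinearMap.det, ContinuousLinearMap.toLinearMap_smul, LinearMap.det_smul, h3,
      LinearMap.det_id, mul_one, h4]
  rw [h2, one_mul]
  positivity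

private theorem spr_inv (x : E4) : (tau⁻¹ : E4 ≃ₜ E4) x = (2 : ℝ) • x := by
  refine (tau : E4 ≃ₜ E4).injective ?_
  rw [apply_inv_self', tau_apply, smul_smul, inv_mul_cancel₀ (by norm_num), one_smul]

theorem spread {c : E4} (hc : c ≠ 0) {C : Set E4} (hC : IsClosed C)
    (hCc : C ⊆ closedBall c (‖c‖ / 8)) {j : E4 ≃ₜ E4} (hj : ∀ x, x ∉ C → j x = x) :
    ∃ J : E4 ≃ₜ E4, J * tau = tau * J ∧ (∀ x, ‖x - c‖ < ‖c‖ / 4 → J x = j x) ∧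
      (∀ x, x ≠ 0 → (∀ k : ℤ, (tau ^ k : E4 ≃ₜ E4) x ∉ C) → ∀ᶠ y in 𝓝 x, J y = y) ∧
      ((∀ x, LD 1 j x) → ∀ x, x ≠ 0 → LD 1 J x) := by
  have hcp : 0 < ‖c‖ := norm_pos_iff.2 hc
  obtain ⟨a, ha⟩ : ∃ a : ℝ, a = 2 / (3 * ‖c‖) := ⟨_, rfl⟩
  have hap : 0 < a := by rw [ha]; positivity
  have hac : a * ‖c‖ = 2 / 3 := by rw [ha]; field_simp
  obtain ⟨σ, hσ⟩ : ∃ σ : E4 ≃ₜ E4, σ = Homeomorph.smulOfNeZero a hap.ne' := ⟨_, rfl⟩
  have σa : ∀ x, σ x = a • x := fun x => by rw [hσ]; rfl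
  have σn : ∀ x, ‖σ x‖ = a * ‖x‖ := fun x => by
    rw [σa, norm_smul, Real.norm_of_nonneg hap.le]
  have σLD : ∀ x, LD 1 σ x := fun x => by rw [hσ]; exact spr_LD hap.ne' x
  have σ0 : σ 0 = 0 := by rw [σa, smul_zero]
  have σtau : σ * tau = tau * σ := by
    ext1 x
    rw [mul_apply', mul_apply', σa, tau_apply, σa, tau_apply, smul_comm]
  have σtauk : ∀ (k : ℤ) (x : E4), (tau ^ k : E4 ≃ₜ E4) (σ x) = σ ((tau ^ k : E4 ≃ₜ E4) x) := by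
    intro k x
    have h1 : Commute σ (tau : E4 ≃ₜ E4) := σtau
    have h2 := (h1.zpow_right k).eq
    have h3 := DFunLike.congr_fun h2 x
    exact h3.symm
  -- elements of `C`
  have hCn : ∀ y ∈ C, 7 / 8 * ‖c‖ ≤ ‖y‖ ∧ ‖y‖ ≤ 9 / 8 * ‖c‖ := by
    intro y hy
    have h1 := hCc hy
    rw [mem_closedBall, dist_eq_norm] at h1
    have h2 : ‖c‖ - ‖y‖ ≤ ‖c - y‖ := norm_sub_norm_le c y
    have h3 : ‖y‖ - ‖c‖ ≤ ‖y - c‖ := norm_sub_norm_le y c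
    rw [norm_sub_rev] at h2
    constructor <;> linarith
  obtain ⟨j₁, hj₁⟩ : ∃ j₁ : E4 ≃ₜ E4, j₁ = σ * j * σ⁻¹ := ⟨_, rfl⟩
  have j₁σ : ∀ x, j₁ (σ x) = σ (j x) := by
    intro x
    rw [hj₁]
    show σ (j ((σ⁻¹ : E4 ≃ₜ E4) (σ x))) = _
    rw [inv_apply_self']
  have j₁id : ∀ x, (‖x‖ < 7 / 12 ∨ 3 / 4 < ‖x‖) → j₁ x = x := by
    intro x hx
    have h1 : x = σ ((σ⁻¹ : E4 ≃ₜ E4) x) := (apply_inv_self' σ x).symm
    rw [h1, j₁σ]
    congr 1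
    apply hj
    intro hm
    obtain ⟨h2, h3⟩ := hCn _ hm
    have h4 : ‖x‖ = a * ‖(σ⁻¹ : E4 ≃ₜ E4) x‖ := by rw [← σn, ← h1]
    have h5 : a * (7 / 8 * ‖c‖) ≤ ‖x‖ := by rw [h4]; gcongr
    have h6 : ‖x‖ ≤ a * (9 / 8 * ‖c‖) := by rw [h4]; gcongr
    have h7 : a * (7 / 8 * ‖c‖) = 7 / 12 := by linear_combination 7 / 8 * hac
    have h8 : a * (9 / 8 * ‖c‖) = 3 / 4 := by linear_combination 9 / 8 * hac
    rcases hx with hx | hx <;> linarith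
  have hgl : Glue (tau : E4 ≃ₜ E4) tau j₁ := by
    refine ⟨⟨4 / 5, by norm_num, fun x hx => j₁id x (Or.inr (by linarith))⟩,
      ⟨4 / 5, 11 / 10, by norm_num, by norm_num, fun x hx hx' => j₁id _ (Or.inl ?_)⟩, fun x => ?_⟩
    · rw [tau_apply, norm_smul, Real.norm_of_nonneg (by norm_num)]
      linarith
    · rw [spr_inv, spr_inv, norm_smul, norm_smul, Real.norm_of_nonneg (by norm_num)]
      constructor
      · intro h
        rw [j₁id x (Or.inl (by linarith))]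
        exact h
      · intro h
        have h1 := j₁id (j₁ x) (Or.inl (by linarith))
        have h2 := j₁.injective h1
        rw [h2] at h
        exact h
  have htr : Trap (tau : E4 ≃ₜ E4) := Trap_tauL _
  have hct : Contr (tau : E4 ≃ₜ E4) := Contr_tauL _
  have ht0 : (tau : E4 ≃ₜ E4) 0 = 0 := by rw [tau_apply, smul_zero]
  obtain ⟨J₁, hJ₁⟩ : ∃ J₁ : E4 ≃ₜ E4, ∀ x, J₁ x = glueFun tau tau j₁ x :=
    ⟨glueHomeo hgl ht0 ht0 htr htr hct hct, fun x => rfl⟩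
  have J₁tau : ∀ x, J₁ ((tau : E4 ≃ₜ E4) x) = (tau : E4 ≃ₜ E4) (J₁ x) := fun x => by
    rw [hJ₁, hJ₁]
    exact glueFun_equivariant ht0 ht0 htr hct x
  have Jap : ∀ x, (σ⁻¹ * J₁ * σ : E4 ≃ₜ E4) x = (σ⁻¹ : E4 ≃ₜ E4) (J₁ (σ x)) := fun x => rfl
  refine ⟨σ⁻¹ * J₁ * σ, ?_, ?_, ?_, ?_⟩
  · have h1 : J₁ * tau = tau * J₁ := by
      ext1 x
      exact J₁tau x
    have h2 : σ⁻¹ * tau = tau * σ⁻¹ := by
      rw [inv_mul_eq_iff_eq_mul, ← mul_assoc, σtau, mul_inv_cancel_right]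
    calc σ⁻¹ * J₁ * σ * tau = σ⁻¹ * (J₁ * tau) * σ := by
          rw [mul_assoc _ σ, σtau]; group
      _ = (σ⁻¹ * tau) * J₁ * σ := by rw [h1]; group
      _ = tau * (σ⁻¹ * J₁ * σ) := by rw [h2]; group
  · intro x hx
    rw [Jap, hJ₁]
    have h2 : ‖c‖ - ‖x‖ ≤ ‖c - x‖ := norm_sub_norm_le c x
    have h3 : ‖x‖ - ‖c‖ ≤ ‖x - c‖ := norm_sub_norm_le x c
    rw [norm_sub_rev] at h2
    have h4 : a * (3 / 4 * ‖c‖) < a * ‖x‖ := by
      apply mul_lt_mul_of_pos_left _ hap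
      linarith
    have h5 : a * ‖x‖ ≤ a * (5 / 4 * ‖c‖) := by
      apply mul_le_mul_of_nonneg_left _ hap.le
      linarith
    have h6 : a * (3 / 4 * ‖c‖) = 1 / 2 := by linear_combination 3 / 4 * hac
    have h7 : a * (5 / 4 * ‖c‖) = 5 / 6 := by linear_combination 5 / 4 * hac
    have hIn : InA (tau : E4 ≃ₜ E4) 0 (σ x) := by
      constructor
      · rw [neg_zero, zpow_zero, one_apply', σn]
        linarith
      · rw [zero_add, zpow_neg_one, spr_inv, norm_smul, Real.norm_of_nonneg (by norm_num), σn]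
        linarith
    rw [glueFun_eq ht0 htr hIn, neg_zero, zpow_zero, one_apply', one_apply', j₁σ,
      inv_apply_self']
  · intro x hx hk
    have hx₁ : σ x ≠ 0 := fun h => hx (σ.injective (h.trans σ0.symm))
    obtain ⟨k, hIn⟩ := exists_InA htr hct hx₁
    have h1 := glue_local hgl ht0 htr hIn
    have h2 : ∀ᶠ y in 𝓝 x, (tau ^ (-k) : E4 ≃ₜ E4) y ∉ C := by
      have h3 : Tendsto (tau ^ (-k) : E4 ≃ₜ E4) (𝓝 x) (𝓝 ((tau ^ (-k) : E4 ≃ₜ E4) x)) :=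
        (tau ^ (-k) : E4 ≃ₜ E4).continuous.tendsto x
      exact h3.eventually (hC.isOpen_compl.eventually_mem (hk (-k)))
    have h4 : ∀ᶠ y in 𝓝 x, glueFun tau tau j₁ (σ y) =
        (tau ^ k : E4 ≃ₜ E4) (j₁ ((tau ^ (-k) : E4 ≃ₜ E4) (σ y))) :=
      (σ.continuous.tendsto x).eventually h1
    filter_upwards [h2, h4] with y hy1 hy2
    rw [Jap, hJ₁, hy2, σtauk, j₁σ, hj _ hy1, ← σtauk, zpow_zpow_neg, inv_apply_self']
  · intro hL x hx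
    have hx₁ : σ x ≠ 0 := fun h => hx (σ.injective (h.trans σ0.symm))
    obtain ⟨k, hIn⟩ := exists_InA htr hct hx₁
    have j₁L : ∀ y, LD 1 j₁ y := by
      rw [hj₁]
      exact LD_all_mul (LD_all_mul σLD hL) (LD_all_inv σLD)
    have j₁0 : j₁ 0 = 0 := j₁id 0 (Or.inl (by rw [norm_zero]; norm_num))
    have hz : (tau ^ (-k) : E4 ≃ₜ E4) (σ x) ≠ 0 := by
      have h5 : PD 1 (tau ^ (-k) : E4 ≃ₜ E4) := PD_tau.zpow (-k)
      exact h5.ne hx₁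
    have hG0 : j₁ ((tau ^ (-k) : E4 ≃ₜ E4) (σ x)) ≠ 0 := fun h =>
      hz (j₁.injective (h.trans j₁0.symm))
    have h6 := glue_LD (one_mul 1) hgl PD_tau PD_tau htr hIn hG0 (j₁L _)
    have h7 : LD 1 J₁ (σ x) := by
      have h8 : (J₁ : E4 → E4) = glueFun tau tau j₁ := funext hJ₁
      rw [h8]
      exact h6
    have h9 : LD 1 (σ⁻¹ : E4 ≃ₜ E4) (J₁ (σ x)) := LD_all_inv σLD _
    have h10 := (h9.mul_one' h7).mul_one' (σLD x)
    exact h10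

end Pool.Agent.Rot6
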