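import Pool.Agent.Rot5.StatementAct

/-!
# The singularity of an action which is linear off one orbit
-/

set_option autoImplicit false

open scoped ContDiff Topology Manifold
open Set Filter Metric

namespace Pool.Agent.HopfCov.Smooth

/-- `g` is a diffeomorphism of the 4-sphere which is conjugate to the rotation of order `n` by a
homeomorphism `h`; near the fixed points of `g` it agrees with a diffeomorphism `φ`, it is a local
diffeomorphism off one orbit, which is not a fixed point, and at a point `y` of this orbit it is the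
germ of `d ∈ D` at the origin, in smooth local coordinates `α` centred at `y` and `β` centred at
`h y` -/
structure SingularType (n : ℕ) (g : Sph4 → Sph4) (d : Homeo4) : Prop where
  diffeo : IsDiffeo g
  mem : d ∈ grpD
  ex : ∃ (h : Sph4 ≃ₜ Sph4) (φ : Sph4 → Sph4) (y : Sph4) (α β : E4 → Sph4),
    (∀ x, h (g x) = rotS n (h x)) ∧
    (IsDiffeo φ ∧ ∀ x, g x = x → ∀ᶠ z in 𝓝 x, h z = φ z) ∧
    (g y ≠ y ∧ ∀ x, (∀ k : ℕ, x ≠ g^[k] y) → LocalDiffeoAt h x) ∧
    (IsLocalDiffeomorphAt (𝓡 4) (𝓡 4) ∞ α 0 ∧ IsLocalDiffeomorphAt (𝓡 4) (𝓡 4) ∞ β 0) ∧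
    α 0 = y ∧ ∀ᶠ x in 𝓝 (0 : E4), h (α x) = β (d.fn x)

end Pool.Agent.HopfCov.Smooth
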