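import Pool.Agent.Rot6.StatementCls
import Pool.Agent.Rot6.TypeRep
import Pool.Agent.Rot6.ConjRel

/-!
# The class of an action is given by its singular type

`germ_mir`: PROOF. Here `P = crd n b`, `P' = crd n (H b)`, `P 0 = y`, `P' 0 = h y`, and near `0`: `h (P x) = P'
(η x)` (`η x = H (b + x) - H b`; `Om (b + x)` near `0`, `hH`). Given `α, β` (`LDS`), `α 0 = y`, `h (α x) = β (d
x)` near `0` (so `β 0 = h y`, `d 0 = 0`): `lift_local` gives `Λ` with `P (Λ x) = α x` and `μ` with `P' (μ x) =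
β x` near `0`. Near `0`: `P' (η (Λ x)) = h (P (Λ x)) = h (α x) = β (d x) = P' (μ (d x))`, so `η (Λ x) = μ (d
x)` (`inj_local`; all maps are continuous at `0`), and with the inverse germ `ν` of `μ` (`inv_local`): `d x
= ν (η (Λ x))`. Signs: `reg_sign` for `Λ` at `0` and `ν` at `0`: `s`, `t`; at points `x ≠ 0` near `0` the
determinants of `d`, `η` are positive, so `s = t` (`Λ x ≠ 0` for `x ≠ 0` near `0`, since otherwise `d x = ν
(η 0) = 0`). `germ_conj` with `T = η`, `T₂ = d`, `x₀ = 0` (`Germ η 0 η`, `Germ d 0 d`), `D = ν`, `k = 1` or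
`linH refl0`.
`type_cls`: PROOF. `h, φ, y, α, β` from `SingularType`. `homeo_of_isDiffeo` for `φ` and `g`: `φ'`, `g₀`. `g' =
φ' g₀ φ'⁻¹`, `h' = h φ'⁻¹`: `NormAct n g' h'` as in the proof of `norm_of` (`Rot5/NormS.lean`), using `g x = x
↔ OnS2 (h x)` (`rotS_fix_iff`). `y' = φ' y`: `g' y' ≠ y'`, `h'` is a local diffeomorphism off the `g'`-orbit
of `y'`. `rep_sing` gives the representation and `b`; `off_of_ray`: `Off G`. `off1_of_near`, `germ_of` gives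
`η` for `H` at `b`; `key`: `Eqv η G`. `germ_mir` for `g', h', y'` with `α' = φ' ∘ α` (`LDS.comp`), `β`, `d`:
`Mir η d`. So `Mir d G`.
-/

set_option autoImplicit false

open scoped ContDiff Topology Manifold
open Set Filter Metric

namespace Pool.Agent.Rot6

open Pool.Agent.HopfCov hiding pr
open Pool.Agent.HopfCov.Smooth
open Pool.Agent.HopfFin
open Pool.Agent.Rot4
open Pool.Agent.Rot5

private theorem pos_of_mul_pos_of_pos_right_TypeCls {a b : ℝ} (h : 0 < a * b) (hb : 0 < b) :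
    0 < a := by
  by_contra h1
  have h2 := mul_nonpos_of_nonpos_of_nonneg (not_lt.1 h1) hb.le
  linarith

theorem germ_mir {n : ℕ} (hn : 0 < n) {h : Sph4 ≃ₜ Sph4} {H η d : E4 ≃ₜ E4} {b : E4}
    (hb : Om b) (hHb : Om (H b)) (hH : ∀ x, Om x → sph n (q1 (H x)) = h (sph n (q1 x)))
    (hη : Germ H b η) (hd : PD 1 d) {α β : E4 → Sph4} (hα : LDS α) (hβ : LDS β)
    (h0 : α 0 = sph n (q1 b)) (hc : ∀ᶠ x in 𝓝 (0 : E4), h (α x) = β (d x)) : Mir η d := by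
  have hd0 : d 0 = 0 := hd.1
  have hη0 : η 0 = 0 := hη.1.1
  have hP0 : crd n b 0 = α 0 := by
    rw [h0]
    unfold crd
    rw [add_zero]
  have hP'0 : crd n (H b) 0 = β 0 := by
    have h1 := hc.self_of_nhds
    rw [hd0, h0] at h1
    rw [← h1]
    unfold crd
    rw [add_zero]
    exact hH b hb
  obtain ⟨Λ, hΛ0, hΛr, hΛ⟩ := lift_local (ld_crd hn hb) hα hP0
  obtain ⟨μ, hμ0, hμr, hμ⟩ := lift_local (ld_crd hn hHb) hβ hP'0
  obtain ⟨ν, hν0, hνr, hν⟩ := inv_local hμ0 hμr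
  obtain ⟨U, hU, hinj⟩ := inj_local (ld_crd hn hHb)
  have hΛc : Tendsto Λ (𝓝 0) (𝓝 0) := by
    have h1 : ContinuousAt Λ 0 := hΛr.self_of_nhds.1.continuousAt
    have h2 : Tendsto Λ (𝓝 0) (𝓝 (Λ 0)) := h1
    rwa [hΛ0] at h2
  have hμc : Tendsto μ (𝓝 0) (𝓝 0) := by
    have h1 : ContinuousAt μ 0 := hμr.self_of_nhds.1.continuousAt
    have h2 : Tendsto μ (𝓝 0) (𝓝 (μ 0)) := h1
    rwa [hμ0] at h2
  have hdc : Tendsto d (𝓝 0) (𝓝 0) := by
    have h2 : Tendsto d (𝓝 0) (𝓝 (d 0)) := d.continuous.tendsto 0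
    rwa [hd0] at h2
  have hηc : Tendsto η (𝓝 0) (𝓝 0) := by
    have h2 : Tendsto η (𝓝 0) (𝓝 (η 0)) := η.continuous.tendsto 0
    rwa [hη0] at h2
  have hOm : ∀ᶠ z in 𝓝 (0 : E4), Om (b + z) := by
    have h1 : Tendsto (fun z : E4 => b + z) (𝓝 0) (𝓝 (b + 0)) :=
      (continuous_const.add continuous_id).tendsto 0
    rw [add_zero] at h1
    exact h1.eventually (isOpen_Om.mem_nhds hb)
  -- the germ equation
  have heq : ∀ᶠ x in 𝓝 (0 : E4), d x = ν (η (Λ x)) := by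
    filter_upwards [hc, hΛ, hdc.eventually hμ, hdc.eventually hν, hΛc.eventually hη.2,
      hΛc.eventually hOm, (hηc.comp hΛc).eventually hU, (hμc.comp hdc).eventually hU] with x a1 a2
      a3 a4 a5 a6 a7 a8
    have e1 : crd n (H b) (η (Λ x)) = crd n (H b) (μ (d x)) := by
      rw [a3, ← a1, ← a2, a5]
      unfold crd
      rw [add_sub_cancel]
      exact hH _ a6
    have e2 : η (Λ x) = μ (d x) := hinj a7 a8 e1
    rw [e2, a4]
  -- the signs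
  obtain ⟨s, hs, hsΛ⟩ := reg_sign hΛr
  obtain ⟨t, ht, htν⟩ := reg_sign hνr
  have hst : t = s := by
    have hall : ∀ᶠ x in 𝓝 (0 : E4), LD s Λ x ∧ LD t ν (η (Λ x)) ∧ (d =ᶠ[𝓝 x] fun x => ν (η (Λ x))) ∧
        d x = ν (η (Λ x)) := by
      filter_upwards [hsΛ, (hηc.comp hΛc).eventually htν, heq.eventually_nhds, heq] with x a1 a2 a3 a4
      exact ⟨a1, a2, a3, a4⟩
    have hne : ∀ᶠ x in 𝓝[≠] (0 : E4), x ≠ 0 := self_mem_nhdsWithin
    obtain ⟨x, ⟨a1, a2, a3, a4⟩, hx⟩ := ((hall.filter_mono nhdsWithin_le_nhds).and hne).exists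
    have hΛx : Λ x ≠ 0 := by
      intro h1
      rw [h1, hη0, hν0] at a4
      exact hx (d.injective (a4.trans hd0.symm))
    have h1 : LD 1 η (Λ x) := hη.1.2 _ hΛx
    have h2 : LD (t * (1 * s)) (ν ∘ (η ∘ Λ)) x := LD.comp a2 (LD.comp h1 a1)
    have h3 : LD 1 (ν ∘ (η ∘ Λ)) x := (hd.2 x hx).congr a3
    have h4 := h2.2
    have h5 := h3.2
    rw [one_mul] at h5
    have h6 : 0 < t * s := by
      have h7 : 0 < t * (1 * s) := pos_of_mul_pos_of_pos_right_TypeCls h4 h5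
      rwa [one_mul] at h7
    have h8 : (t - s) * (t + s) = 0 := by linear_combination ht - hs
    rcases mul_eq_zero.1 h8 with h9 | h9
    · linarith
    · exfalso
      have h10 : t = -s := by linarith
      rw [h10] at h6
      nlinarith
  subst hst
  obtain ⟨k, hk⟩ : ∃ k : E4 ≃ₜ E4, PD t k := by
    have h1 : (t - 1) * (t + 1) = 0 := by linear_combination ht
    rcases mul_eq_zero.1 h1 with h2 | h2
    · have h3 : t = 1 := by linarith
      rw [h3]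
      exact ⟨1, PD_one⟩
    · have h3 : t = -1 := by linarith
      rw [h3]
      exact ⟨_, PD_refl⟩
  have hg1 : Germ η (Λ 0) η := by
    refine ⟨hη.1, Eventually.of_forall fun x => ?_⟩
    rw [hΛ0, zero_add, hη0, sub_zero]
  have hg2 : Germ d 0 d := by
    refine ⟨hd, Eventually.of_forall fun x => ?_⟩
    rw [zero_add, hd0, sub_zero]
  have htν' : ∀ᶠ y in 𝓝 (η (Λ 0)), LD t ν y := by
    rw [hΛ0, hη0]
    exact htν
  exact (Mir.of_conj ht hk).trans (Mir.of_eqv (germ_conj ht hg1 hg2 hsΛ htν' heq hk))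

private theorem symm_TypeCls (φ : Sph4 ≃ₜ Sph4) (x : Sph4) : φ ((φ⁻¹ : Sph4 ≃ₜ Sph4) x) = x :=
  φ.apply_symm_apply x

private theorem symm_TypeCls' (φ : Sph4 ≃ₜ Sph4) (x : Sph4) : (φ⁻¹ : Sph4 ≃ₜ Sph4) (φ x) = x :=
  φ.symm_apply_apply x

private theorem mul_TypeCls (φ ψ : Sph4 ≃ₜ Sph4) (x : Sph4) :
    (φ * ψ : Sph4 ≃ₜ Sph4) x = φ (ψ x) := rfl

private theorem inv_TypeCls (φ : Sph4 ≃ₜ Sph4) (hφ : ∀ x, LocalDiffeoAt φ x) (x : Sph4) :
    LocalDiffeoAt (φ⁻¹ : Sph4 ≃ₜ Sph4) x := by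
  have h := ld_inv (hφ (φ.symm x))
  rwa [φ.apply_symm_apply] at h

/-- as `norm_of`, with the homeomorphisms -/
private theorem norm_TypeCls {n : ℕ} (hn : 2 ≤ n) {g : Sph4 → Sph4} {h φ' g₀ : Sph4 ≃ₜ Sph4}
    {φ : Sph4 → Sph4} (hφ' : ∀ x, φ' x = φ x) (hφ'd : ∀ x, LocalDiffeoAt φ' x)
    (hg₀ : ∀ x, g₀ x = g x) (hg₀d : ∀ x, LocalDiffeoAt g₀ x)
    (hconj : ∀ x, h (g x) = rotS n (h x))
    (hnear : ∀ x, g x = x → ∀ᶠ z in 𝓝 x, h z = φ z) :
    NormAct n (φ' * g₀ * φ'⁻¹) (h * φ'⁻¹) := by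
  have hc : ∀ x, (h * φ'⁻¹ : Sph4 ≃ₜ Sph4) ((φ' * g₀ * φ'⁻¹ : Sph4 ≃ₜ Sph4) x) =
      rotS n ((h * φ'⁻¹ : Sph4 ≃ₜ Sph4) x) := by
    intro x
    rw [mul_TypeCls, mul_TypeCls, mul_TypeCls, mul_TypeCls, symm_TypeCls', hg₀, hconj]
  have htop : NearS2 fun x => (h * φ'⁻¹ : Sph4 ≃ₜ Sph4) x = x := by
    intro x hx
    have hu : h (h.symm x) = x := h.apply_symm_apply x
    have hfix : g (h.symm x) = h.symm x := by
      apply h.injective
      rw [hconj, hu, rotS_fix_iff hn]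
      exact hx
    have h1 : ∀ᶠ y in 𝓝 (h.symm x), h y = φ y := hnear (h.symm x) hfix
    have h2 : h (h.symm x) = φ (h.symm x) := h1.self_of_nhds
    have h3 : φ' (h.symm x) = x := by
      rw [hφ', ← h2, hu]
    have h4 : (φ'⁻¹ : Sph4 ≃ₜ Sph4) x = h.symm x := by
      conv_lhs => rw [← h3]
      exact symm_TypeCls' φ' _
    have h5 : Tendsto (φ'⁻¹ : Sph4 ≃ₜ Sph4) (𝓝 x) (𝓝 (h.symm x)) := by
      have := (φ'⁻¹ : Sph4 ≃ₜ Sph4).continuous.continuousAt (x := x)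
      unfold ContinuousAt at this
      rwa [h4] at this
    filter_upwards [h5.eventually h1] with y hy
    rw [mul_TypeCls, hy, ← hφ', symm_TypeCls]
  refine ⟨?_, ?_, htop, hc⟩
  · intro x
    exact ld_mul (ld_mul (hφ'd _) (hg₀d _)) (inv_TypeCls φ' hφ'd x)
  · intro x hx
    have h1 : (φ' * g₀ * φ'⁻¹ : Sph4 ≃ₜ Sph4) x = x := by
      apply (h * φ'⁻¹ : Sph4 ≃ₜ Sph4).injective
      rw [hc, NearS2.self htop hx, rotS, rotA_fix hx]
    have h2 : Tendsto (φ' * g₀ * φ'⁻¹ : Sph4 ≃ₜ Sph4) (𝓝 x) (𝓝 x) := by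
      have := (φ' * g₀ * φ'⁻¹ : Sph4 ≃ₜ Sph4).continuous.continuousAt (x := x)
      unfold ContinuousAt at this
      rwa [h1] at this
    filter_upwards [htop x hx, h2.eventually (htop x hx)] with y hy1 hy2
    rw [← hy2, hc, hy1]

theorem type_cls {n : ℕ} (hn : 2 ≤ n) {g : Sph4 → Sph4} {d : Homeo4} (h : SingularType n g d) :
    ∃ (φ g' h' : Sph4 ≃ₜ Sph4) (f G H G' : E4 ≃ₜ E4), (∀ x, LocalDiffeoAt φ x) ∧
      (∀ x, φ (g x) = g' (φ x)) ∧ NormAct n g' h' ∧ Rep n g' f G H G' ∧ Off G ∧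
      Mir d.old G := by
  have hdP : PD 1 d.old := mem_groupD.1 h.mem
  obtain ⟨k, φ, y, α, β, hconj, ⟨hφd, hnear⟩, ⟨hy, hreg⟩, ⟨hα, hβ⟩, hα0, hcomm⟩ := h.ex
  obtain ⟨φ', hφ', hφ'd⟩ := homeo_of_isDiffeo hφd
  obtain ⟨g₀, hg₀, hg₀d⟩ := homeo_of_isDiffeo h.diffeo
  have hN := norm_TypeCls hn hφ' hφ'd hg₀ hg₀d hconj hnear
  obtain ⟨g', hg'⟩ : ∃ g' : Sph4 ≃ₜ Sph4, g' = φ' * g₀ * φ'⁻¹ := ⟨_, rfl⟩
  obtain ⟨h', hh'⟩ : ∃ h' : Sph4 ≃ₜ Sph4, h' = k * φ'⁻¹ := ⟨_, rfl⟩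
  rw [← hg', ← hh'] at hN
  have hc : ∀ x, φ' (g x) = g' (φ' x) := by
    intro x
    rw [hg', mul_TypeCls, mul_TypeCls, symm_TypeCls', hg₀]
  have hs : Function.Semiconj φ' g g' := hc
  have hy' : g' (φ' y) ≠ φ' y := by
    rw [← hc]
    exact fun e => hy (φ'.injective e)
  have hr' : ∀ x, (∀ k : ℕ, x ≠ g'^[k] (φ' y)) → LocalDiffeoAt h' x := by
    intro x hx
    rw [hh']
    refine ld_mul (hreg _ fun j hj => hx j ?_) (inv_TypeCls φ' hφ'd x)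
    rw [← hs.iterate_right j y, ← hj, symm_TypeCls]
  obtain ⟨f, G, H, G', b, hR, hb, hby, hH, hr⟩ := rep_sing hn hN hy' hr'
  have hO : Off G := off_of_ray hR.pair.sm hR.pair.nnH hR.pair.conj hb hr
  have hL : Off1 G H b := off1_of_near (Nn.id_near hR.pair.nnH) hr
  obtain ⟨η, hη⟩ := germ_of hR.pair.nnH.zero hR.pair.conj hb.ne hL
  have hE : Eqv η G := key (hR.pair.good.PD hR.pair.sm e0_ne) hR.pair.good.contr hO
    hR.pair.nnH.zero hR.pair.conj hb.ne hL hη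
  have hM : Mir η d.old := by
    refine germ_mir (n := n) (by omega) (h := h') (H := H) (α := fun x => φ' (α x)) (β := β) hb
      (hR.pair.nnH.om.2 hb) hH hη hdP (LDS.comp hφ'd hα) hβ ?_ ?_
    · rw [hby, hα0]
    · filter_upwards [hcomm] with x hx
      rw [hh', mul_TypeCls, symm_TypeCls', hx]
      rfl
  exact ⟨φ', g', h', f, G, H, G', hφ'd, hc, hN, hR, hO, hM.symm.trans (Mir.of_eqv hE)⟩

end Pool.Agent.Rot6
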